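import Mathlib

set_option autoImplicit false

open Polynomial IntermediateField

namespace Pool.Agent.H319R3.Bogo

noncomputable section

instance fact3 : Fact (Nat.Prime 3) := ⟨Nat.prime_three⟩

abbrev Om := PadicAlgCl 3
abbrev Q3 := ℚ_[3]

theorem norm_three : ‖(3 : Om)‖ = 1 / 3 := by
  have h := PadicAlgCl.norm_extends 3 (3 : ℚ_[3])
  have h2 : ‖(3 : ℚ_[3])‖ = 1 / 3 := by
    have := Padic.norm_p (p := 3)
    rw [one_div]
    exact_mod_cast this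
  rw [← h2, ← h]
  congr 1

/-- the quantity 2 - ξ - ξ⁻¹ -/
def lam (ξ : Om) : Om := 2 - ξ - ξ⁻¹

theorem lam_cube (ξ : Om) (h : ξ ≠ 0) : lam (ξ ^ 3) = lam ξ * (3 - lam ξ) ^ 2 := by
  unfold lam
  field_simp
  ring

theorem norm_sub_eq_of_lt {x y : Om} (h : ‖x‖ < ‖y‖) : ‖x - y‖ = ‖y‖ := by
  have := IsUltrametricDist.norm_add_eq_max_of_norm_ne_norm (x := x) (y := -y) (by
    rw [norm_neg]; exact h.ne)
  rw [sub_eq_add_neg, this, norm_neg, max_eq_right h.le]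

theorem norm_add_eq_of_lt {x y : Om} (h : ‖x‖ < ‖y‖) : ‖x + y‖ = ‖y‖ := by
  have := IsUltrametricDist.norm_add_eq_max_of_norm_ne_norm (x := x) (y := y) h.ne
  rw [this, max_eq_right h.le]

/-- norm of 2 - ξ - ξ⁻¹ for primitive roots of order 3^{n+1}. -/
theorem norm_lam (n : ℕ) : ∀ ξ : Om, IsPrimitiveRoot ξ (3 ^ (n + 1)) →
    ‖lam ξ‖ ^ (3 ^ n) = 1 / 3 := by
  induction n with
  | zero =>
    intro ξ hξ
    have h3 : ξ ^ 3 = 1 := by simpa using hξ.pow_eq_one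
    have hne : ξ ≠ 1 := by
      rintro rfl
      have := hξ.dvd_of_pow_eq_one 1 (by simp)
      norm_num at this
    have hne0 : ξ ≠ 0 := by rintro rfl; norm_num at h3
    have h4 : ξ ^ 2 + ξ + 1 = 0 := by
      have : (ξ - 1) * (ξ ^ 2 + ξ + 1) = 0 := by ring_nf; rw [h3]; ring
      rcases mul_eq_zero.1 this with h | h
      · exact absurd (sub_eq_zero.1 h) hne
      · exact h
    have h5 : lam ξ = 3 := by
      unfold lam
      field_simp
      linear_combination -h4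
    rw [h5, norm_three]; norm_num
  | succ n ih =>
    intro ξ hξ
    have hne0 : ξ ≠ 0 := by
      rintro rfl
      have := hξ.pow_eq_one
      rw [zero_pow (by positivity)] at this
      norm_num at this
    have h1 : IsPrimitiveRoot (ξ ^ 3) (3 ^ (n + 1)) :=
      hξ.pow (by positivity) (by ring)
    have h2 := ih _ h1
    rw [lam_cube ξ hne0, norm_mul, norm_pow] at h2
    have hgt : 1 / 3 < ‖lam ξ‖ := by
      by_contra hle
      push Not at hle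
      have h3 : ‖3 - lam ξ‖ ≤ 1 / 3 := by
        have := IsUltrametricDist.norm_add_le_max (3 : Om) (-lam ξ)
        rw [norm_three, norm_neg, ← sub_eq_add_neg] at this
        exact this.trans (max_le le_rfl hle)
      have h4 : ‖lam ξ‖ * ‖3 - lam ξ‖ ^ 2 ≤ (1 / 3) ^ 3 := by
        calc ‖lam ξ‖ * ‖3 - lam ξ‖ ^ 2 ≤ (1 / 3) * (1 / 3) ^ 2 := by gcongr
          _ = (1 / 3) ^ 3 := by ring
      have h5 : (‖lam ξ‖ * ‖3 - lam ξ‖ ^ 2) ^ 3 ^ n ≤ ((1 / 3) ^ 3) ^ 3 ^ n := by gcongr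
      rw [h2, ← pow_mul] at h5
      have h6 : ((1 : ℝ) / 3) ^ (3 * 3 ^ n) ≤ (1 / 3) ^ 2 :=
        pow_le_pow_of_le_one (by norm_num) (by norm_num) (by
          have : 1 ≤ 3 ^ n := Nat.one_le_pow _ _ (by norm_num)
          omega)
      norm_num at h5 h6
      linarith
    have h3 : ‖3 - lam ξ‖ = ‖lam ξ‖ := norm_sub_eq_of_lt (by rw [norm_three]; exact hgt)
    rw [h3] at h2
    calc ‖lam ξ‖ ^ 3 ^ (n + 1) = (‖lam ξ‖ * ‖lam ξ‖ ^ 2) ^ 3 ^ n := by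
          rw [← pow_succ', ← pow_mul, pow_succ]; congr 1; ring
      _ = 1 / 3 := h2

theorem lam_lt_one (n : ℕ) (ξ : Om) (hξ : IsPrimitiveRoot ξ (3 ^ (n + 1))) : ‖lam ξ‖ < 1 := by
  by_contra h
  push Not at h
  have := norm_lam n ξ hξ
  have h2 : 1 ≤ ‖lam ξ‖ ^ 3 ^ n := one_le_pow₀ h
  rw [this] at h2
  norm_num at h2

theorem lam_ge (n : ℕ) (ξ : Om) (hξ : IsPrimitiveRoot ξ (3 ^ (n + 1))) : 1 / 3 ≤ ‖lam ξ‖ := by
  have := norm_lam n ξ hξ
  rw [← this]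
  calc ‖lam ξ‖ ^ 3 ^ n ≤ ‖lam ξ‖ ^ 1 :=
        pow_le_pow_of_le_one (norm_nonneg _) (lam_lt_one n ξ hξ).le (Nat.one_le_pow _ _ (by norm_num))
    _ = ‖lam ξ‖ := pow_one _

theorem lam_gt (n : ℕ) (ξ : Om) (hξ : IsPrimitiveRoot ξ (3 ^ (n + 2))) : 1 / 3 < ‖lam ξ‖ := by
  have h1 := lam_ge (n + 1) ξ hξ
  rcases h1.lt_or_eq with h | h
  · exact h
  · exfalso
    have h2 := norm_lam (n + 1) ξ hξ
    rw [← h] at h2
    have h6 : ((1 : ℝ) / 3) ^ (3 ^ (n + 1)) ≤ (1 / 3) ^ 2 :=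
      pow_le_pow_of_le_one (by norm_num) (by norm_num) (by
        have : 1 ≤ 3 ^ n := Nat.one_le_pow _ _ (by norm_num)
        rw [pow_succ]; omega)
    rw [h2] at h6
    norm_num at h6

/-- the value group lemma: degree over Q3 -/
theorem degree_of_norm (n : ℕ) (y : Om) (hy : ‖y‖ ^ (3 ^ n) = 1 / 3 ∨ ‖y‖ ^ (3 ^ n) = 3) :
    3 ^ n ≤ (minpoly Q3 y).natDegree := by
  set m := (minpoly Q3 y).natDegree with hm
  have hint : IsIntegral Q3 y := Algebra.IsIntegral.isIntegral y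
  have hmpos : 0 < m := minpoly.natDegree_pos hint
  have h1 : ‖y‖ = ‖(minpoly Q3 y).coeff 0‖ ^ (1 / (m : ℝ)) := by
    rw [← PadicAlgCl.spectralNorm_eq, spectralNorm.spectralNorm_eq_norm_coeff_zero_rpow]
  have h2 : ‖y‖ ^ m = ‖(minpoly Q3 y).coeff 0‖ := by
    rw [h1, ← Real.rpow_natCast, ← Real.rpow_mul (norm_nonneg _)]
    have : (1 / (m : ℝ)) * (m : ℝ) = 1 := by field_simp
    rw [this, Real.rpow_one]
  have hy0 : y ≠ 0 := by
    rintro rfl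
    rw [norm_zero, zero_pow (by positivity)] at hy
    norm_num at hy
  have hc0 : (minpoly Q3 y).coeff 0 ≠ 0 := minpoly.coeff_zero_ne_zero hint hy0
  obtain ⟨k, hk⟩ : ∃ k : ℤ, k = ((minpoly Q3 y).coeff 0).valuation := ⟨_, rfl⟩
  have h3 : (‖(minpoly Q3 y).coeff 0‖ : ℝ) = (3 : ℝ) ^ (-k) := by
    rw [Padic.norm_eq_zpow_neg_valuation hc0, hk]; push_cast; rfl
  have h4 : (‖y‖ ^ 3 ^ n) ^ m = ((3 : ℝ) ^ (-k)) ^ (3 ^ n) := by
    rw [← h3, ← h2, ← pow_mul, ← pow_mul, mul_comm]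
  have h5 : ((3 : ℝ) ^ (-k)) ^ (3 ^ n) = (3 : ℝ) ^ (-k * (3 ^ n : ℕ)) := by
    rw [zpow_mul, zpow_natCast]
  have key : (3 ^ n : ℤ) ∣ (m : ℤ) := by
    rcases hy with h | h
    · rw [h, h5] at h4
      have h6 : ((1 : ℝ) / 3) ^ m = (3 : ℝ) ^ (-(m : ℤ)) := by
        rw [zpow_neg, zpow_natCast, one_div, inv_pow]
      rw [h6] at h4
      have h7 := zpow_right_injective₀ (by norm_num : (0 : ℝ) < 3) (by norm_num) h4
      exact ⟨k, by push_cast at h7; linarith⟩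
    · rw [h, h5, ← zpow_natCast] at h4
      have h7 := zpow_right_injective₀ (by norm_num : (0 : ℝ) < 3) (by norm_num) h4
      exact ⟨-k, by push_cast at h7; linarith⟩
  exact Nat.le_of_dvd hmpos (by exact_mod_cast key)

end

end Pool.Agent.H319R3.Bogo
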