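import Pool.Agent.H319R3.BogoA

set_option autoImplicit false

open Polynomial IntermediateField

namespace Pool.Agent.H319R3.Bogo

noncomputable section

theorem exists_zeta (n : ℕ) : ∃ ξ : Om, IsPrimitiveRoot ξ (3 ^ (n + 1)) := by
  have : NeZero ((3 ^ (n + 1) : ℕ) : Om) := ⟨by
    have : (3 ^ (n + 1) : ℕ) ≠ 0 := by positivity
    exact_mod_cast this⟩
  exact HasEnoughRootsOfUnity.exists_primitiveRoot Om (3 ^ (n + 1))

def zeta (n : ℕ) : Om := (exists_zeta n).choose

theorem zeta_spec (n : ℕ) : IsPrimitiveRoot (zeta n) (3 ^ (n + 1)) := (exists_zeta n).choose_spec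

/-- n-th layer of the 3-adic cyclotomic tower -/
def Ln (n : ℕ) : IntermediateField Q3 Om := Q3⟮lam (zeta n)⟯

theorem pow_add_inv_mem (K : IntermediateField Q3 Om) (x : Om) (hx0 : x ≠ 0) (hx : lam x ∈ K) :
    ∀ k : ℕ, lam (x ^ k) ∈ K := by
  have h2 : (2 : Om) ∈ K := by
    exact K.algebraMap_mem (2 : Q3)
  have hc : x + x⁻¹ ∈ K := by
    have : x + x⁻¹ = 2 - lam x := by unfold lam; ring
    rw [this]; exact K.sub_mem h2 hx
  have key : ∀ k : ℕ, x ^ k + (x ^ k)⁻¹ ∈ K ∧ x ^ (k + 1) + (x ^ (k + 1))⁻¹ ∈ K := by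
    intro k
    induction k with
    | zero =>
      constructor
      · have : x ^ 0 + (x ^ 0)⁻¹ = 2 := by norm_num
        rw [this]; exact h2
      · simpa using hc
    | succ k ih =>
      refine ⟨ih.2, ?_⟩
      have : x ^ (k + 1 + 1) + (x ^ (k + 1 + 1))⁻¹ =
          (x + x⁻¹) * (x ^ (k + 1) + (x ^ (k + 1))⁻¹) - (x ^ k + (x ^ k)⁻¹) := by
        field_simp
        ring
      rw [this]
      exact K.sub_mem (K.mul_mem hc ih.2) ih.1
  intro k
  have : lam (x ^ k) = 2 - (x ^ k + (x ^ k)⁻¹) := by unfold lam; ring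
  rw [this]
  exact K.sub_mem h2 (key k).1

theorem prim_ne_zero {ξ : Om} {m : ℕ} (hm : m ≠ 0) (h : ξ ^ m = 1) : ξ ≠ 0 := by
  rintro rfl
  rw [zero_pow hm] at h
  exact zero_ne_one h

theorem lam_mem_Ln (n : ℕ) (ξ : Om) (h : ξ ^ (3 ^ (n + 1)) = 1) : lam ξ ∈ Ln n := by
  obtain ⟨i, -, hi⟩ := (zeta_spec n).eq_pow_of_pow_eq_one h
  rw [← hi]
  apply pow_add_inv_mem
  · exact prim_ne_zero (by positivity) (zeta_spec n).pow_eq_one
  · exact mem_adjoin_simple_self _ _

theorem Ln_mono : Monotone Ln := by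
  apply monotone_nat_of_le_succ
  intro n
  unfold Ln
  rw [adjoin_simple_le_iff]
  apply lam_mem_Ln
  rw [pow_succ 3 (n + 1), pow_mul, (zeta_spec n).pow_eq_one, one_pow]

/-- the union of the tower -/
def L : IntermediateField Q3 Om := ⨆ n, Ln n

theorem mem_L {x : Om} : x ∈ L ↔ ∃ n, x ∈ Ln n := by
  have h := IntermediateField.coe_iSup_of_directed (t := Ln) (Ln_mono.directed_le)
  unfold L
  rw [← SetLike.mem_coe, h]
  simp

/-- y (3 - y)^2 -/
def hpol : ℤ[X] := X ^ 3 - C 6 * X ^ 2 + C 9 * X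

theorem hpol_natDegree : hpol.natDegree = 3 := by
  unfold hpol; compute_degree!

theorem hpol_monic : hpol.Monic := by
  unfold hpol; monicity!

def H : ℕ → ℤ[X]
  | 0 => X
  | n + 1 => (H n).comp hpol

theorem H_spec (n : ℕ) : (H n).Monic ∧ (H n).natDegree = 3 ^ n := by
  induction n with
  | zero => exact ⟨monic_X, by simp [H]⟩
  | succ n ih =>
    constructor
    · exact ih.1.comp hpol_monic (by rw [hpol_natDegree]; norm_num)
    · rw [H, natDegree_comp, ih.2, hpol_natDegree, pow_succ]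

/-- T n = H n - 3 -/
def T (n : ℕ) : ℤ[X] := H n - C 3

theorem T_natDegree (n : ℕ) : (T n).natDegree = 3 ^ n := by
  unfold T
  rw [natDegree_sub_C, (H_spec n).2]

theorem T_monic (n : ℕ) : (T n).Monic := by
  unfold T
  apply (H_spec n).1.sub_of_left
  have h1 : (C 3 : ℤ[X]).degree ≤ 0 := degree_C_le
  have h2 : (0 : WithBot ℕ) < (H n).degree := by
    rw [← natDegree_pos_iff_degree_pos, (H_spec n).2]; positivity
  exact h1.trans_lt h2

theorem aeval_hpol (y : Om) : aeval y hpol = y * (3 - y) ^ 2 := by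
  unfold hpol
  simp only [map_add, map_sub, map_mul, map_pow, aeval_X, aeval_C]
  simp
  ring

theorem aeval_H (n : ℕ) : ∀ ξ : Om, ξ ≠ 0 → aeval (lam ξ) (H n) = lam (ξ ^ 3 ^ n) := by
  induction n with
  | zero => intro ξ _; simp [H]
  | succ n ih =>
    intro ξ hξ
    rw [H, aeval_comp, aeval_hpol, ← lam_cube ξ hξ, ih _ (pow_ne_zero _ hξ), ← pow_mul,
      pow_succ, mul_comm]

theorem aeval_T (n : ℕ) (ξ : Om) (hξ : ξ ≠ 0) : aeval (lam ξ) (T n) = lam (ξ ^ 3 ^ n) - 3 := by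
  unfold T
  rw [map_sub, aeval_H n ξ hξ, aeval_C]
  simp

theorem omega_lam {w : Om} (hw : w ≠ 0) : lam w = 3 ↔ IsPrimitiveRoot w 3 := by
  constructor
  · intro h
    have h4 : w ^ 2 + w + 1 = 0 := by
      unfold lam at h
      field_simp at h
      linear_combination -h
    have h3 : w ^ 3 = 1 := by linear_combination (w - 1) * h4
    have hne : w ≠ 1 := by
      rintro rfl
      norm_num at h4
    have h5 : orderOf w = 3 := orderOf_eq_prime h3 hne
    have h6 := IsPrimitiveRoot.orderOf w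
    rw [h5] at h6
    exact h6
  · intro h
    have h3 : w ^ 3 = 1 := h.pow_eq_one
    have hne : w ≠ 1 := h.ne_one (by norm_num)
    have h4 : w ^ 2 + w + 1 = 0 := by
      have : (w - 1) * (w ^ 2 + w + 1) = 0 := by ring_nf; rw [h3]; ring
      rcases mul_eq_zero.1 this with h | h
      · exact absurd (sub_eq_zero.1 h) hne
      · exact h
    unfold lam
    field_simp
    linear_combination -h4

/-- Every root of T n is lam ξ for ξ primitive of order 3^{n+1}. -/
theorem root_T (n : ℕ) (a : Om) (ha : aeval a (T n) = 0) :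
    ∃ ξ : Om, IsPrimitiveRoot ξ (3 ^ (n + 1)) ∧ a = lam ξ := by
  obtain ⟨ξ, hξ⟩ : ∃ ξ : Om, ξ ^ 2 - (2 - a) * ξ + 1 = 0 := by
    have hdeg : (X ^ 2 - C (2 - a) * X + C 1 : Om[X]).degree = 2 := by compute_degree!
    obtain ⟨ξ, hξ⟩ := IsAlgClosed.exists_root (X ^ 2 - C (2 - a) * X + C 1 : Om[X]) (by
      rw [hdeg]; norm_num)
    refine ⟨ξ, ?_⟩
    simpa [IsRoot] using hξ
  have h0 : ξ ≠ 0 := by rintro rfl; norm_num at hξ
  have h1 : a = lam ξ := by
    unfold lam
    field_simp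
    linear_combination hξ
  refine ⟨ξ, ?_, h1⟩
  rw [h1, aeval_T n ξ h0, sub_eq_zero, omega_lam (pow_ne_zero _ h0)] at ha
  have h2 : orderOf ξ = 3 ^ (n + 1) := by
    apply orderOf_eq_prime_pow
    · intro h
      have := ha.ne_one (by norm_num)
      exact this h
    · rw [pow_succ, pow_mul]; exact ha.pow_eq_one
  rw [← h2]
  exact IsPrimitiveRoot.orderOf ξ

theorem T_root (n : ℕ) (ξ : Om) (h : IsPrimitiveRoot ξ (3 ^ (n + 1))) :
    aeval (lam ξ) (T n) = 0 := by
  have h0 := prim_ne_zero (by positivity) h.pow_eq_one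
  rw [aeval_T n ξ h0, sub_eq_zero, omega_lam (pow_ne_zero _ h0)]
  exact h.pow (by positivity) (by rw [pow_succ])

/-- derivative bound at the roots -/
theorem deriv_H (n : ℕ) : ∀ ξ : Om, IsPrimitiveRoot ξ (3 ^ (n + 1)) →
    (1 / 9 : ℝ) ^ n ≤ ‖aeval (lam ξ) (derivative (H n))‖ := by
  induction n with
  | zero => intro ξ _; simp [H]
  | succ n ih =>
    intro ξ hξ
    have h0 := prim_ne_zero (by positivity) hξ.pow_eq_one
    have h1 : IsPrimitiveRoot (ξ ^ 3) (3 ^ (n + 1)) := hξ.pow (by positivity) (by ring)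
    have h2 := ih _ h1
    rw [H, derivative_comp, map_mul, aeval_comp, aeval_hpol, ← lam_cube ξ h0, norm_mul]
    have h3 : aeval (lam ξ) (derivative hpol) = 3 * ((lam ξ - 1) * (lam ξ - 3)) := by
      unfold hpol
      simp only [derivative_add, derivative_sub, derivative_mul, derivative_C, derivative_X_pow,
        derivative_X, map_add, map_sub, map_mul, map_pow, aeval_X, aeval_C, map_natCast, map_one,
        map_zero]
      simp
      ring
    have hgt := lam_gt n ξ hξ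
    have hlt := lam_lt_one (n + 1) ξ hξ
    have h4 : ‖lam ξ - 1‖ = 1 := by
      have := norm_sub_eq_of_lt (x := lam ξ) (y := 1) (by rw [norm_one]; exact hlt)
      rw [this, norm_one]
    have h5 : ‖lam ξ - 3‖ = ‖lam ξ‖ := by
      rw [norm_sub_rev]
      exact norm_sub_eq_of_lt (by rw [norm_three]; exact hgt)
    rw [h3, norm_mul, norm_mul, norm_three, h4, h5]
    calc (1 / 9 : ℝ) ^ (n + 1) = (1 / 3 * (1 * (1 / 3))) * (1 / 9) ^ n := by ring
      _ ≤ (1 / 3 * (1 * ‖lam ξ‖)) * ‖aeval (lam (ξ ^ 3)) (derivative (H n))‖ := by gcongr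

theorem deriv_T (n : ℕ) (ξ : Om) (h : IsPrimitiveRoot ξ (3 ^ (n + 1))) :
    (1 / 9 : ℝ) ^ n ≤ ‖aeval (lam ξ) (derivative (T n))‖ := by
  unfold T
  rw [derivative_sub, derivative_C, sub_zero]
  exact deriv_H n ξ h

end

end Pool.Agent.H319R3.Bogo
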