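import Pool.Agent.H319R3.BogoB

set_option autoImplicit false

open Polynomial IntermediateField

namespace Pool.Agent.H319R3.Bogo

noncomputable section

abbrev lz (n : ℕ) : Om := lam (zeta n)

theorem lz_norm (n : ℕ) : ‖lz n‖ ^ (3 ^ n) = 1 / 3 := norm_lam n _ (zeta_spec n)

theorem lz_int (n : ℕ) : IsIntegral Q3 (lz n) := Algebra.IsIntegral.isIntegral _

/-- elements of Ln as polynomials in lz of degree < 3^n -/
theorem Ln_poly (n : ℕ) (x : Om) (hx : x ∈ Ln n) :
    ∃ p : Q3[X], p.natDegree < 3 ^ n ∧ aeval (lz n) p = x := by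
  unfold Ln at hx
  rw [← IntermediateField.mem_toSubalgebra,
    IntermediateField.adjoin_simple_toSubalgebra_of_isAlgebraic (lz_int n).isAlgebraic,
    Algebra.adjoin_singleton_eq_range_aeval] at hx
  obtain ⟨q, hq⟩ := hx
  set t : Q3[X] := (T n).map (algebraMap ℤ Q3) with ht
  have htm : t.Monic := (T_monic n).map _
  have htd : t.natDegree = 3 ^ n := by rw [ht, (T_monic n).natDegree_map, T_natDegree]
  have htr : aeval (lz n) t = 0 := by
    rw [ht, aeval_map_algebraMap]
    exact T_root n _ (zeta_spec n)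
  refine ⟨q %ₘ t, ?_, ?_⟩
  · rw [← htd]
    apply natDegree_modByMonic_lt _ htm
    intro h
    rw [h] at htd
    simp at htd
    have : 0 < 3 ^ n := by positivity
    omega
  · have := modByMonic_add_div q t
    have h2 := congrArg (aeval (lz n)) this
    rw [map_add, map_mul, htr, zero_mul, add_zero] at h2
    rw [h2]; exact hq

theorem term_norm (n i : ℕ) (a : Q3) (ha : a ≠ 0) :
    ∃ k : ℤ, ‖algebraMap Q3 Om a * lz n ^ i‖ ^ (3 ^ n) = (3 : ℝ) ^ (k * (3 ^ n : ℕ) - i) := by
  refine ⟨-a.valuation, ?_⟩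
  have h1 : ‖algebraMap Q3 Om a‖ = (3 : ℝ) ^ (-a.valuation) := by
    have := PadicAlgCl.norm_extends 3 a
    rw [Padic.norm_eq_zpow_neg_valuation ha] at this
    exact_mod_cast this
  rw [norm_mul, norm_pow, h1, mul_pow, ← pow_mul, mul_comm i, pow_mul, lz_norm,
    zpow_sub₀ (by norm_num), zpow_mul, zpow_natCast, zpow_natCast, one_div, inv_pow]
  rfl

theorem zpow3_pow_ne (n i j : ℕ) (hi : i < 3 ^ n) (hj : j < 3 ^ n) (hij : i ≠ j) (k l : ℤ) :
    (3 : ℝ) ^ (k * (3 ^ n : ℕ) - i) ≠ (3 : ℝ) ^ (l * (3 ^ n : ℕ) - j) := by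
  intro h
  have h7 := zpow_right_injective₀ (by norm_num : (0 : ℝ) < 3) (by norm_num) h
  have h8 : (i : ℤ) - j = (k - l) * (3 ^ n : ℕ) := by linarith
  have h9 : ((3 ^ n : ℕ) : ℤ) ∣ (i : ℤ) - j := ⟨k - l, by rw [h8]; ring⟩
  have h10 : (i : ℤ) - j = 0 := by
    apply Int.eq_zero_of_abs_lt_dvd h9
    rw [abs_lt]
    constructor <;> push_cast <;> zify at hi hj <;> linarith [Int.natCast_nonneg i, Int.natCast_nonneg j]
  apply hij
  omega

theorem Ln_structure (n : ℕ) (x : Om) (hx : x ∈ Ln n) (hx0 : x ≠ 0) :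
    (∃ m : ℤ, ‖x‖ ^ (3 ^ n) = (3 : ℝ) ^ m) ∧
    (‖x‖ ≤ 1 → ∃ a : Q3, ‖a‖ ≤ 1 ∧ ‖x - algebraMap Q3 Om a‖ < 1) := by
  obtain ⟨p, hpd, hp⟩ := Ln_poly n x hx
  have hsum : x = ∑ i ∈ p.support, algebraMap Q3 Om (p.coeff i) * lz n ^ i := by
    rw [← hp, aeval_def, eval₂_eq_sum, Polynomial.sum_def]
  have hp0 : p ≠ 0 := by rintro rfl; apply hx0; rw [← hp]; simp
  have hsne : p.support.Nonempty := by
    rw [Finset.nonempty_iff_ne_empty, Ne, Polynomial.support_eq_empty]; exact hp0
  have hlt : ∀ i ∈ p.support, i < 3 ^ n := fun i hi =>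
    lt_of_le_of_lt (le_natDegree_of_mem_supp i hi) hpd
  have hpair : Set.Pairwise (p.support : Set ℕ) (fun i j =>
      ‖algebraMap Q3 Om (p.coeff i) * lz n ^ i‖ ≠ ‖algebraMap Q3 Om (p.coeff j) * lz n ^ j‖) := by
    intro i hi j hj hij heq
    obtain ⟨k, hk⟩ := term_norm n i (p.coeff i) (mem_support_iff.1 hi)
    obtain ⟨l, hl⟩ := term_norm n j (p.coeff j) (mem_support_iff.1 hj)
    rw [heq, hl] at hk
    exact zpow3_pow_ne n i j (hlt i hi) (hlt j hj) hij k l hk.symm
  have hnorm := IsUltrametricDist.norm_sum_eq_sup'_of_pairwise_ne hsne hpair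
  rw [← hsum] at hnorm
  constructor
  · obtain ⟨i, hi, hieq⟩ := Finset.exists_mem_eq_sup' hsne
      (fun i => ‖algebraMap Q3 Om (p.coeff i) * lz n ^ i‖)
    rw [hnorm, hieq]
    obtain ⟨k, hk⟩ := term_norm n i (p.coeff i) (mem_support_iff.1 hi)
    exact ⟨_, hk⟩
  · intro hx1
    have hle : ∀ i ∈ p.support, ‖algebraMap Q3 Om (p.coeff i) * lz n ^ i‖ ≤ 1 := by
      intro i hi
      refine le_trans ?_ hx1
      rw [hnorm]
      exact Finset.le_sup' (fun i => ‖algebraMap Q3 Om (p.coeff i) * lz n ^ i‖) hi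
    have hlt1 : ∀ i ∈ p.support, i ≠ 0 →
        ‖algebraMap Q3 Om (p.coeff i) * lz n ^ i‖ < 1 := by
      intro i hi hi0
      refine lt_of_le_of_ne (hle i hi) ?_
      intro h1
      obtain ⟨k, hk⟩ := term_norm n i (p.coeff i) (mem_support_iff.1 hi)
      rw [h1, one_pow] at hk
      have := zpow3_pow_ne n i 0 (hlt i hi) (by positivity) hi0 k 0
      apply this
      rw [← hk]
      simp
    refine ⟨p.coeff 0, ?_, ?_⟩
    · by_cases h0 : 0 ∈ p.support
      · have := hle 0 h0
        rw [pow_zero, mul_one] at this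
        rw [← PadicAlgCl.norm_extends 3 (p.coeff 0)]
        exact this
      · rw [notMem_support_iff.1 h0, norm_zero]; norm_num
    · have h2 : x - algebraMap Q3 Om (p.coeff 0) =
          ∑ i ∈ p.support.erase 0, algebraMap Q3 Om (p.coeff i) * lz n ^ i := by
        by_cases h0 : 0 ∈ p.support
        · rw [hsum, ← Finset.add_sum_erase _ _ h0]
          simp
        · rw [notMem_support_iff.1 h0, Finset.erase_eq_of_notMem h0, map_zero, sub_zero]
          exact hsum
      rw [h2]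
      obtain ⟨i, hi1, hi2⟩ := IsUltrametricDist.exists_norm_finsetSum_le (p.support.erase 0)
        (fun i => algebraMap Q3 Om (p.coeff i) * lz n ^ i)
      by_cases hemp : (p.support.erase 0).Nonempty
      · have h3 := hi1 hemp
        rw [Finset.mem_erase] at h3
        exact hi2.trans_lt (hlt1 i h3.2 h3.1)
      · rw [Finset.not_nonempty_iff_eq_empty] at hemp
        rw [hemp]; simp

/-- every unit of Z_3 squares to 1 mod 3 -/
theorem sq_unit (a : Q3) (ha : ‖a‖ = 1) : ‖a ^ 2 - 1‖ < 1 := by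
  obtain ⟨b, hb⟩ : ∃ b : ℤ_[3], (b : ℚ_[3]) = a := ⟨⟨a, ha.le⟩, rfl⟩
  have h1 : ‖b‖ = 1 := by rw [← PadicInt.padic_norm_e_of_padicInt, hb, ha]
  have h2 : b ∉ IsLocalRing.maximalIdeal ℤ_[3] := by
    rw [IsLocalRing.mem_maximalIdeal, mem_nonunits_iff, not_not, PadicInt.isUnit_iff]
    exact h1
  have h3 : b ^ 2 - 1 ∈ IsLocalRing.maximalIdeal ℤ_[3] := by
    rw [← PadicInt.ker_toZMod, RingHom.mem_ker, map_sub, map_pow, map_one]
    have h4 : PadicInt.toZMod b ≠ 0 := by
      intro h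
      apply h2
      rw [← PadicInt.ker_toZMod, RingHom.mem_ker]
      exact h
    generalize PadicInt.toZMod b = c at h4
    revert c
    decide
  rw [IsLocalRing.mem_maximalIdeal, PadicInt.mem_nonunits] at h3
  rw [← hb]
  rw [← PadicInt.padic_norm_e_of_padicInt] at h3
  push_cast at h3
  exact h3

theorem one_unit_torsion (n : ℕ) : ∀ m : ℕ, 0 < m → ∀ y : Om, y ∈ Ln n → ‖y - 1‖ < 1 →
    y ^ m = 1 → y = 1 := by
  intro m
  induction m using Nat.strong_induction_on with
  | _ m ih =>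
    intro hm y hy hy1 hym
    by_cases h3 : 3 ∣ m
    · obtain ⟨k, rfl⟩ := h3
      have hk : 0 < k := by omega
      set z := y ^ k with hz
      have hz3 : z ^ 3 = 1 := by rw [hz, ← pow_mul, mul_comm]; exact hym
      have hzL : z ∈ Ln n := pow_mem hy _
      have hyn : ‖y‖ ≤ 1 := by
        have := IsUltrametricDist.norm_add_le_max (y - 1) 1
        rw [sub_add_cancel, norm_one] at this
        exact this.trans (max_le hy1.le le_rfl)
      have hz1 : ‖z - 1‖ < 1 := by
        have hg : z - 1 = (y - 1) * ∑ i ∈ Finset.range k, y ^ i := by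
          rw [hz]; exact (mul_geom_sum y k).symm
        rw [hg, norm_mul]
        have : ‖∑ i ∈ Finset.range k, y ^ i‖ ≤ 1 := by
          apply IsUltrametricDist.norm_sum_le_of_forall_le_of_nonneg zero_le_one
          intro i _
          rw [norm_pow]; exact pow_le_one₀ (norm_nonneg _) hyn
        nlinarith [norm_nonneg (y - 1)]
      by_cases hz' : z = 1
      · exact ih k (by omega) hk y hy hy1 hz'
      · exfalso
        have h4 : z ^ 2 + z + 1 = 0 := by
          have : (z - 1) * (z ^ 2 + z + 1) = 0 := by ring_nf; rw [hz3]; ring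
          rcases mul_eq_zero.1 this with h | h
          · exact absurd (sub_eq_zero.1 h) hz'
          · exact h
        have h5 : (z - 1) ^ 2 = -3 * z := by linear_combination h4
        have hzn : ‖z‖ = 1 := by
          have : ‖z‖ ^ 3 = 1 := by rw [← norm_pow, hz3, norm_one]
          exact (pow_eq_one_iff_of_nonneg (norm_nonneg _) (by norm_num)).1 this
        have h6 : ‖z - 1‖ ^ 2 = 1 / 3 := by
          rw [← norm_pow, h5, norm_mul, norm_neg, norm_three, hzn, mul_one]
        obtain ⟨⟨k', hk'⟩, -⟩ := Ln_structure n (z - 1) ((Ln n).sub_mem hzL (Ln n).one_mem)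
          (sub_ne_zero.2 hz')
        have h7 : ((3 : ℝ) ^ k') ^ 2 = (1 / 3) ^ (3 ^ n) := by
          rw [← hk', ← h6, ← pow_mul, ← pow_mul, mul_comm]
        have h8 : (3 : ℝ) ^ (k' * 2) = (3 : ℝ) ^ (-((3 ^ n : ℕ) : ℤ)) := by
          rw [zpow_mul, zpow_neg, zpow_natCast, one_div, inv_pow] at *
          exact_mod_cast h7
        have h9 := zpow_right_injective₀ (by norm_num : (0 : ℝ) < 3) (by norm_num) h8
        have h10 : Odd (3 ^ n) := Odd.pow (by decide)
        obtain ⟨c, hc⟩ := h10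
        omega
    · -- 3 does not divide m
      have hg : y ^ m - 1 = (y - 1) * ∑ i ∈ Finset.range m, y ^ i := (mul_geom_sum y m).symm
      rw [hym, sub_self] at hg
      have hyn : ‖y‖ ≤ 1 := by
        have := IsUltrametricDist.norm_add_le_max (y - 1) 1
        rw [sub_add_cancel, norm_one] at this
        exact this.trans (max_le hy1.le le_rfl)
      rcases mul_eq_zero.1 hg.symm with h | h
      · exact sub_eq_zero.1 h
      · exfalso
        have h1 : ∑ i ∈ Finset.range m, (y ^ i - 1) = -(m : Om) := by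
          rw [Finset.sum_sub_distrib, h]; simp
        have h2 : ‖∑ i ∈ Finset.range m, (y ^ i - 1)‖ < 1 := by
          obtain ⟨i, -, hi2⟩ := IsUltrametricDist.exists_norm_finsetSum_le (Finset.range m)
            (fun i => y ^ i - 1)
          refine hi2.trans_lt ?_
          have : y ^ i - 1 = (y - 1) * ∑ j ∈ Finset.range i, y ^ j := (mul_geom_sum y i).symm
          rw [this, norm_mul]
          have h3 : ‖∑ j ∈ Finset.range i, y ^ j‖ ≤ 1 := by
            apply IsUltrametricDist.norm_sum_le_of_forall_le_of_nonneg zero_le_one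
            intro j _
            rw [norm_pow]; exact pow_le_one₀ (norm_nonneg _) hyn
          nlinarith [norm_nonneg (y - 1)]
        rw [h1, norm_neg] at h2
        have h4 : ‖(m : Om)‖ = ‖(m : ℚ_[3])‖ := by
          rw [← PadicAlgCl.norm_extends 3 (m : ℚ_[3])]
          congr 1
        rw [h4] at h2
        have h5 := (Padic.norm_natCast_lt_one_iff (p := 3)).1 h2
        exact h3 h5

/-- the only torsion in L is ±1 -/
theorem torsion_L (x : Om) (hx : x ∈ L) (m : ℕ) (hm : 0 < m) (hxm : x ^ m = 1) :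
    x = 1 ∨ x = -1 := by
  obtain ⟨n, hn⟩ := mem_L.1 hx
  have hxn : ‖x‖ = 1 := by
    have : ‖x‖ ^ m = 1 := by rw [← norm_pow, hxm, norm_one]
    exact (pow_eq_one_iff_of_nonneg (norm_nonneg _) hm.ne').1 this
  have hx0 : x ≠ 0 := by rintro rfl; rw [norm_zero] at hxn; norm_num at hxn
  obtain ⟨a, ha1, ha2⟩ := (Ln_structure n x hn hx0).2 hxn.le
  set A : Om := algebraMap Q3 Om a with hA
  have hAn : ‖A‖ = ‖a‖ := PadicAlgCl.norm_extends 3 a
  have hA1 : ‖A‖ = 1 := by
    have := norm_sub_eq_of_lt (x := x - A) (y := x) (by rw [hxn]; exact ha2)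
    rw [sub_sub_cancel_left, norm_neg, hxn] at this
    exact this
  have h1 : ‖a ^ 2 - 1‖ < 1 := sq_unit a (by rw [← hAn, hA1])
  have h2 : ‖A ^ 2 - 1‖ < 1 := by
    have : ‖A ^ 2 - 1‖ = ‖a ^ 2 - 1‖ := by
      rw [← PadicAlgCl.norm_extends 3 (a ^ 2 - 1)]
      congr 1
      rw [hA]
      exact (by simp : (algebraMap Q3 Om a) ^ 2 - 1 = algebraMap Q3 Om (a ^ 2 - 1))
    rw [this]; exact h1
  have h3 : ‖x ^ 2 - A ^ 2‖ < 1 := by
    have : x ^ 2 - A ^ 2 = (x - A) * (x + A) := by ring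
    rw [this, norm_mul]
    have h4 : ‖x + A‖ ≤ 1 := (IsUltrametricDist.norm_add_le_max x A).trans
      (max_le hxn.le hA1.le)
    nlinarith [norm_nonneg (x - A)]
  have h4 : ‖x ^ 2 - 1‖ < 1 := by
    have : x ^ 2 - 1 = (x ^ 2 - A ^ 2) + (A ^ 2 - 1) := by ring
    rw [this]
    exact (IsUltrametricDist.norm_add_le_max _ _).trans_lt (max_lt h3 h2)
  have h5 := one_unit_torsion n m hm (x ^ 2) (pow_mem hn 2) h4 (by
    rw [← pow_mul, mul_comm, pow_mul, hxm, one_pow])
  have h6 : (x - 1) * (x + 1) = 0 := by linear_combination h5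
  rcases mul_eq_zero.1 h6 with h | h
  · exact Or.inl (sub_eq_zero.1 h)
  · exact Or.inr (eq_neg_of_add_eq_zero_left h)

end

end Pool.Agent.H319R3.Bogo
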