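import Pool.Agent.H319R3.BogoC

set_option autoImplicit false

open Polynomial IntermediateField

namespace Pool.Agent.H319R3.Bogo

noncomputable section

/-- T n over Om -/
def TO (n : ℕ) : Om[X] := (T n).map (algebraMap ℤ Om)

theorem TO_monic (n : ℕ) : (TO n).Monic := (T_monic n).map _

theorem TO_splits (n : ℕ) : (TO n).Splits := IsAlgClosed.splits _

theorem TO_eval (n : ℕ) (b : Om) : (TO n).eval b = aeval b (T n) := by
  unfold TO; rw [eval_map_algebraMap]

theorem TO_deriv_eval (n : ℕ) (b : Om) : (derivative (TO n)).eval b = aeval b (derivative (T n)) := by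
  unfold TO; rw [derivative_map, eval_map_algebraMap]

theorem mem_TO_roots (n : ℕ) (a : Om) : a ∈ (TO n).roots ↔
    ∃ ξ : Om, IsPrimitiveRoot ξ (3 ^ (n + 1)) ∧ a = lam ξ := by
  rw [mem_roots (TO_monic n).ne_zero, IsRoot, TO_eval]
  constructor
  · exact root_T n a
  · rintro ⟨ξ, h, rfl⟩; exact T_root n ξ h

theorem root_norm_lt (n : ℕ) (a : Om) (ha : a ∈ (TO n).roots) : ‖a‖ < 1 := by
  obtain ⟨ξ, h, rfl⟩ := (mem_TO_roots n a).1 ha
  exact lam_lt_one n ξ h

theorem root_norm_ge (n : ℕ) (a : Om) (ha : a ∈ (TO n).roots) : 1 / 3 ≤ ‖a‖ := by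
  obtain ⟨ξ, h, rfl⟩ := (mem_TO_roots n a).1 ha
  exact lam_ge n ξ h

theorem norm_mprod (s : Multiset Om) : ‖s.prod‖ = (s.map fun x => ‖x‖).prod := by
  induction s using Multiset.induction_on with
  | empty => simp
  | cons a s ih => rw [Multiset.prod_cons, norm_mul, ih, Multiset.map_cons, Multiset.prod_cons]

theorem mprod_le_one (s : Multiset Om) (f : Om → ℝ) (h0 : ∀ a ∈ s, 0 ≤ f a) (h1 : ∀ a ∈ s, f a ≤ 1) :
    (s.map f).prod ≤ 1 := by
  induction s using Multiset.induction_on with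
  | empty => simp
  | cons a s ih =>
    rw [Multiset.map_cons, Multiset.prod_cons]
    have h2 := ih (fun b hb => h0 b (Multiset.mem_cons_of_mem hb))
      (fun b hb => h1 b (Multiset.mem_cons_of_mem hb))
    have h3 := h0 a (Multiset.mem_cons_self a s)
    have h4 := h1 a (Multiset.mem_cons_self a s)
    have h5 : 0 ≤ (s.map f).prod := by
      apply Multiset.prod_nonneg
      intro x hx
      obtain ⟨b, hb, rfl⟩ := Multiset.mem_map.1 hx
      exact h0 b (Multiset.mem_cons_of_mem hb)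
    nlinarith

theorem mprod_le (s : Multiset Om) (f g : Om → ℝ) (h0 : ∀ a ∈ s, 0 ≤ f a)
    (h1 : ∀ a ∈ s, f a ≤ g a) : (s.map f).prod ≤ (s.map g).prod := by
  induction s using Multiset.induction_on with
  | empty => simp
  | cons a s ih =>
    rw [Multiset.map_cons, Multiset.prod_cons, Multiset.map_cons, Multiset.prod_cons]
    have h2 := ih (fun b hb => h0 b (Multiset.mem_cons_of_mem hb))
      (fun b hb => h1 b (Multiset.mem_cons_of_mem hb))
    have h3 := h0 a (Multiset.mem_cons_self a s)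
    have h4 := h1 a (Multiset.mem_cons_self a s)
    have h5 : 0 ≤ (s.map f).prod := by
      apply Multiset.prod_nonneg
      intro x hx
      obtain ⟨b, hb, rfl⟩ := Multiset.mem_map.1 hx
      exact h0 b (Multiset.mem_cons_of_mem hb)
    exact mul_le_mul h4 h2 h5 (h3.trans h4)

open Classical in
theorem deriv_prod (n : ℕ) (a : Om) (ha : a ∈ (TO n).roots) :
    (1 / 9 : ℝ) ^ n ≤ (((TO n).roots.erase a).map (fun b => ‖a - b‖)).prod := by
  have h1 := (TO_splits n).eval_root_derivative (TO_monic n) ha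
  obtain ⟨ξ, h, rfl⟩ := (mem_TO_roots n a).1 ha
  have h2 := deriv_T n ξ h
  rw [TO_deriv_eval] at h1
  rw [h1, norm_mprod, Multiset.map_map] at h2
  exact h2

theorem separation (n : ℕ) (a b : Om) (ha : a ∈ (TO n).roots) (hb : b ∈ (TO n).roots)
    (hab : a ≠ b) : (1 / 9 : ℝ) ^ n ≤ ‖a - b‖ := by
  classical
  have h1 := deriv_prod n a ha
  have hb' : b ∈ (TO n).roots.erase a := (Multiset.mem_erase_of_ne hab.symm).2 hb
  obtain ⟨s, hs⟩ := Multiset.exists_cons_of_mem hb'
  rw [hs, Multiset.map_cons, Multiset.prod_cons] at h1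
  have h2 : (s.map (fun b => ‖a - b‖)).prod ≤ 1 := by
    apply mprod_le_one
    · intro c _; exact norm_nonneg _
    · intro c hc
      have hc' : c ∈ (TO n).roots := by
        have : c ∈ (TO n).roots.erase a := by rw [hs]; exact Multiset.mem_cons_of_mem hc
        exact Multiset.mem_of_mem_erase this
      have := IsUltrametricDist.norm_add_le_max a (-c)
      rw [norm_neg, ← sub_eq_add_neg] at this
      exact this.trans (max_le (root_norm_lt n a ha).le (root_norm_lt n c hc').le)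
  calc (1 / 9 : ℝ) ^ n ≤ ‖a - b‖ * (s.map (fun b => ‖a - b‖)).prod := h1
    _ ≤ ‖a - b‖ * 1 := by gcongr
    _ = ‖a - b‖ := mul_one _

theorem nearest (n : ℕ) (b : Om) : ∃ a ∈ (TO n).roots,
    (1 / 9 : ℝ) ^ n * ‖b - a‖ ≤ ‖(TO n).eval b‖ := by
  classical
  have hne : ((TO n).roots.toFinset).Nonempty := by
    refine ⟨lam (zeta n), ?_⟩
    rw [Multiset.mem_toFinset]
    exact (mem_TO_roots n _).2 ⟨_, zeta_spec n, rfl⟩
  obtain ⟨a, ha, hmin⟩ := Finset.exists_min_image _ (fun a => ‖b - a‖) hne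
  rw [Multiset.mem_toFinset] at ha
  refine ⟨a, ha, ?_⟩
  have h1 := (TO_splits n).eval_eq_prod_roots_of_monic (TO_monic n) b
  rw [h1, norm_mprod, Multiset.map_map]
  have h2 : (TO n).roots = a ::ₘ (TO n).roots.erase a := (Multiset.cons_erase ha).symm
  rw [h2, Multiset.map_cons, Multiset.prod_cons]
  have h3 := deriv_prod n a ha
  have h4 : (((TO n).roots.erase a).map (fun c => ‖a - c‖)).prod ≤
      (((TO n).roots.erase a).map ((fun x => ‖x‖) ∘ fun x => b - x)).prod := by
    apply mprod_le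
    · intro c _; exact norm_nonneg _
    · intro c hc
      have hc' : c ∈ (TO n).roots := Multiset.mem_of_mem_erase hc
      have h5 := hmin c (Multiset.mem_toFinset.2 hc')
      have h6 : a - c = (b - c) + -(b - a) := by ring
      rw [h6]
      refine (IsUltrametricDist.norm_add_le_max _ _).trans ?_
      rw [norm_neg]
      exact max_le le_rfl h5
  calc (1 / 9 : ℝ) ^ n * ‖b - a‖ = ‖b - a‖ * (1 / 9 : ℝ) ^ n := mul_comm _ _
    _ ≤ _ := by
      apply mul_le_mul_of_nonneg_left (h3.trans h4) (norm_nonneg _)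

theorem krasner_T (n : ℕ) (a : ℕ → Q3)
    (ha : ∀ k ≤ 3 ^ n, ‖a k - ((T n).coeff k : Q3)‖ ≤ (1 / 3 : ℝ) ^ (4 * n + 2))
    (β : Om) (hβ : ∑ k ∈ Finset.range (3 ^ n + 1), algebraMap Q3 Om (a k) * β ^ k = 0) :
    β ∈ Ln n ∧ ‖β‖ ^ (3 ^ n) = 1 / 3 := by
  have hε : (1 / 3 : ℝ) ^ (4 * n + 2) < 1 := pow_lt_one₀ (by norm_num) (by norm_num) (by omega)
  have hcoeff : ∀ z : ℤ, ‖(z : Q3)‖ ≤ 1 := fun z => Padic.norm_int_le_one z
  have hak : ∀ k ≤ 3 ^ n, ‖a k‖ ≤ 1 := by
    intro k hk
    have h1 := IsUltrametricDist.norm_add_le_max (a k - ((T n).coeff k : Q3)) ((T n).coeff k : Q3)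
    rw [sub_add_cancel] at h1
    exact h1.trans (max_le ((ha k hk).trans hε.le) (hcoeff _))
  have hlead : ‖a (3 ^ n)‖ = 1 := by
    have h1 := ha _ le_rfl
    have h2 : (T n).coeff (3 ^ n) = 1 := by
      have := (T_monic n).coeff_natDegree
      rwa [T_natDegree] at this
    rw [h2] at h1
    push_cast at h1
    have h3 : ‖a (3 ^ n) - 1‖ < 1 := h1.trans_lt hε
    have h4 := IsUltrametricDist.norm_add_eq_max_of_norm_ne_norm (x := a (3 ^ n) - 1) (y := 1)
      (by rw [norm_one]; exact h3.ne)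
    rw [sub_add_cancel, norm_one, max_eq_right h3.le] at h4
    exact h4
  have hnormA : ∀ x : Q3, ‖algebraMap Q3 Om x‖ = ‖x‖ := fun x => PadicAlgCl.norm_extends 3 x
  -- β is integral
  have hβ1 : ‖β‖ ≤ 1 := by
    by_contra hgt
    push Not at hgt
    rw [Finset.sum_range_succ] at hβ
    have h1 : ‖∑ k ∈ Finset.range (3 ^ n), algebraMap Q3 Om (a k) * β ^ k‖ < ‖β‖ ^ 3 ^ n := by
      obtain ⟨i, hi1, hi2⟩ := IsUltrametricDist.exists_norm_finsetSum_le (Finset.range (3 ^ n))
        (fun k => algebraMap Q3 Om (a k) * β ^ k)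
      have hne : (Finset.range (3 ^ n)).Nonempty := Finset.nonempty_range_iff.2 (by positivity)
      have hi := Finset.mem_range.1 (hi1 hne)
      refine hi2.trans_lt ?_
      rw [norm_mul, hnormA, norm_pow]
      calc ‖a i‖ * ‖β‖ ^ i ≤ 1 * ‖β‖ ^ i := by
            apply mul_le_mul_of_nonneg_right (hak i hi.le); positivity
        _ < ‖β‖ ^ 3 ^ n := by rw [one_mul]; exact pow_lt_pow_right₀ hgt hi
    have h2 : ‖algebraMap Q3 Om (a (3 ^ n)) * β ^ 3 ^ n‖ = ‖β‖ ^ 3 ^ n := by
      rw [norm_mul, hnormA, hlead, norm_pow, one_mul]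
    rw [eq_neg_of_add_eq_zero_left hβ, norm_neg, h2] at h1
    exact lt_irrefl _ h1
  -- T n at β is small
  have hTβ : ‖(TO n).eval β‖ ≤ (1 / 3 : ℝ) ^ (4 * n + 2) := by
    have h1 : (TO n).eval β = ∑ k ∈ Finset.range (3 ^ n + 1),
        algebraMap Q3 Om (((T n).coeff k : Q3) - a k) * β ^ k := by
      have h2 : (TO n).eval β = ∑ k ∈ Finset.range (3 ^ n + 1),
          algebraMap Q3 Om ((T n).coeff k : Q3) * β ^ k := by
        rw [TO_eval, aeval_eq_sum_range, T_natDegree]
        apply Finset.sum_congr rfl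
        intro k _
        rw [map_intCast, zsmul_eq_mul]
      rw [h2, ← sub_zero (∑ k ∈ Finset.range (3 ^ n + 1),
          algebraMap Q3 Om ((T n).coeff k : Q3) * β ^ k), ← hβ, ← Finset.sum_sub_distrib]
      apply Finset.sum_congr rfl
      intro k _
      rw [map_sub]; ring
    rw [h1]
    apply IsUltrametricDist.norm_sum_le_of_forall_le_of_nonneg (by positivity)
    intro k hk
    rw [Finset.mem_range] at hk
    rw [norm_mul, hnormA, norm_sub_rev, norm_pow]
    calc ‖a k - ((T n).coeff k : Q3)‖ * ‖β‖ ^ k ≤ (1 / 3 : ℝ) ^ (4 * n + 2) * 1 := by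
          apply mul_le_mul (ha k (by omega)) (pow_le_one₀ (norm_nonneg _) hβ1) (by positivity)
            (by positivity)
      _ = _ := mul_one _
  obtain ⟨α, hα, hnear⟩ := nearest n β
  have hdist : ‖β - α‖ ≤ (1 / 3 : ℝ) ^ (2 * n + 2) := by
    have h1 : (1 / 9 : ℝ) ^ n * ‖β - α‖ ≤ (1 / 9 : ℝ) ^ n * (1 / 3 : ℝ) ^ (2 * n + 2) := by
      refine (hnear.trans hTβ).trans (le_of_eq ?_)
      have : (1 / 9 : ℝ) = (1 / 3) ^ 2 := by norm_num
      rw [this, ← pow_mul, ← pow_add]
      congr 1; ring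
    exact le_of_mul_le_mul_left h1 (by positivity)
  have hdist2 : ‖β - α‖ < (1 / 9 : ℝ) ^ n := by
    refine hdist.trans_lt ?_
    have : (1 / 9 : ℝ) = (1 / 3) ^ 2 := by norm_num
    rw [this, ← pow_mul]
    exact pow_lt_pow_right_of_lt_one₀ (by norm_num) (by norm_num) (by omega)
  have hnormeq : ‖β‖ = ‖α‖ := by
    have h1 : ‖β - α‖ < ‖α‖ := by
      refine hdist.trans_lt (lt_of_lt_of_le ?_ (root_norm_ge n α hα))
      calc (1 / 3 : ℝ) ^ (2 * n + 2) < (1 / 3) ^ 1 :=
            pow_lt_pow_right_of_lt_one₀ (by norm_num) (by norm_num) (by omega)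
        _ = 1 / 3 := pow_one _
    have := norm_add_eq_of_lt h1
    rw [sub_add_cancel] at this
    exact this
  obtain ⟨ξ, hξ, hαξ⟩ := (mem_TO_roots n α).1 hα
  have hαn : ‖α‖ ^ 3 ^ n = 1 / 3 := by rw [hαξ]; exact norm_lam n ξ hξ
  refine ⟨?_, by rw [hnormeq]; exact hαn⟩
  -- Krasner
  have hαL : α ∈ Ln n := by rw [hαξ]; exact lam_mem_Ln n ξ hξ.pow_eq_one
  have hαT : aeval α ((T n).map (algebraMap ℤ Q3)) = 0 := by
    rw [aeval_map_algebraMap, ← TO_eval]
    exact (mem_roots'.1 hα).2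
  have hK : α ∈ Q3⟮β⟯ := by
    apply IsKrasner.krasner (K := Q3) (L := Om)
    · exact (minpoly.irreducible (Algebra.IsIntegral.isIntegral α)).separable
    · exact IsAlgClosed.splits _
    · exact Algebra.IsIntegral.isIntegral β
    · intro α' hconj hne
      have hα'root : α' ∈ (TO n).roots := by
        rw [mem_roots (TO_monic n).ne_zero, IsRoot, TO_eval]
        have h1 : aeval α' (minpoly Q3 α) = 0 := hconj.aeval_eq_zero
        have h2 : minpoly Q3 α ∣ (T n).map (algebraMap ℤ Q3) := minpoly.dvd _ _ hαT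
        obtain ⟨q, hq⟩ := h2
        rw [← aeval_map_algebraMap Q3, hq, map_mul, h1, zero_mul]
      have h3 := separation n α α' hα hα'root hne
      rw [norm_sub_rev]
      exact hdist2.trans_le h3
  have hle : Q3⟮α⟯ ≤ Q3⟮β⟯ := adjoin_simple_le_iff.2 hK
  have hint : IsIntegral Q3 β := Algebra.IsIntegral.isIntegral β
  have hintα : IsIntegral Q3 α := Algebra.IsIntegral.isIntegral α
  have : FiniteDimensional Q3 Q3⟮β⟯ := adjoin.finiteDimensional hint
  have hfr : Module.finrank Q3 Q3⟮β⟯ ≤ Module.finrank Q3 Q3⟮α⟯ := by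
    rw [adjoin.finrank hint, adjoin.finrank hintα]
    refine le_trans ?_ (degree_of_norm n α (Or.inl hαn))
    set p : Q3[X] := ∑ k ∈ Finset.range (3 ^ n + 1), C (a k) * X ^ k with hp
    have hpβ : aeval β p = 0 := by
      rw [hp, map_sum, ← hβ]
      apply Finset.sum_congr rfl
      intro k _
      rw [map_mul, aeval_C, map_pow, aeval_X]
    have hpd : p.natDegree ≤ 3 ^ n := by
      rw [hp]
      apply natDegree_sum_le_of_forall_le
      intro k hk
      rw [Finset.mem_range] at hk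
      exact (natDegree_C_mul_X_pow_le _ _).trans (by omega)
    have hp0 : p ≠ 0 := by
      intro h
      have h1 : p.coeff (3 ^ n) = a (3 ^ n) := by
        rw [hp]
        simp only [finsetSum_coeff, coeff_C_mul, coeff_X_pow, mul_ite, mul_one, mul_zero]
        rw [Finset.sum_ite_eq]
        simp
      rw [h, coeff_zero] at h1
      rw [← h1, norm_zero] at hlead
      exact zero_ne_one hlead
    exact (natDegree_le_of_dvd (minpoly.dvd _ _ hpβ) hp0).trans hpd
  have heq : Q3⟮α⟯ = Q3⟮β⟯ := eq_of_le_of_finrank_le hle hfr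
  have h1 : Q3⟮β⟯ ≤ Ln n := by rw [← heq]; exact adjoin_simple_le_iff.2 hαL
  exact h1 (mem_adjoin_simple_self _ _)

end

end Pool.Agent.H319R3.Bogo
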