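import Mathlib

set_option autoImplicit false

open Polynomial Complex ComplexConjugate

namespace Pool.Agent.H319R3.Bogo

noncomputable section

/-- self-reciprocal polynomials with dominant end coefficients have all roots on the circle -/
theorem circle_roots_aux (e : ℕ) (a : ℕ → ℂ)
    (hsym : ∀ k ≤ 2 * e + 1, a (2 * e + 1 - k) = conj (a k))
    (hdom : ∑ k ∈ Finset.Ioc 0 e, ‖a k‖ < ‖a 0‖) (x : ℂ) (hx1 : ‖x‖ < 1) :
    ∑ k ∈ Finset.range (2 * e + 1 + 1), a k * x ^ k ≠ 0 := by
  set G : ℂ → ℂ := fun x => ∑ k ∈ Finset.range (e + 1), a k * x ^ k with hG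
  set F : ℂ → ℂ := fun x => ∑ j ∈ Finset.range (e + 1), a (e + 1 + j) * x ^ j with hF
  have hGpos : ∀ z : ℂ, ‖z‖ ≤ 1 → G z ≠ 0 := by
    intro z hz h0
    have h1 : G z = a 0 + ∑ k ∈ Finset.Ioc 0 e, a k * z ^ k := by
      rw [hG]
      simp only
      rw [Finset.range_eq_Ico, Finset.sum_eq_sum_Ico_succ_bot (by omega)]
      simp only [pow_zero, mul_one, zero_add]
      congr 1
    rw [h0] at h1
    have h2 : ‖a 0‖ ≤ ∑ k ∈ Finset.Ioc 0 e, ‖a k‖ := by
      have h3 : a 0 = -∑ k ∈ Finset.Ioc 0 e, a k * z ^ k := by linear_combination -h1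
      rw [h3, norm_neg]
      refine (norm_sum_le _ _).trans (Finset.sum_le_sum ?_)
      intro k _
      rw [norm_mul, norm_pow]
      calc ‖a k‖ * ‖z‖ ^ k ≤ ‖a k‖ * 1 := by
            apply mul_le_mul_of_nonneg_left (pow_le_one₀ (norm_nonneg _) hz) (norm_nonneg _)
        _ = ‖a k‖ := mul_one _
    linarith
  have hcirc : ∀ z : ℂ, ‖z‖ = 1 → ‖F z‖ = ‖G z‖ := by
    intro z hz
    have hz0 : z ≠ 0 := by rintro rfl; rw [norm_zero] at hz; norm_num at hz
    have hconj : conj z = z⁻¹ := by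
      have h1 : z * conj z = 1 := by
        rw [Complex.mul_conj, Complex.normSq_eq_norm_sq, hz]; norm_num
      exact eq_inv_of_mul_eq_one_right h1
    have h1 : F z = z ^ e * conj (G z) := by
      rw [hG, hF]
      simp only
      rw [map_sum, Finset.mul_sum, ← Finset.sum_range_reflect]
      apply Finset.sum_congr rfl
      intro k hk
      rw [Finset.mem_range] at hk
      have h2 := hsym k (by omega)
      have h3 : e + 1 + (e + 1 - 1 - k) = 2 * e + 1 - k := by omega
      rw [h3, h2, map_mul, map_pow, hconj]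
      have h4 : z ^ e = z ^ (e + 1 - 1 - k) * z ^ k := by rw [← pow_add]; congr 1; omega
      rw [h4, inv_pow]
      field_simp
    rw [h1, norm_mul, norm_pow, hz, one_pow, one_mul, RCLike.norm_conj]
  have hFG : ‖F x / G x‖ ≤ 1 := by
    have hcF : Differentiable ℂ F := by rw [hF]; fun_prop
    have hcG : Differentiable ℂ G := by rw [hG]; fun_prop
    apply Complex.norm_le_of_forall_mem_frontier_norm_le (U := Metric.ball (0 : ℂ) 1)
      (f := fun z => F z / G z) Metric.isBounded_ball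
    · apply DifferentiableOn.diffContOnCl
      rw [closure_ball (0 : ℂ) one_ne_zero]
      intro z hz
      rw [Metric.mem_closedBall, dist_zero_right] at hz
      exact (hcF z).differentiableWithinAt.div (hcG z).differentiableWithinAt (hGpos z hz)
    · intro z hz
      rw [frontier_ball (0 : ℂ) one_ne_zero, mem_sphere_zero_iff_norm] at hz
      rw [norm_div, hcirc z hz, div_self]
      exact norm_ne_zero_iff.2 (hGpos z hz.le)
    · rw [closure_ball (0 : ℂ) one_ne_zero, Metric.mem_closedBall, dist_zero_right]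
      exact hx1.le
  have hsplit : ∑ k ∈ Finset.range (2 * e + 1 + 1), a k * x ^ k = G x + x ^ (e + 1) * F x := by
    have h1 : 2 * e + 1 + 1 = (e + 1) + (e + 1) := by ring
    rw [h1, Finset.sum_range_add, hG, hF]
    simp only
    rw [Finset.mul_sum]
    congr 1
    apply Finset.sum_congr rfl
    intro j _
    rw [pow_add]; ring
  rw [hsplit]
  intro h0
  have h1 : ‖G x‖ = ‖x‖ ^ (e + 1) * ‖F x‖ := by
    rw [← norm_pow, ← norm_mul, eq_neg_of_add_eq_zero_left h0, norm_neg]
  have h2 : 0 < ‖G x‖ := norm_pos_iff.2 (hGpos x hx1.le)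
  have h3 : ‖F x‖ ≤ ‖G x‖ := by
    rw [norm_div, div_le_one h2] at hFG; exact hFG
  have h4 : ‖x‖ ^ (e + 1) < 1 := pow_lt_one₀ (norm_nonneg _) hx1 (by omega)
  have h5 : ‖x‖ ^ (e + 1) * ‖F x‖ ≤ ‖x‖ ^ (e + 1) * ‖G x‖ := by gcongr
  have h6 : ‖x‖ ^ (e + 1) * ‖G x‖ < 1 * ‖G x‖ := mul_lt_mul_of_pos_right h4 h2
  linarith

theorem circle_roots (e : ℕ) (a : ℕ → ℂ)
    (hsym : ∀ k ≤ 2 * e + 1, a (2 * e + 1 - k) = conj (a k))
    (hdom : ∑ k ∈ Finset.Ioc 0 e, ‖a k‖ < ‖a 0‖) (x : ℂ)
    (hx : ∑ k ∈ Finset.range (2 * e + 1 + 1), a k * x ^ k = 0) : ‖x‖ = 1 := by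
  rcases lt_trichotomy ‖x‖ 1 with h | h | h
  · exact absurd hx (circle_roots_aux e a hsym hdom x h)
  · exact h
  · exfalso
    have hx0 : x ≠ 0 := by rintro rfl; rw [norm_zero] at h; linarith
    have hy : ‖(conj x)⁻¹‖ < 1 := by
      rw [norm_inv, RCLike.norm_conj]; exact inv_lt_one_of_one_lt₀ h
    apply circle_roots_aux e a hsym hdom _ hy
    have h1 : conj (∑ k ∈ Finset.range (2 * e + 1 + 1), a k * ((conj x)⁻¹) ^ k) =
        (x ^ (2 * e + 1))⁻¹ * ∑ k ∈ Finset.range (2 * e + 1 + 1), a k * x ^ k := by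
      rw [map_sum, Finset.mul_sum, ← Finset.sum_range_reflect]
      apply Finset.sum_congr rfl
      intro k hk
      rw [Finset.mem_range] at hk
      have h2 := hsym k (by omega)
      have h3 : 2 * e + 1 + 1 - 1 - k = 2 * e + 1 - k := by omega
      rw [h3, map_mul, map_pow, h2, map_inv₀, Complex.conj_conj, Complex.conj_conj]
      have h4 : x ^ (2 * e + 1) = x ^ (2 * e + 1 - k) * x ^ k := by rw [← pow_add]; congr 1; omega
      rw [h4, inv_pow]
      field_simp
    rw [hx, mul_zero] at h1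
    have := congrArg conj h1
    rwa [Complex.conj_conj, map_zero] at this

end

end Pool.Agent.H319R3.Bogo
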