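import Mathlib

set_option autoImplicit false

open Polynomial

namespace Pool.Agent.H319R3.Bogo

noncomputable section

abbrev Qb := AlgebraicClosure ℚ

instance qbAlg : Algebra.IsAlgebraic ℚ Qb := by
  have h : @Algebra.IsAlgebraic ℚ Qb _ _ (AlgebraicClosure.instAlgebra ℚ) :=
    AlgebraicClosure.isAlgebraic ℚ
  have e : (AlgebraicClosure.instAlgebra ℚ : Algebra ℚ Qb) = DivisionRing.toRatAlgebra :=
    Subsingleton.elim _ _
  rw [e] at h
  exact h

instance qbClosure : IsAlgClosure ℚ Qb := ⟨inferInstance, inferInstance⟩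

/-- primitive integer minimal polynomial of x -/
def intMinpoly (x : Qb) : ℤ[X] :=
  (IsLocalization.integerNormalization (nonZeroDivisors ℤ) (minpoly ℚ x)).primPart

/-- the absolute logarithmic Weil height -/
def height (x : Qb) : ℝ :=
  Real.log ((intMinpoly x).map (Int.castRingHom ℂ)).mahlerMeasure / (minpoly ℚ x).natDegree

theorem qb_int (x : Qb) : IsIntegral ℚ x := Algebra.IsIntegral.isIntegral x

theorem intMinpoly_prim (x : Qb) : (intMinpoly x).IsPrimitive := isPrimitive_primPart _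

theorem intMinpoly_map (x : Qb) : ∃ q : ℚ, q ≠ 0 ∧
    (intMinpoly x).map (algebraMap ℤ ℚ) = C q * minpoly ℚ x := by
  set g := IsLocalization.integerNormalization (nonZeroDivisors ℤ) (minpoly ℚ x) with hg
  obtain ⟨b, hb, hb2⟩ := IsLocalization.integerNormalization_spec (nonZeroDivisors ℤ) (minpoly ℚ x)
  have hb0 : b ≠ 0 := nonZeroDivisors.ne_zero hb
  have hg0 : g ≠ 0 := by
    intro h
    rw [← hg, h, Polynomial.map_zero] at hb2
    have := minpoly.ne_zero (qb_int x)
    rw [eq_comm, smul_eq_zero] at hb2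
    tauto
  have h1 := g.eq_C_content_mul_primPart
  have hc : g.content ≠ 0 := by rw [Ne, content_eq_zero_iff]; exact hg0
  refine ⟨(b : ℚ) / (g.content : ℚ), ?_, ?_⟩
  · have : (g.content : ℚ) ≠ 0 := by exact_mod_cast hc
    have : (b : ℚ) ≠ 0 := by exact_mod_cast hb0
    positivity
  · have h2 : C (g.content : ℚ) * (intMinpoly x).map (algebraMap ℤ ℚ) = C (b : ℚ) * minpoly ℚ x := by
      have h3 : g.map (algebraMap ℤ ℚ) = C (g.content : ℚ) * (intMinpoly x).map (algebraMap ℤ ℚ) := by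
        conv_lhs => rw [h1]
        rw [Polynomial.map_mul, map_C]
        rfl
      rw [← h3, hb2, ← Int.cast_smul_eq_zsmul ℚ, smul_eq_C_mul]
    have h4 : (g.content : ℚ) ≠ 0 := by exact_mod_cast hc
    calc (intMinpoly x).map (algebraMap ℤ ℚ) = C (g.content : ℚ)⁻¹ *
          (C (g.content : ℚ) * (intMinpoly x).map (algebraMap ℤ ℚ)) := by
            rw [← mul_assoc, ← C_mul, inv_mul_cancel₀ h4, C_1, one_mul]
      _ = _ := by rw [h2, ← mul_assoc, ← C_mul]; congr 2; field_simp

theorem intMinpoly_natDegree (x : Qb) : (intMinpoly x).natDegree = (minpoly ℚ x).natDegree := by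
  obtain ⟨q, hq, h⟩ := intMinpoly_map x
  have h1 : ((intMinpoly x).map (algebraMap ℤ ℚ)).natDegree = (intMinpoly x).natDegree :=
    natDegree_map_eq_of_injective (algebraMap ℤ ℚ).injective_int _
  rw [← h1, h, natDegree_C_mul hq]

theorem intMinpoly_ne_zero (x : Qb) : intMinpoly x ≠ 0 := (intMinpoly_prim x).ne_zero

theorem intMinpoly_aeval (x : Qb) : aeval x (intMinpoly x) = 0 := by
  obtain ⟨q, hq, h⟩ := intMinpoly_map x
  have h1 : aeval x ((intMinpoly x).map (algebraMap ℤ ℚ)) = 0 := by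
    rw [h, map_mul, minpoly.aeval, mul_zero]
  rwa [aeval_map_algebraMap] at h1

theorem intMinpoly_dvd (x : Qb) (W : ℤ[X]) (hW : aeval x W = 0) : intMinpoly x ∣ W := by
  rw [Polynomial.IsPrimitive.Int.dvd_iff_map_cast_dvd_map_cast _ _ (intMinpoly_prim x)]
  obtain ⟨q, hq, h⟩ := intMinpoly_map x
  have h0 : (intMinpoly x).map (Int.castRingHom ℚ) = C q * minpoly ℚ x := h
  rw [h0]
  have h1 : minpoly ℚ x ∣ W.map (Int.castRingHom ℚ) := by
    apply minpoly.dvd
    have : aeval x (W.map (algebraMap ℤ ℚ)) = 0 := by rw [aeval_map_algebraMap, hW]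
    exact this
  have hu : IsUnit (C q : ℚ[X]) := isUnit_C.2 (isUnit_iff_ne_zero.2 hq)
  exact (hu.mul_left_dvd).2 h1

/-- complex roots of the integer minimal polynomial are embeddings of x -/
theorem root_embedding (x : Qb) (z : ℂ) (hz : z ∈ ((intMinpoly x).map (Int.castRingHom ℂ)).roots) :
    ∃ φ : Qb →ₐ[ℚ] ℂ, φ x = z := by
  have h1 : aeval z (minpoly ℚ x) = 0 := by
    obtain ⟨q, hq, h⟩ := intMinpoly_map x
    have h2 : aeval z (intMinpoly x) = 0 := by
      have := (mem_roots'.1 hz).2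
      rw [IsRoot, eval_map] at this
      exact this
    rw [← aeval_map_algebraMap ℚ, h, map_mul, aeval_C] at h2
    rcases mul_eq_zero.1 h2 with h3 | h3
    · exfalso; apply hq
      simpa using h3
    · exact h3
  obtain ⟨φ, hφ⟩ := IntermediateField.exists_algHom_of_splits_of_aeval (E := Qb) (K := ℂ)
    (F := ℚ) (fun s => ⟨qb_int s, IsAlgClosed.splits _⟩) h1
  exact ⟨φ, hφ⟩

end

end Pool.Agent.H319R3.Bogo
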