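import Pool.Agent.H319R3.BogoF

set_option autoImplicit false

open Polynomial ComplexConjugate

namespace Pool.Agent.H319R3.Bogo

noncomputable section

theorem cprod_norm (s : Multiset ℂ) : ‖s.prod‖ = (s.map fun x => ‖x‖).prod := by
  induction s using Multiset.induction_on with
  | empty => simp
  | cons a s ih => rw [Multiset.prod_cons, norm_mul, ih, Multiset.map_cons, Multiset.prod_cons]

theorem cprod_le (s : Multiset ℂ) (f g : ℂ → ℝ) (h0 : ∀ a ∈ s, 0 ≤ f a)
    (h1 : ∀ a ∈ s, f a ≤ g a) : (s.map f).prod ≤ (s.map g).prod := by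
  induction s using Multiset.induction_on with
  | empty => simp
  | cons a s ih =>
    rw [Multiset.map_cons, Multiset.prod_cons, Multiset.map_cons, Multiset.prod_cons]
    have h2 := ih (fun b hb => h0 b (Multiset.mem_cons_of_mem hb))
      (fun b hb => h1 b (Multiset.mem_cons_of_mem hb))
    have h3 := h0 a (Multiset.mem_cons_self a s)
    have h4 := h1 a (Multiset.mem_cons_self a s)
    have h5 : 0 ≤ (s.map f).prod := by
      apply Multiset.prod_nonneg
      intro x hx
      obtain ⟨b, hb, rfl⟩ := Multiset.mem_map.1 hx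
      exact h0 b (Multiset.mem_cons_of_mem hb)
    exact mul_le_mul h4 h2 h5 (h3.trans h4)

/-- the complex polynomial of x -/
def cP (x : Qb) : ℂ[X] := (intMinpoly x).map (Int.castRingHom ℂ)

theorem cP_splits (x : Qb) : (cP x).Splits := IsAlgClosed.splits _

theorem cP_card (x : Qb) : Multiset.card (cP x).roots = (minpoly ℚ x).natDegree := by
  rw [← intMinpoly_natDegree]
  have h1 : (cP x).natDegree = (intMinpoly x).natDegree :=
    natDegree_map_eq_of_injective (Int.castRingHom ℂ).injective_int _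
  rw [← h1]
  exact (splits_iff_card_roots.1 (cP_splits x))

theorem cP_lead (x : Qb) : (cP x).leadingCoeff = ((intMinpoly x).leadingCoeff : ℂ) :=
  leadingCoeff_map_of_injective (Int.castRingHom ℂ).injective_int _

theorem lead_ge (x : Qb) : 1 ≤ ‖(cP x).leadingCoeff‖ := by
  rw [cP_lead, Complex.norm_intCast]
  have h : (intMinpoly x).leadingCoeff ≠ 0 := leadingCoeff_ne_zero.2 (intMinpoly_ne_zero x)
  have := Int.one_le_abs h
  exact_mod_cast this

theorem eval_norm (x : Qb) (z : ℂ) : ‖(cP x).eval z‖ =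
    ‖(cP x).leadingCoeff‖ * ((cP x).roots.map (fun a => ‖z - a‖)).prod := by
  rw [(cP_splits x).eval_eq_prod_roots z, norm_mul, cprod_norm, Multiset.map_map]
  rfl

theorem eval_int_ge (x : Qb) (z : ℤ) (hz : x ≠ (z : Qb)) : 1 ≤ ‖(cP x).eval (z : ℂ)‖ := by
  have h1 : (cP x).eval (z : ℂ) = (((intMinpoly x).eval z : ℤ) : ℂ) := by
    unfold cP
    rw [eval_intCast_map]
    simp
  have h2 : (intMinpoly x).eval z ≠ 0 := by
    intro h
    rw [h, Int.cast_zero] at h1
    have h3 : (z : ℂ) ∈ (cP x).roots := by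
      rw [mem_roots']
      refine ⟨?_, h1⟩
      intro h4
      have := lead_ge x
      rw [h4] at this
      simp at this
      linarith
    obtain ⟨φ, hφ⟩ := root_embedding x z h3
    apply hz
    apply φ.toRingHom.injective
    rw [AlgHom.toRingHom_eq_coe, RingHom.coe_coe, hφ, map_intCast]
  rw [h1, Complex.norm_intCast]
  have := Int.one_le_abs h2
  exact_mod_cast this

theorem real_ineq (r : ℝ) : 2 * |0 - r| ^ 2 * |1 - r| ^ 2 * |-1 - r| ^ 2 ≤ (max 1 |r|) ^ 8 := by
  rw [sq_abs, sq_abs, sq_abs]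
  rcases le_total |r| 1 with h | h
  · rw [max_eq_left h, one_pow]
    have h1 : r ^ 2 ≤ 1 := by rw [← sq_abs]; exact pow_le_one₀ (abs_nonneg _) h
    set t := r ^ 2 with ht
    have ht0 : 0 ≤ t := sq_nonneg r
    have h2 : 2 * (0 - r) ^ 2 * (1 - r) ^ 2 * (-1 - r) ^ 2 = 2 * t * (1 - t) ^ 2 := by
      rw [ht]; ring
    rw [h2]
    have h3 : t * (1 - t) ≤ 1 / 4 := by nlinarith [sq_nonneg (t - 1 / 2)]
    have h4 : 0 ≤ 1 - t := by linarith
    nlinarith [mul_nonneg ht0 h4]
  · rw [max_eq_right h]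
    have h1 : 1 ≤ r ^ 2 := by rw [← sq_abs]; exact one_le_pow₀ h
    have h3 : |r| ^ 8 = (r ^ 2) ^ 4 := by
      rw [← sq_abs r]; ring
    rw [h3]
    set t := r ^ 2 with ht
    have h2 : 2 * (0 - r) ^ 2 * (1 - r) ^ 2 * (-1 - r) ^ 2 = 2 * t * (t - 1) ^ 2 := by
      rw [ht]; ring
    rw [h2]
    have h5 : 0 ≤ t ^ 3 - 2 * (t - 1) ^ 2 := by nlinarith [sq_nonneg (t - 1), mul_nonneg (by linarith : (0:ℝ) ≤ t - 1) (sq_nonneg (t - 1))]
    nlinarith

theorem mahler_eq (x : Qb) : (cP x).mahlerMeasure = ‖(cP x).leadingCoeff‖ *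
    ((cP x).roots.map (fun a => max 1 ‖a‖)).prod :=
  mahlerMeasure_eq_leadingCoeff_mul_prod_roots _

theorem height_lower (x : Qb) (h0 : x ≠ 0) (h1 : x ≠ 1) (h2 : x ≠ -1)
    (hreal : ∀ φ : Qb →ₐ[ℚ] ℂ, conj (φ x) = φ x) : Real.log 2 / 8 ≤ height x := by
  set D := (minpoly ℚ x).natDegree with hD
  have hDpos : 0 < D := minpoly.natDegree_pos (qb_int x)
  set c := ‖(cP x).leadingCoeff‖ with hc
  have hc1 : 1 ≤ c := lead_ge x
  set R := (cP x).roots with hR
  have e0 : 1 ≤ c * (R.map (fun a => ‖(0 : ℂ) - a‖)).prod := by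
    have := eval_int_ge x 0 (by simpa using h0)
    rw [eval_norm] at this
    simpa using this
  have e1 : 1 ≤ c * (R.map (fun a => ‖(1 : ℂ) - a‖)).prod := by
    have := eval_int_ge x 1 (by simpa using h1)
    rw [eval_norm] at this
    simpa using this
  have e2 : 1 ≤ c * (R.map (fun a => ‖(-1 : ℂ) - a‖)).prod := by
    have := eval_int_ge x (-1) (by simpa using h2)
    rw [eval_norm] at this
    simpa using this
  set A0 := (R.map (fun a => ‖(0 : ℂ) - a‖)).prod with hA0
  set A1 := (R.map (fun a => ‖(1 : ℂ) - a‖)).prod with hA1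
  set A2 := (R.map (fun a => ‖(-1 : ℂ) - a‖)).prod with hA2
  have hM : (cP x).mahlerMeasure = c * (R.map (fun a => max 1 ‖a‖)).prod := mahler_eq x
  set B := (R.map (fun a => max 1 ‖a‖)).prod with hB
  have key : 2 ^ D * A0 ^ 2 * A1 ^ 2 * A2 ^ 2 ≤ B ^ 8 := by
    have h3 : (R.map (fun a => 2 * ‖(0 : ℂ) - a‖ ^ 2 * ‖(1 : ℂ) - a‖ ^ 2 * ‖(-1 : ℂ) - a‖ ^ 2)).prod
        ≤ (R.map (fun a => (max 1 ‖a‖) ^ 8)).prod := by
      apply cprod_le
      · intro a _; positivity
      · intro a ha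
        obtain ⟨φ, hφ⟩ := root_embedding x a ha
        have h4 := hreal φ
        rw [hφ] at h4
        obtain ⟨r, hr⟩ := Complex.conj_eq_iff_real.1 h4
        rw [hr]
        have e3 : ‖(0 : ℂ) - (r : ℂ)‖ = |0 - r| := by
          rw [← Complex.ofReal_zero, ← Complex.ofReal_sub, Complex.norm_real, Real.norm_eq_abs]
        have e4 : ‖(1 : ℂ) - (r : ℂ)‖ = |1 - r| := by
          rw [← Complex.ofReal_one, ← Complex.ofReal_sub, Complex.norm_real, Real.norm_eq_abs]
        have e5 : ‖(-1 : ℂ) - (r : ℂ)‖ = |-1 - r| := by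
          rw [← Complex.ofReal_one, ← Complex.ofReal_neg, ← Complex.ofReal_sub, Complex.norm_real,
            Real.norm_eq_abs]
        rw [e3, e4, e5, Complex.norm_real, Real.norm_eq_abs]
        exact real_ineq r
    have h5 : (R.map (fun a => 2 * ‖(0 : ℂ) - a‖ ^ 2 * ‖(1 : ℂ) - a‖ ^ 2 * ‖(-1 : ℂ) - a‖ ^ 2)).prod
        = 2 ^ D * A0 ^ 2 * A1 ^ 2 * A2 ^ 2 := by
      rw [Multiset.prod_map_mul, Multiset.prod_map_mul, Multiset.prod_map_mul,
        Multiset.prod_map_pow, Multiset.prod_map_pow, Multiset.prod_map_pow]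
      rw [Multiset.map_const', Multiset.prod_replicate, hR, cP_card]
    rw [h5, Multiset.prod_map_pow] at h3
    exact h3
  have hA0n : 0 < A0 := by
    by_contra h; push Not at h; nlinarith
  have hA1n : 0 < A1 := by
    by_contra h; push Not at h; nlinarith
  have hA2n : 0 < A2 := by
    by_contra h; push Not at h; nlinarith
  have hMpow : (2 : ℝ) ^ D ≤ (c * B) ^ 8 := by
    have h6 : 1 ≤ (c * A0) ^ 2 * (c * A1) ^ 2 * (c * A2) ^ 2 := by
      have := one_le_pow₀ e0 (n := 2)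
      have := one_le_pow₀ e1 (n := 2)
      have := one_le_pow₀ e2 (n := 2)
      nlinarith [mul_le_mul ‹1 ≤ (c * A0) ^ 2› ‹1 ≤ (c * A1) ^ 2› zero_le_one (by positivity : 0 ≤ (c * A0) ^ 2)]
    calc (2 : ℝ) ^ D = 2 ^ D * 1 * 1 := by ring
      _ ≤ 2 ^ D * ((c * A0) ^ 2 * (c * A1) ^ 2 * (c * A2) ^ 2) * c ^ 2 := by
          gcongr
          exact one_le_pow₀ hc1
      _ = c ^ 8 * (2 ^ D * A0 ^ 2 * A1 ^ 2 * A2 ^ 2) := by ring
      _ ≤ c ^ 8 * B ^ 8 := by gcongr
      _ = (c * B) ^ 8 := by ring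
  have hlog : (D : ℝ) * Real.log 2 ≤ 8 * Real.log ((cP x).mahlerMeasure) := by
    rw [hM]
    have := Real.log_le_log (by positivity) hMpow
    rw [Real.log_pow, Real.log_pow] at this
    exact_mod_cast this
  unfold height
  change Real.log 2 / 8 ≤ Real.log ((cP x).mahlerMeasure) / D
  rw [le_div_iff₀ (by exact_mod_cast hDpos)]
  linarith

theorem height_upper (x : Qb) (W : ℤ[X]) (hW0 : W ≠ 0) (hW : aeval x W = 0)
    (hroots : ∀ φ : Qb →ₐ[ℚ] ℂ, ‖φ x‖ = 1) (B : ℝ) (hB : |(W.leadingCoeff : ℝ)| ≤ B) :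
    height x ≤ Real.log B / (minpoly ℚ x).natDegree := by
  unfold height
  have hM : (cP x).mahlerMeasure = ‖(cP x).leadingCoeff‖ := by
    rw [mahler_eq x]
    have : (cP x).roots.map (fun a => max 1 ‖a‖) = (cP x).roots.map (fun _ => (1 : ℝ)) := by
      apply Multiset.map_congr rfl
      intro a ha
      obtain ⟨φ, hφ⟩ := root_embedding x a ha
      rw [← hφ, hroots φ, max_self]
    rw [this, Multiset.prod_map_one, mul_one]
  have hle : (cP x).mahlerMeasure ≤ B := by
    refine le_trans ?_ hB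
    rw [hM, cP_lead, Complex.norm_intCast]
    have hd := intMinpoly_dvd x W hW
    have hd2 := Polynomial.leadingCoeff_dvd_leadingCoeff hd
    have h3 : |(intMinpoly x).leadingCoeff| ≤ |W.leadingCoeff| := by
      apply Int.le_of_dvd
      · exact abs_pos.2 (leadingCoeff_ne_zero.2 hW0)
      · exact (abs_dvd_abs _ _).2 hd2
    exact_mod_cast h3
  have hpos : 0 < (cP x).mahlerMeasure := by
    rw [hM]; exact lt_of_lt_of_le one_pos (lead_ge x)
  have := Real.log_le_log hpos hle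
  exact div_le_div_of_nonneg_right this (Nat.cast_nonneg _)

end

end Pool.Agent.H319R3.Bogo
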