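import Pool.Agent.H319R3.BogoD
import Pool.Agent.H319R3.BogoE
import Pool.Agent.H319R3.BogoG

set_option autoImplicit false

open Polynomial ComplexConjugate

namespace Pool.Agent.H319R3.Bogo

noncomputable section

theorem norm_two_pi : ‖(2 : ℤ_[3])‖ = 1 := by
  have h : ‖((2 : ℤ) : ℤ_[3])‖ = 1 := by
    have h1 : ¬ ‖((2 : ℤ) : ℤ_[3])‖ < 1 := by
      rw [PadicInt.norm_int_lt_one_iff_dvd]; norm_num
    exact le_antisymm (PadicInt.norm_le_one _) (not_lt.1 h1)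
  exact_mod_cast h

theorem exists_s3 : ∃ s : ℤ_[3], s ^ 2 = -2 ∧ ‖s‖ = 1 := by
  have h := hensels_lemma (p := 3) (R := ℤ_[3]) (F := X ^ 2 + C 2) (a := 1) (by
    have h1 : aeval (1 : ℤ_[3]) (X ^ 2 + C 2 : ℤ_[3][X]) = 3 := by
      simp; norm_num
    have h2 : aeval (1 : ℤ_[3]) (derivative (X ^ 2 + C 2 : ℤ_[3][X])) = 2 := by
      simp; norm_num
    rw [h1, h2, norm_two_pi]
    have := PadicInt.norm_p (p := 3)
    have h3 : ‖(3 : ℤ_[3])‖ = (3 : ℝ)⁻¹ := by exact_mod_cast this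
    rw [h3]; norm_num)
  obtain ⟨z, hz, -⟩ := h
  have h1 : z ^ 2 = -2 := by
    have : z ^ 2 + 2 = 0 := by simpa using hz
    linear_combination this
  refine ⟨z, h1, ?_⟩
  have h2 : ‖z‖ ^ 2 = 1 := by
    rw [← norm_pow, h1, norm_neg, norm_two_pi]
  exact (pow_eq_one_iff_of_nonneg (norm_nonneg _) (by norm_num)).1 h2

def s3 : ℤ_[3] := exists_s3.choose
theorem s3_sq : s3 ^ 2 = -2 := exists_s3.choose_spec.1
theorem s3_norm : ‖s3‖ = 1 := exists_s3.choose_spec.2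

theorem exists_approx (x : ℤ_[3]) (M : ℕ) : ∃ m : ℕ, m < 3 ^ M ∧ ‖(m : ℤ_[3]) - x‖ ≤ (1 / 3 : ℝ) ^ M := by
  refine ⟨x.appr M, PadicInt.appr_lt x M, ?_⟩
  have h := PadicInt.appr_spec M x
  rw [← PadicInt.norm_le_pow_iff_mem_span_pow] at h
  rw [norm_sub_rev]
  refine h.trans (le_of_eq ?_)
  rw [zpow_neg, zpow_natCast, one_div, inv_pow]
  norm_num

theorem exists_pq (M : ℕ) : ∃ p q : ℕ, p < 3 ^ M ∧ q < 3 ^ M ∧
    ‖(p : ℤ_[3]) + q * s3 - 1‖ ≤ (1 / 3 : ℝ) ^ M ∧ ‖(p : ℤ_[3]) - q * s3‖ ≤ (1 / 3 : ℝ) ^ M := by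
  have hu2 : IsUnit (2 : ℤ_[3]) := PadicInt.isUnit_iff.2 norm_two_pi
  have hus : IsUnit (2 * s3 : ℤ_[3]) := by
    rw [PadicInt.isUnit_iff, norm_mul, norm_two_pi, s3_norm, one_mul]
  obtain ⟨i2, hi2⟩ := hu2.exists_right_inv
  obtain ⟨js, hjs⟩ := hus.exists_right_inv
  have hrel : i2 = js * s3 := by
    have h1 : (2 : ℤ_[3]) * i2 = 2 * (js * s3) := by rw [hi2]; linear_combination -hjs
    exact mul_left_cancel₀ (by norm_num) h1
  obtain ⟨p, hp1, hp2⟩ := exists_approx i2 M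
  obtain ⟨q, hq1, hq2⟩ := exists_approx js M
  have hq3 : ‖((q : ℤ_[3]) - js) * s3‖ ≤ (1 / 3 : ℝ) ^ M := by
    rw [norm_mul, s3_norm, mul_one]; exact hq2
  refine ⟨p, q, hp1, hq1, ?_, ?_⟩
  · have : (p : ℤ_[3]) + q * s3 - 1 = (p - i2) + (q - js) * s3 := by
      linear_combination hi2 - hrel
    rw [this]
    exact (IsUltrametricDist.norm_add_le_max _ _).trans (max_le hp2 hq3)
  · have : (p : ℤ_[3]) - q * s3 = (p - i2) + -((q - js) * s3) := by
      linear_combination hrel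
    rw [this]
    refine (IsUltrametricDist.norm_add_le_max _ _).trans (max_le hp2 ?_)
    rw [norm_neg]; exact hq3

/-- the integer data -/
theorem exists_data (n e : ℕ) (hd : 3 ^ n = 2 * e + 1) : ∃ b c : ℕ → ℤ,
    (∀ k ≤ 2 * e + 1, b (2 * e + 1 - k) = b k ∧ c (2 * e + 1 - k) = -c k) ∧
    (∀ σ : ℂ, σ ^ 2 = -2 → ∑ k ∈ Finset.Ioc 0 e, ‖(b k : ℂ) + c k * σ‖ < ‖(b 0 : ℂ) + c 0 * σ‖) ∧
    (∀ k ≤ 2 * e + 1, ‖((b k : ℤ_[3]) + c k * s3) - ((T n).coeff k : ℤ_[3])‖ ≤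
      (1 / 3 : ℝ) ^ (4 * n + 2)) ∧
    0 < b (2 * e + 1) ∧
    ((b (2 * e + 1) : ℝ) ^ 2 + 2 * (c (2 * e + 1) : ℝ) ^ 2) ≤ (3 : ℝ) ^ (18 * n + 13) := by
  obtain ⟨p, q, hp, hq, h1, h2⟩ := exists_pq (4 * n + 2)
  set N : ℤ := 3 ^ (4 * n + 2) with hN
  have hNpos : 0 < N := by positivity
  set d := 2 * e + 1 with hdd
  have hpN : (p : ℤ) ≤ N := by rw [hN]; exact_mod_cast hp.le
  have hqN : (q : ℤ) ≤ N := by rw [hN]; exact_mod_cast hq.le
  have hp0 : (0 : ℤ) ≤ p := Int.natCast_nonneg p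
  have hq0 : (0 : ℤ) ≤ q := Int.natCast_nonneg q
  set r : ℕ → ℤ := fun k => (T n).coeff k % N with hr
  have hr0 : ∀ k, 0 ≤ r k := fun k => Int.emod_nonneg _ hNpos.ne'
  have hrN : ∀ k, r k ≤ N := fun k => (Int.emod_lt_of_pos _ hNpos).le
  set E : ℤ := 9 * N ^ 2 * d with hE
  have hd1 : (1 : ℤ) ≤ d := by rw [hdd]; push_cast; omega
  refine ⟨fun k => p * (r k + r (d - k)) + if k = 0 ∨ k = d then E else 0,
    fun k => q * (r k - r (d - k)), ?_, ?_, ?_, ?_, ?_⟩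
  · intro k hk
    have h3 : d - (d - k) = k := by omega
    constructor
    · simp only [h3]
      have h4 : (d - k = 0 ∨ d - k = d) ↔ (k = 0 ∨ k = d) := by omega
      rw [if_congr h4 rfl rfl]
      ring
    · simp only [h3]
      ring
  · intro σ hσ
    have hσn : ‖σ‖ ≤ 2 := by
      have h3 : ‖σ‖ ^ 2 = 2 := by rw [← norm_pow, hσ, norm_neg]; norm_num
      nlinarith [norm_nonneg σ]
    have hNR : (0 : ℝ) < (N : ℝ) := by exact_mod_cast hNpos
    have hterm : ∀ k ∈ Finset.Ioc 0 e, ‖(((p : ℤ) * (r k + r (d - k)) +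
        if k = 0 ∨ k = d then E else 0 : ℤ) : ℂ) + (((q : ℤ) * (r k - r (d - k)) : ℤ) : ℂ) * σ‖ ≤
        4 * (N : ℝ) ^ 2 := by
      intro k hk
      rw [Finset.mem_Ioc] at hk
      have h4 : ¬ (k = 0 ∨ k = d) := by omega
      rw [if_neg h4, add_zero]
      refine (norm_add_le _ _).trans ?_
      rw [norm_mul, Complex.norm_intCast, Complex.norm_intCast]
      have h5 : |(((p : ℤ) * (r k + r (d - k)) : ℤ) : ℝ)| ≤ 2 * (N : ℝ) ^ 2 := by
        rw [abs_le]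
        have a1 := hr0 k; have a2 := hr0 (d - k); have a3 := hrN k; have a4 := hrN (d - k)
        have h6 : (p : ℤ) * (r k + r (d - k)) ≤ 2 * N ^ 2 := by nlinarith
        have h7 : 0 ≤ (p : ℤ) * (r k + r (d - k)) := by positivity
        constructor
        · have : (0 : ℝ) ≤ (((p : ℤ) * (r k + r (d - k)) : ℤ) : ℝ) := by exact_mod_cast h7
          nlinarith
        · exact_mod_cast h6
      have h8 : |(((q : ℤ) * (r k - r (d - k)) : ℤ) : ℝ)| ≤ (N : ℝ) ^ 2 := by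
        rw [abs_le]
        have a1 := hr0 k; have a2 := hr0 (d - k); have a3 := hrN k; have a4 := hrN (d - k)
        have h6 : (q : ℤ) * (r k - r (d - k)) ≤ N ^ 2 := by nlinarith
        have h7 : -N ^ 2 ≤ (q : ℤ) * (r k - r (d - k)) := by nlinarith
        constructor
        · exact_mod_cast h7
        · exact_mod_cast h6
      calc _ ≤ 2 * (N : ℝ) ^ 2 + (N : ℝ) ^ 2 * 2 := by gcongr
        _ = 4 * (N : ℝ) ^ 2 := by ring
    have hsum := Finset.sum_le_sum hterm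
    rw [Finset.sum_const, Nat.card_Ioc, Nat.sub_zero, nsmul_eq_mul] at hsum
    refine hsum.trans_lt ?_
    simp only [true_or, if_true, Nat.sub_zero]
    have h9 : ‖(((q : ℤ) * (r 0 - r d) : ℤ) : ℂ) * σ‖ ≤ (N : ℝ) ^ 2 * 2 := by
      rw [norm_mul, Complex.norm_intCast]
      have h8 : |(((q : ℤ) * (r 0 - r d) : ℤ) : ℝ)| ≤ (N : ℝ) ^ 2 := by
        rw [abs_le]
        have a1 := hr0 0; have a2 := hr0 d; have a3 := hrN 0; have a4 := hrN d
        have h6 : (q : ℤ) * (r 0 - r d) ≤ N ^ 2 := by nlinarith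
        have h7 : -N ^ 2 ≤ (q : ℤ) * (r 0 - r d) := by nlinarith
        constructor
        · exact_mod_cast h7
        · exact_mod_cast h6
      gcongr
    have h10 : (9 * (N : ℝ) ^ 2 * d) ≤ ‖(((p : ℤ) * (r 0 + r d) + E : ℤ) : ℂ)‖ := by
      rw [Complex.norm_intCast]
      refine le_trans ?_ (le_abs_self _)
      have a1 := hr0 0; have a2 := hr0 d
      have h7 : 0 ≤ (p : ℤ) * (r 0 + r d) := by positivity
      have : (9 * N ^ 2 * d) ≤ (p : ℤ) * (r 0 + r d) + E := by rw [hE]; linarith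
      exact_mod_cast this
    have h11 := norm_sub_le_norm_add ((((p : ℤ) * (r 0 + r d) + E : ℤ) : ℂ))
      ((((q : ℤ) * (r 0 - r d) : ℤ) : ℂ) * σ)
    have h12 : (d : ℝ) = 2 * e + 1 := by rw [hdd]; push_cast; ring
    have h13 : (0 : ℝ) ≤ e := Nat.cast_nonneg e
    rw [h12] at h10
    nlinarith [sq_nonneg (N : ℝ), mul_nonneg h13 (sq_nonneg (N : ℝ)), pow_pos hNR 2]
  · intro k hk
    have hcoe : ∀ z : ℤ, N ∣ z → ‖(z : ℤ_[3])‖ ≤ (1 / 3 : ℝ) ^ (4 * n + 2) := by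
      intro z hz
      have h3 := (PadicInt.norm_int_le_pow_iff_dvd (p := 3) (k := z) (n := 4 * n + 2)).2
        (by rw [hN] at hz; exact_mod_cast hz)
      refine h3.trans (le_of_eq ?_)
      rw [zpow_neg, zpow_natCast, one_div, inv_pow]
      norm_num
    have hint : ∀ z : ℤ, ‖(z : ℤ_[3])‖ ≤ 1 := fun z => PadicInt.norm_le_one _
    have hE0 : ‖(((if k = 0 ∨ k = d then E else 0 : ℤ)) : ℤ_[3])‖ ≤ (1 / 3 : ℝ) ^ (4 * n + 2) := by
      apply hcoe
      split_ifs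
      · rw [hE]; exact ⟨9 * N * d, by ring⟩
      · exact dvd_zero _
    have hrk : ‖((r k - (T n).coeff k : ℤ) : ℤ_[3])‖ ≤ (1 / 3 : ℝ) ^ (4 * n + 2) := by
      apply hcoe
      have := Int.emod_add_mul_ediv ((T n).coeff k) N
      refine ⟨-((T n).coeff k / N), ?_⟩
      simp only [hr]
      linarith
    have h4 : (((((p : ℤ) * (r k + r (d - k)) + if k = 0 ∨ k = d then E else 0 : ℤ)) : ℤ_[3]) +
        (((q : ℤ) * (r k - r (d - k)) : ℤ) : ℤ_[3]) * s3) - ((T n).coeff k : ℤ_[3]) =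
        ((r k : ℤ_[3]) * ((p : ℤ_[3]) + q * s3 - 1) + (r (d - k) : ℤ_[3]) * ((p : ℤ_[3]) - q * s3)) +
        (((r k - (T n).coeff k : ℤ) : ℤ_[3]) +
        (((if k = 0 ∨ k = d then E else 0 : ℤ)) : ℤ_[3])) := by
      push_cast
      ring
    rw [h4]
    refine (IsUltrametricDist.norm_add_le_max _ _).trans (max_le ?_ ?_)
    · refine (IsUltrametricDist.norm_add_le_max _ _).trans (max_le ?_ ?_)
      · rw [norm_mul]
        calc _ ≤ 1 * (1 / 3 : ℝ) ^ (4 * n + 2) :=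
              mul_le_mul (hint _) h1 (norm_nonneg _) zero_le_one
          _ = _ := one_mul _
      · rw [norm_mul]
        calc _ ≤ 1 * (1 / 3 : ℝ) ^ (4 * n + 2) :=
              mul_le_mul (hint _) h2 (norm_nonneg _) zero_le_one
          _ = _ := one_mul _
    · exact (IsUltrametricDist.norm_add_le_max _ _).trans (max_le hrk hE0)
  · simp only [or_true, if_true, Nat.sub_self]
    have a1 := hr0 0; have a2 := hr0 d
    have h7 : 0 ≤ (p : ℤ) * (r d + r 0) := by positivity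
    have : 0 < E := by rw [hE]; positivity
    linarith
  · simp only [or_true, if_true, Nat.sub_self]
    have a1 := hr0 0; have a2 := hr0 d; have a3 := hrN 0; have a4 := hrN d
    have hb1 : 0 ≤ (p : ℤ) * (r d + r 0) + E := by
      have : 0 < E := by rw [hE]; positivity
      positivity
    have hb2 : (p : ℤ) * (r d + r 0) + E ≤ 11 * N ^ 2 * d := by
      have h6 : (p : ℤ) * (r d + r 0) ≤ 2 * N ^ 2 := by nlinarith
      rw [hE]; nlinarith [sq_nonneg N]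
    have hc1 : -(N ^ 2 * d) ≤ (q : ℤ) * (r d - r 0) := by nlinarith [sq_nonneg N]
    have hc2 : (q : ℤ) * (r d - r 0) ≤ N ^ 2 * d := by nlinarith [sq_nonneg N]
    have hbR : (((p : ℤ) * (r d + r 0) + E : ℤ) : ℝ) ^ 2 ≤ (11 * (N : ℝ) ^ 2 * d) ^ 2 := by
      apply pow_le_pow_left₀ (by exact_mod_cast hb1)
      exact_mod_cast hb2
    have hcR : (((q : ℤ) * (r d - r 0) : ℤ) : ℝ) ^ 2 ≤ ((N : ℝ) ^ 2 * d) ^ 2 := by
      apply sq_le_sq'
      · exact_mod_cast hc1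
      · exact_mod_cast hc2
    have hNval : (N : ℝ) = 3 ^ (4 * n + 2) := by rw [hN]; push_cast; ring
    have hdval : (d : ℝ) = 3 ^ n := by exact_mod_cast hd.symm
    calc _ ≤ (11 * (N : ℝ) ^ 2 * d) ^ 2 + 2 * ((N : ℝ) ^ 2 * d) ^ 2 := by gcongr
      _ = 123 * ((N : ℝ) ^ 4 * d ^ 2) := by ring
      _ ≤ 3 ^ 5 * ((N : ℝ) ^ 4 * d ^ 2) := by
          apply mul_le_mul_of_nonneg_right (by norm_num) (by positivity)
      _ = 3 ^ (18 * n + 13) := by
          rw [hNval, hdval, ← pow_mul, ← pow_mul, ← pow_add, ← pow_add]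
          congr 1; ring

end

end Pool.Agent.H319R3.Bogo
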