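import Pool.Agent.H319R3.BogoH

set_option autoImplicit false

open Polynomial ComplexConjugate IntermediateField

namespace Pool.Agent.H319R3.Bogo

noncomputable section

/-- The Bogomolov property with respect to the multiplicative group. -/
def BogomolovGm (F : IntermediateField ℚ Qb) : Prop :=
  ∃ ε : ℝ, 0 < ε ∧ ∀ x ∈ F, x ≠ 0 → height x < ε → ∃ m : ℕ, 0 < m ∧ x ^ m = 1

/-- The torsion points of the multiplicative group over F. -/
def torsGm (F : IntermediateField ℚ Qb) : Set Qb := {x | x ∈ F ∧ ∃ m : ℕ, 0 < m ∧ x ^ m = 1}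

/-- numbers on which complex conjugation is well defined (totally real or CM) -/
def Sf : IntermediateField ℚ Qb where
  carrier := {x | ∃ y : Qb, ∀ φ : Qb →ₐ[ℚ] ℂ, conj (φ x) = φ y}
  mul_mem' := by
    rintro a b ⟨y, hy⟩ ⟨z, hz⟩
    exact ⟨y * z, fun φ => by rw [map_mul, map_mul, map_mul, hy, hz]⟩
  add_mem' := by
    rintro a b ⟨y, hy⟩ ⟨z, hz⟩
    exact ⟨y + z, fun φ => by rw [map_add, map_add, map_add, hy, hz]⟩
  algebraMap_mem' := by
    intro r
    exact ⟨algebraMap ℚ Qb r, fun φ => by rw [AlgHom.commutes]; simp⟩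
  inv_mem' := by
    rintro a ⟨y, hy⟩
    exact ⟨y⁻¹, fun φ => by rw [map_inv₀, map_inv₀, map_inv₀, hy]⟩

/-- totally real numbers -/
def Tf : IntermediateField ℚ Qb where
  carrier := {x | ∀ φ : Qb →ₐ[ℚ] ℂ, conj (φ x) = φ x}
  mul_mem' := by
    intro a b ha hb φ
    rw [map_mul, map_mul, ha, hb]
  add_mem' := by
    intro a b ha hb φ
    rw [map_add, map_add, ha, hb]
  algebraMap_mem' := by
    intro r φ
    rw [AlgHom.commutes]; simp
  inv_mem' := by
    intro a ha φ
    rw [map_inv₀, map_inv₀, ha]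

/-- numbers all of whose 3-adic embeddings lie in the cyclotomic tower -/
def Lf : IntermediateField ℚ Qb where
  carrier := {x | ∀ ψ : Qb →ₐ[ℚ] Om, ψ x ∈ L}
  mul_mem' := by
    intro a b ha hb ψ
    rw [map_mul]; exact L.mul_mem (ha ψ) (hb ψ)
  add_mem' := by
    intro a b ha hb ψ
    rw [map_add]; exact L.add_mem (ha ψ) (hb ψ)
  algebraMap_mem' := by
    intro r ψ
    rw [AlgHom.commutes]
    simp
  inv_mem' := by
    intro a ha ψ
    rw [map_inv₀]; exact L.inv_mem (ha ψ)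

def FF : IntermediateField ℚ Qb := Sf ⊓ Lf
def FF0 : IntermediateField ℚ Qb := Tf ⊓ Lf

theorem mem_FF (x : Qb) : x ∈ FF ↔ (∃ y : Qb, ∀ φ : Qb →ₐ[ℚ] ℂ, conj (φ x) = φ y) ∧
    ∀ ψ : Qb →ₐ[ℚ] Om, ψ x ∈ L := Iff.rfl

theorem mem_FF0 (x : Qb) : x ∈ FF0 ↔ (∀ φ : Qb →ₐ[ℚ] ℂ, conj (φ x) = φ x) ∧
    ∀ ψ : Qb →ₐ[ℚ] Om, ψ x ∈ L := Iff.rfl

theorem FF0_le : FF0 ≤ FF := by
  intro x hx
  rw [mem_FF0] at hx
  rw [mem_FF]
  exact ⟨⟨x, hx.1⟩, hx.2⟩

theorem exists_psi : Nonempty (Qb →ₐ[ℚ] Om) := ⟨IsAlgClosed.lift⟩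
theorem exists_phi : Nonempty (Qb →ₐ[ℚ] ℂ) := ⟨IsAlgClosed.lift⟩

/-- torsion of FF -/
theorem torsion_FF (x : Qb) (hx : x ∈ FF) (m : ℕ) (hm : 0 < m) (hxm : x ^ m = 1) :
    x = 1 ∨ x = -1 := by
  obtain ⟨ψ⟩ := exists_psi
  have h1 : (ψ x) ^ m = 1 := by rw [← map_pow, hxm, map_one]
  rcases torsion_L (ψ x) (((mem_FF x).1 hx).2 ψ) m hm h1 with h | h
  · left
    apply ψ.toRingHom.injective
    rw [AlgHom.toRingHom_eq_coe, RingHom.coe_coe, h, map_one]
  · right
    apply ψ.toRingHom.injective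
    rw [AlgHom.toRingHom_eq_coe, RingHom.coe_coe, h, map_neg, map_one]

theorem bogo_FF0 : BogomolovGm FF0 := by
  refine ⟨Real.log 2 / 8, by positivity, ?_⟩
  intro x hx hx0 hh
  rw [mem_FF0] at hx
  by_cases h1 : x = 1
  · exact ⟨1, one_pos, by rw [h1, one_pow]⟩
  by_cases h2 : x = -1
  · exact ⟨2, two_pos, by rw [h2]; norm_num⟩
  exact absurd (height_lower x hx0 h1 h2 hx.1) (not_le.2 hh)

theorem exists_s0 : ∃ s : Qb, s ^ 2 = -2 := IsAlgClosed.exists_pow_nat_eq (-2) (by norm_num)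

def s0 : Qb := exists_s0.choose
theorem s0_sq : s0 ^ 2 = -2 := exists_s0.choose_spec

theorem conj_of_sq (z : ℂ) (hz : z ^ 2 = -2) : conj z = -z := by
  have h1 := congrArg Complex.re hz
  have h2 := congrArg Complex.im hz
  simp only [pow_two, Complex.mul_re, Complex.mul_im, Complex.neg_re, Complex.neg_im,
    Complex.re_ofNat, Complex.im_ofNat, neg_zero] at h1 h2
  have h3 : z.re = 0 := by
    have h4 : z.re * z.im = 0 := by linarith
    rcases mul_eq_zero.1 h4 with h | h
    · exact h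
    · rw [h] at h1; nlinarith [sq_nonneg z.re]
  apply Complex.ext
  · simp [h3]
  · simp

theorem phi_s0 (φ : Qb →ₐ[ℚ] ℂ) : (φ s0) ^ 2 = -2 := by
  rw [← map_pow, s0_sq, map_neg, map_ofNat]

theorem phi_s0_conj (φ : Qb →ₐ[ℚ] ℂ) : conj (φ s0) = -φ s0 := conj_of_sq _ (phi_s0 φ)

/-- s3 in Om -/
def s3O : Om := algebraMap Q3 Om (s3 : ℚ_[3])

theorem s3O_sq : s3O ^ 2 = -2 := by
  unfold s3O
  rw [← map_pow]
  have h : ((s3 : ℚ_[3])) ^ 2 = -2 := by
    have := congrArg (fun x : ℤ_[3] => (x : ℚ_[3])) s3_sq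
    push_cast at this
    exact this
  rw [h, map_neg, map_ofNat]

theorem psi_s0 (ψ : Qb →ₐ[ℚ] Om) : ψ s0 = s3O ∨ ψ s0 = -s3O := by
  have h1 : (ψ s0) ^ 2 = s3O ^ 2 := by
    rw [← map_pow, s0_sq, map_neg, map_ofNat, s3O_sq]
  exact sq_eq_sq_iff_eq_or_eq_neg.1 h1

theorem s0_mem : s0 ∈ FF := by
  rw [mem_FF]
  refine ⟨⟨-s0, fun φ => by rw [phi_s0_conj, map_neg]⟩, ?_⟩
  intro ψ
  have h1 : s3O ∈ L := L.algebraMap_mem _
  rcases psi_s0 ψ with h | h
  · rw [h]; exact h1
  · rw [h]; exact L.neg_mem h1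

theorem s0_ne : s0 ≠ 0 := by
  intro h
  have := s0_sq
  rw [h] at this
  norm_num at this

theorem FF_stable (σ : Qb →ₐ[ℚ] Qb) (x : Qb) (hx : x ∈ FF) : σ x ∈ FF := by
  rw [mem_FF] at hx ⊢
  obtain ⟨⟨y, hy⟩, h2⟩ := hx
  exact ⟨⟨σ y, fun φ => hy (φ.comp σ)⟩, fun ψ => h2 (ψ.comp σ)⟩

theorem FF_decomp (x : Qb) (hx : x ∈ FF) : ∃ a ∈ FF0, ∃ b ∈ FF0, x = a + b * s0 := by
  have hx' := hx
  rw [mem_FF] at hx
  obtain ⟨⟨y, hy⟩, h2⟩ := hx
  obtain ⟨φ0⟩ := exists_phi
  -- y is conjugate to x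
  have hyF : y ∈ FF := by
    have hconj : IsConjRoot ℚ x y := by
      have h3 : aeval y (minpoly ℚ x) = 0 := by
        apply φ0.toRingHom.injective
        rw [AlgHom.toRingHom_eq_coe, RingHom.coe_coe, map_zero, ← aeval_algHom_apply, ← hy φ0]
        have h4 : aeval (φ0 x) (minpoly ℚ x) = 0 := by
          rw [aeval_algHom_apply, minpoly.aeval, map_zero]
        have h5 := congrArg conj h4
        rw [map_zero] at h5
        rw [← h5, aeval_def, aeval_def, hom_eval₂]
        congr 1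
        ext r
        simp
      exact isConjRoot_of_aeval_eq_zero (qb_int x) h3
    obtain ⟨σ, hσ⟩ := isConjRoot_iff_exists_algEquiv.1 hconj.symm
    rw [← hσ]
    exact FF_stable σ.toAlgHom x hx'
  have hyy : ∀ φ : Qb →ₐ[ℚ] ℂ, conj (φ y) = φ x := by
    intro φ
    rw [← hy φ, Complex.conj_conj]
  have hyL := ((mem_FF y).1 hyF).2
  have h2L : ∀ ψ : Qb →ₐ[ℚ] Om, ψ 2 ∈ L := by
    intro ψ
    rw [map_ofNat]
    exact L.algebraMap_mem (2 : Q3)
  refine ⟨(x + y) / 2, ?_, (x - y) / (2 * s0), ?_, ?_⟩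
  · rw [mem_FF0]
    constructor
    · intro φ
      rw [map_div₀, map_div₀, map_add, map_add, hy, hyy, map_ofNat, map_ofNat, add_comm]
    · intro ψ
      rw [map_div₀, map_add]
      exact L.div_mem (L.add_mem (h2 ψ) (hyL ψ)) (h2L ψ)
  · rw [mem_FF0]
    constructor
    · intro φ
      rw [map_div₀, map_div₀, map_sub, map_sub, hy, hyy, map_mul, map_mul, phi_s0_conj, map_ofNat,
        map_ofNat]
      rw [mul_neg, div_neg, ← neg_div, neg_sub]
    · intro ψ
      rw [map_div₀, map_sub, map_mul]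
      exact L.div_mem (L.sub_mem (h2 ψ) (hyL ψ)) (L.mul_mem (h2L ψ) (((mem_FF s0).1 s0_mem).2 ψ))
  · have := s0_ne
    field_simp
    ring


/-- existence of small points -/
theorem small_points (n : ℕ) : ∃ x ∈ FF, x ≠ 0 ∧ 3 ^ n ≤ (minpoly ℚ x).natDegree ∧
    height x ≤ Real.log (3 ^ (18 * n + 13)) / 3 ^ n := by
  have hodd : Odd (3 ^ n) := Odd.pow (by decide)
  obtain ⟨e, hd⟩ := hodd
  obtain ⟨b, c, hsym, hdom, hadic, hbpos, hsize⟩ := exists_data n e hd
  set d := 2 * e + 1 with hdd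
  obtain ⟨φ0⟩ := exists_phi
  -- complex coefficients
  have hAne : (b d : Qb) + c d * s0 ≠ 0 := by
    intro h
    have h1 := congrArg φ0 h
    rw [map_add, map_mul, map_intCast, map_intCast, map_zero] at h1
    have h2 := hdom (-φ0 s0) (by rw [neg_sq]; exact phi_s0 φ0)
    have h3 := hsym d le_rfl
    rw [Nat.sub_self] at h3
    rw [h3.1, h3.2] at h2
    push_cast at h2
    rw [neg_mul_neg, h1, norm_zero] at h2
    have : 0 ≤ ∑ k ∈ Finset.Ioc 0 e, ‖(b k : ℂ) + c k * -φ0 s0‖ :=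
      Finset.sum_nonneg (fun _ _ => norm_nonneg _)
    linarith
  -- the polynomial
  set pQ : Qb[X] := ∑ k ∈ Finset.range (d + 1), C ((b k : Qb) + c k * s0) * X ^ k with hpQ
  have hcoeff : pQ.coeff d = (b d : Qb) + c d * s0 := by
    rw [hpQ]
    simp only [finsetSum_coeff, coeff_C_mul, coeff_X_pow, mul_ite, mul_one, mul_zero]
    rw [Finset.sum_ite_eq]
    simp
  have hpdeg : pQ.natDegree = d := by
    apply natDegree_eq_of_le_of_coeff_ne_zero
    · rw [hpQ]
      apply natDegree_sum_le_of_forall_le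
      intro k hk
      rw [Finset.mem_range] at hk
      exact (natDegree_C_mul_X_pow_le _ _).trans (by omega)
    · rw [hcoeff]; exact hAne
  obtain ⟨x, hx⟩ := IsAlgClosed.exists_root pQ (by
    intro h
    have := natDegree_eq_zero_iff_degree_le_zero.2 h.le
    omega)
  have hroot : ∑ k ∈ Finset.range (d + 1), ((b k : Qb) + c k * s0) * x ^ k = 0 := by
    rw [IsRoot, hpQ, eval_finsetSum] at hx
    rw [← hx]
    apply Finset.sum_congr rfl
    intro k _
    rw [eval_mul, eval_C, eval_pow, eval_X]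
  -- complex absolute values
  have hcirc : ∀ φ : Qb →ₐ[ℚ] ℂ, ‖φ x‖ = 1 := by
    intro φ
    apply circle_roots e (fun k => (b k : ℂ) + c k * φ s0)
    · intro k hk
      rw [(hsym k hk).1, (hsym k hk).2, map_add, map_mul, phi_s0_conj, map_intCast, map_intCast]
      push_cast
      ring
    · exact hdom (φ s0) (phi_s0 φ)
    · have h1 := congrArg φ hroot
      rw [map_zero, map_sum] at h1
      rw [← h1]
      apply Finset.sum_congr rfl
      intro k _
      rw [map_mul, map_add, map_mul, map_intCast, map_intCast, map_pow]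
  have hx0 : x ≠ 0 := by
    rintro rfl
    have := hcirc φ0
    rw [map_zero, norm_zero] at this
    exact zero_ne_one this
  -- 3-adic part
  set a3 : ℕ → Q3 := fun k => (b k : ℚ_[3]) + c k * (s3 : ℚ_[3]) with ha3
  have ha3T : ∀ k ≤ 3 ^ n, ‖a3 k - ((T n).coeff k : Q3)‖ ≤ (1 / 3 : ℝ) ^ (4 * n + 2) := by
    intro k hk
    have h1 := hadic k (by rw [← hd]; exact hk)
    rw [PadicInt.norm_def] at h1
    push_cast at h1
    exact h1
  have hadic2 : ∀ ψ : Qb →ₐ[ℚ] Om, ψ x ∈ L ∧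
      (‖ψ x‖ ^ (3 ^ n) = 1 / 3 ∨ ‖ψ x‖ ^ (3 ^ n) = 3) := by
    intro ψ
    have hy0 : ψ x ≠ 0 := by
      intro h
      apply hx0
      apply ψ.toRingHom.injective
      rw [AlgHom.toRingHom_eq_coe, RingHom.coe_coe, h, map_zero]
    have h1 := congrArg ψ hroot
    rw [map_zero, map_sum] at h1
    have hL : ∀ k, algebraMap Q3 Om (a3 k) = (b k : Om) + c k * s3O := by
      intro k
      rw [ha3]
      simp only
      rw [map_add, map_mul, map_intCast, map_intCast]
      rfl
    have hR : ∀ k, ψ ((b k : Qb) + c k * s0) = (b k : Om) + c k * ψ s0 := by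
      intro k
      rw [map_add, map_mul, map_intCast, map_intCast]
    rcases psi_s0 ψ with hs | hs
    · have h2 : ∑ k ∈ Finset.range (3 ^ n + 1), algebraMap Q3 Om (a3 k) * (ψ x) ^ k = 0 := by
        rw [← h1, hd]
        apply Finset.sum_congr rfl
        intro k _
        rw [hL, map_mul ψ, hR, map_pow, hs]
      obtain ⟨h3, h4⟩ := krasner_T n a3 ha3T (ψ x) h2
      exact ⟨mem_L.2 ⟨n, h3⟩, Or.inl h4⟩
    · have h2 : ∑ k ∈ Finset.range (3 ^ n + 1), algebraMap Q3 Om (a3 k) * ((ψ x)⁻¹) ^ k = 0 := by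
        have h5 : ∑ k ∈ Finset.range (3 ^ n + 1), algebraMap Q3 Om (a3 k) * ((ψ x)⁻¹) ^ k =
            ((ψ x) ^ d)⁻¹ * ∑ k ∈ Finset.range (d + 1), ψ (((b k : Qb) + c k * s0) * x ^ k) := by
          rw [hd, Finset.mul_sum, ← Finset.sum_range_reflect]
          apply Finset.sum_congr rfl
          intro k hk
          rw [Finset.mem_range] at hk
          have h3 : d + 1 - 1 - k = d - k := by omega
          rw [h3, hL, map_mul ψ, hR, map_pow, hs, (hsym k (by omega)).1, (hsym k (by omega)).2]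
          have h4 : (ψ x) ^ d = (ψ x) ^ (d - k) * (ψ x) ^ k := by rw [← pow_add]; congr 1; omega
          rw [h4, inv_pow]
          push_cast
          field_simp
          try ring
        rw [h5, h1, mul_zero]
      obtain ⟨h3, h4⟩ := krasner_T n a3 ha3T _ h2
      refine ⟨?_, Or.inr ?_⟩
      · have := L.inv_mem (mem_L.2 ⟨n, h3⟩)
        rwa [inv_inv] at this
      · rw [norm_inv, inv_pow] at h4
        have h5 : ‖ψ x‖ ^ 3 ^ n ≠ 0 := pow_ne_zero _ (norm_ne_zero_iff.2 hy0)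
        field_simp at h4
        linarith
  have hdeg : 3 ^ n ≤ (minpoly ℚ x).natDegree := by
    obtain ⟨ψ⟩ := exists_psi
    refine (degree_of_norm n (ψ x) (hadic2 ψ).2).trans ?_
    have h1 : aeval (ψ x) ((minpoly ℚ x).map (algebraMap ℚ Q3)) = 0 := by
      rw [aeval_map_algebraMap, aeval_algHom_apply, minpoly.aeval, map_zero]
    have h2 : (minpoly ℚ x).map (algebraMap ℚ Q3) ≠ 0 :=
      Polynomial.map_ne_zero (minpoly.ne_zero (qb_int x))
    have h3 := natDegree_le_of_dvd (minpoly.dvd _ _ h1) h2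
    rwa [natDegree_map] at h3
  refine ⟨x, ?_, hx0, hdeg, ?_⟩
  · rw [mem_FF]
    refine ⟨⟨x⁻¹, fun φ => ?_⟩, fun ψ => (hadic2 ψ).1⟩
    have h1 : φ x * conj (φ x) = 1 := by
      rw [Complex.mul_conj, Complex.normSq_eq_norm_sq, hcirc φ]; norm_num
    rw [map_inv₀]
    exact eq_inv_of_mul_eq_one_right h1
  · -- height
    set P0 : ℤ[X] := ∑ k ∈ Finset.range (d + 1), C (b k) * X ^ k with hP0
    set P1 : ℤ[X] := ∑ k ∈ Finset.range (d + 1), C (c k) * X ^ k with hP1
    have hP0d : P0.natDegree ≤ d := by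
      rw [hP0]
      apply natDegree_sum_le_of_forall_le
      intro k hk
      rw [Finset.mem_range] at hk
      exact (natDegree_C_mul_X_pow_le _ _).trans (by omega)
    have hP1d : P1.natDegree ≤ d := by
      rw [hP1]
      apply natDegree_sum_le_of_forall_le
      intro k hk
      rw [Finset.mem_range] at hk
      exact (natDegree_C_mul_X_pow_le _ _).trans (by omega)
    have hP0c : P0.coeff d = b d := by
      rw [hP0]
      simp only [finsetSum_coeff, coeff_C_mul, coeff_X_pow, mul_ite, mul_one, mul_zero]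
      rw [Finset.sum_ite_eq]
      simp
    have hP1c : P1.coeff d = c d := by
      rw [hP1]
      simp only [finsetSum_coeff, coeff_C_mul, coeff_X_pow, mul_ite, mul_one, mul_zero]
      rw [Finset.sum_ite_eq]
      simp
    set W : ℤ[X] := P0 * P0 + C 2 * (P1 * P1) with hW
    have hWc : W.coeff (d + d) = b d * b d + 2 * (c d * c d) := by
      rw [hW, coeff_add, coeff_C_mul, coeff_mul_add_eq_of_natDegree_le hP0d hP0d,
        coeff_mul_add_eq_of_natDegree_le hP1d hP1d, hP0c, hP1c]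
    have hWpos : 0 < b d * b d + 2 * (c d * c d) := by
      have : 0 < b d * b d := mul_pos hbpos hbpos
      nlinarith [mul_self_nonneg (c d)]
    have hWd : W.natDegree = d + d := by
      apply natDegree_eq_of_le_of_coeff_ne_zero
      · rw [hW]
        apply natDegree_add_le_of_degree_le
        · exact natDegree_mul_le_of_le hP0d hP0d
        · refine (natDegree_C_mul_le _ _).trans (natDegree_mul_le_of_le hP1d hP1d)
      · rw [hWc]; exact hWpos.ne'
    have hW0 : W ≠ 0 := by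
      intro h
      rw [h, coeff_zero] at hWc
      omega
    have hlc : W.leadingCoeff = b d * b d + 2 * (c d * c d) := by
      rw [leadingCoeff, hWd, hWc]
    have hWx : aeval x W = 0 := by
      have h1 : aeval x P0 + s0 * aeval x P1 = 0 := by
        rw [hP0, hP1, map_sum, map_sum, Finset.mul_sum, ← Finset.sum_add_distrib, ← hroot]
        apply Finset.sum_congr rfl
        intro k _
        simp only [map_mul, map_pow, aeval_X, eq_intCast, map_intCast]
        ring
      rw [hW, map_add, map_mul, map_mul, map_mul, aeval_C]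
      simp only [eq_intCast, Int.cast_ofNat]
      linear_combination (aeval x P0 - s0 * aeval x P1) * h1 + (aeval x P1) ^ 2 * s0_sq
    have hB : |(W.leadingCoeff : ℝ)| ≤ (3 : ℝ) ^ (18 * n + 13) := by
      rw [hlc]
      have h1 : (0 : ℝ) ≤ ((b d * b d + 2 * (c d * c d) : ℤ) : ℝ) := by exact_mod_cast hWpos.le
      rw [abs_of_nonneg h1]
      refine le_trans (le_of_eq ?_) hsize
      push_cast
      ring
    refine (height_upper x W hW0 hWx hcirc _ hB).trans ?_
    have hlog : 0 ≤ Real.log ((3 : ℝ) ^ (18 * n + 13)) := by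
      apply Real.log_nonneg
      exact one_le_pow₀ (by norm_num)
    apply div_le_div_of_nonneg_left hlog (by positivity)
    exact_mod_cast hdeg

theorem not_bogo_FF : ¬ BogomolovGm FF := by
  rintro ⟨ε, hε, h⟩
  have hlim : Filter.Tendsto (fun n : ℕ => Real.log ((3 : ℝ) ^ (18 * n + 13)) / 3 ^ n)
      Filter.atTop (nhds 0) := by
    have h1 : Filter.Tendsto (fun n : ℕ => (n : ℝ) * (1 / 3 : ℝ) ^ n) Filter.atTop (nhds 0) :=
      tendsto_self_mul_const_pow_of_lt_one (by norm_num) (by norm_num)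
    have h2 : Filter.Tendsto (fun n : ℕ => (1 / 3 : ℝ) ^ n) Filter.atTop (nhds 0) :=
      tendsto_pow_atTop_nhds_zero_of_lt_one (by norm_num) (by norm_num)
    have h3 := (h1.const_mul (18 * Real.log 3)).add (h2.const_mul (13 * Real.log 3))
    rw [mul_zero, mul_zero, add_zero] at h3
    refine h3.congr ?_
    intro n
    rw [Real.log_pow]
    push_cast
    rw [one_div, inv_pow]
    field_simp
  have hev := hlim.eventually (gt_mem_nhds hε)
  obtain ⟨n, hn1, hn2⟩ := (hev.and (Filter.eventually_ge_atTop 1)).exists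
  obtain ⟨x, hx, hx0, hdeg, hh⟩ := small_points n
  obtain ⟨m, hm, hxm⟩ := h x hx hx0 (hh.trans_lt hn1)
  have h3 : 1 < (minpoly ℚ x).natDegree := by
    refine lt_of_lt_of_le ?_ hdeg
    exact Nat.one_lt_pow (by omega) (by norm_num)
  have h4 : (minpoly ℚ x).natDegree = 1 := by
    rcases torsion_FF x hx m hm hxm with h | h
    · rw [h]
      have : (1 : Qb) = algebraMap ℚ Qb 1 := by simp
      rw [this]
      exact minpoly.natDegree_eq_one_iff.2 ⟨1, rfl⟩
    · rw [h]
      exact minpoly.natDegree_eq_one_iff.2 ⟨-1, by simp⟩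
  omega

theorem FF_normal : IsGalois ℚ FF := by
  have h1 : @Normal ℚ FF _ _ (IntermediateField.algebra' FF) := by
    rw [IntermediateField.normal_iff_forall_map_le]
    intro σ y hy
    obtain ⟨x, hx, rfl⟩ := hy
    exact FF_stable σ x hx
  have e : (IntermediateField.algebra' FF : Algebra ℚ FF) = DivisionRing.toRatAlgebra :=
    Subsingleton.elim _ _
  rw [e] at h1
  exact ⟨⟩

theorem FF_finite : FiniteDimensional FF0 (IntermediateField.extendScalars FF0_le) := by
  have hint : IsIntegral FF0 s0 := (qb_int s0).tower_top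
  have hle : IntermediateField.extendScalars FF0_le ≤ FF0⟮s0⟯ := by
    intro x hx
    rw [IntermediateField.mem_extendScalars] at hx
    obtain ⟨a, ha, b, hb, rfl⟩ := FF_decomp x hx
    apply add_mem
    · exact (FF0⟮s0⟯).algebraMap_mem (⟨a, ha⟩ : FF0)
    · apply mul_mem
      · exact (FF0⟮s0⟯).algebraMap_mem (⟨b, hb⟩ : FF0)
      · exact mem_adjoin_simple_self _ _
  have := adjoin.finiteDimensional hint
  exact FiniteDimensional.of_injective (IntermediateField.inclusion hle).toLinearMap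
    (IntermediateField.inclusion hle).injective

theorem main : ∃ (F₀ F : IntermediateField ℚ Qb) (h : F₀ ≤ F),
    FiniteDimensional F₀ (IntermediateField.extendScalars h) ∧ IsGalois ℚ F ∧
    (torsGm F \ torsGm F₀).Finite ∧ BogomolovGm F₀ ∧ ¬ BogomolovGm F := by
  refine ⟨FF0, FF, FF0_le, FF_finite, FF_normal, ?_, bogo_FF0, not_bogo_FF⟩
  apply Set.Finite.subset (Set.toFinite {(1 : Qb), -1})
  rintro x ⟨⟨hx, m, hm, hxm⟩, -⟩
  rcases torsion_FF x hx m hm hxm with h | h
  · left; exact h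
  · right; exact h

end

end Pool.Agent.H319R3.Bogo
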