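import Mathlib

set_option autoImplicit false
open MeasureTheory Set Filter Topology

namespace Pool.Agent.H319R3.Littlewood

/-- the level of `x` on the logarithmic scale with step `l` -/
noncomputable def lev (l x : ℝ) : ℤ := ⌊Real.log x / l⌋

/-- the sign `(-1)^⌊log x / l⌋` -/
noncomputable def hs (l x : ℝ) : ℝ := if Even (lev l x) then 1 else -1

lemma hs_cases (l x : ℝ) : hs l x = 1 ∨ hs l x = -1 := by
  unfold hs; split_ifs <;> simp

lemma hs_abs (l x : ℝ) : |hs l x| = 1 := by
  rcases hs_cases l x with h | h <;> rw [h] <;> simp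

lemma hs_meas (l : ℝ) : Measurable (hs l) := by
  unfold hs lev
  apply Measurable.ite _ measurable_const measurable_const
  have h1 : Measurable (fun x : ℝ => ⌊Real.log x / l⌋) := by fun_prop
  exact h1 (MeasurableSet.of_discrete (s := {z : ℤ | Even z}))

lemma hs_scale {l : ℝ} (hl : 0 < l) {x : ℝ} (hx : 0 < x) : hs l (Real.exp l * x) = - hs l x := by
  have h1 : lev l (Real.exp l * x) = lev l x + 1 := by
    unfold lev
    rw [Real.log_mul (Real.exp_pos _).ne' hx.ne', Real.log_exp, add_div, div_self hl.ne', add_comm,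
      Int.floor_add_one]
  unfold hs
  rw [h1]
  by_cases h : Even (lev l x)
  · rw [if_pos h, if_neg]
    rw [Int.even_add_one]
    simpa using h
  · rw [if_neg h, if_pos]
    · simp
    · rw [Int.even_add_one]; exact h

/-- the log-periodic profile -/
noncomputable def Phi (l t : ℝ) : ℝ := ∫ x in Ioi (0:ℝ), hs l x * (t * Real.exp (-(t * x)))

lemma exp_int {t : ℝ} (ht : 0 < t) (c : ℝ) :
    IntegrableOn (fun x : ℝ => t * Real.exp (-(t * x))) (Ioi c) := by
  have h1 : IntegrableOn (fun x : ℝ => Real.exp (-(t * x))) (Ioi c) := by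
    have := integrableOn_exp_mul_Ioi (a := -t) (by linarith) c
    simpa only [neg_mul] using this
  exact h1.const_mul t

lemma exp_val {t : ℝ} (ht : 0 < t) (c : ℝ) :
    ∫ x in Ioi c, t * Real.exp (-(t * x)) = Real.exp (-(t * c)) := by
  rw [integral_const_mul]
  have h := integral_exp_mul_Ioi (a := -t) (by linarith) c
  simp only [neg_mul] at h
  rw [h]
  field_simp

lemma hs_int {l t : ℝ} (ht : 0 < t) (c : ℝ) :
    IntegrableOn (fun x : ℝ => hs l x * (t * Real.exp (-(t * x)))) (Ioi c) := by
  have h1 := exp_int ht c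
  refine Integrable.mono' h1 ?_ ?_
  · exact ((hs_meas l).mul (by fun_prop)).aestronglyMeasurable
  · refine Eventually.of_forall fun x => ?_
    rw [norm_mul, Real.norm_eq_abs, hs_abs, one_mul, Real.norm_of_nonneg (by positivity)]

lemma Phi_scale {l : ℝ} (hl : 0 < l) {t : ℝ} : Phi l (t * Real.exp (-l)) = - Phi l t := by
  unfold Phi
  have h1 := integral_comp_mul_left_Ioi' (fun x => hs l x * ((t * Real.exp (-l)) *
    Real.exp (-((t * Real.exp (-l)) * x)))) 0 (Real.exp_pos l)
  rw [mul_zero] at h1
  rw [← h1, smul_eq_mul, ← integral_const_mul, ← integral_neg]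
  apply setIntegral_congr_fun measurableSet_Ioi
  intro x hx
  simp only
  rw [hs_scale hl hx]
  have h2 : Real.exp (-l) * Real.exp l = 1 := by rw [← Real.exp_add]; simp
  have h3 : t * Real.exp (-l) * (Real.exp l * x) = t * x := by
    calc t * Real.exp (-l) * (Real.exp l * x) = t * (Real.exp (-l) * Real.exp l) * x := by ring
      _ = t * x := by rw [h2, mul_one]
  rw [h3]
  calc Real.exp l * (-hs l x * (t * Real.exp (-l) * Real.exp (-(t * x))))
      = (Real.exp (-l) * Real.exp l) * (-hs l x * (t * Real.exp (-(t * x)))) := by ring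
    _ = -(hs l x * (t * Real.exp (-(t * x)))) := by rw [h2]; ring

lemma Phi_iter {l : ℝ} (hl : 0 < l) (t : ℝ) (k : ℕ) :
    Phi l (t * Real.exp (-(l * k))) = (-1) ^ k * Phi l t := by
  induction k with
  | zero => simp
  | succ k ih =>
    have : t * Real.exp (-(l * ((k + 1 : ℕ) : ℝ))) = (t * Real.exp (-(l * k))) * Real.exp (-l) := by
      rw [mul_assoc, ← Real.exp_add]
      congr 2
      push_cast; ring
    rw [this, Phi_scale hl, ih, pow_succ]
    ring

/-- The profile is not identically zero (uniqueness for the Laplace transform). -/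
lemma Phi_ne {l : ℝ} (hl : 0 < l) : ∃ t : ℝ, 0 < t ∧ Phi l t ≠ 0 := by
  by_contra hcon
  push Not at hcon
  -- orthogonality to polynomials in exp(-x)
  have hmon : ∀ m : ℕ, ∫ x in Ioi (0:ℝ), hs l x * Real.exp (-x) * Real.exp (-x) ^ m = 0 := by
    intro m
    have h1 := hcon ((m:ℝ) + 1) (by positivity)
    unfold Phi at h1
    have h2 : ∫ x in Ioi (0:ℝ), hs l x * (((m:ℝ) + 1) * Real.exp (-(((m:ℝ) + 1) * x))) =
        ((m:ℝ) + 1) * ∫ x in Ioi (0:ℝ), hs l x * Real.exp (-x) * Real.exp (-x) ^ m := by
      rw [← integral_const_mul]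
      apply setIntegral_congr_fun measurableSet_Ioi
      intro x _
      simp only
      rw [← Real.exp_nat_mul]
      have : Real.exp (-(((m:ℝ) + 1) * x)) = Real.exp (-x) * Real.exp (m * -x) := by
        rw [← Real.exp_add]; congr 1; ring
      rw [this]; ring
    rw [h2] at h1
    rcases mul_eq_zero.1 h1 with h | h
    · exact absurd h (by positivity)
    · exact h
  have hint0 : IntegrableOn (fun x : ℝ => Real.exp (-x)) (Ioi 0) := by
    have := exp_int one_pos 0
    simpa using this
  have hintf : ∀ f : ℝ → ℝ, Continuous f → IntegrableOn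
      (fun x => hs l x * Real.exp (-x) * f (Real.exp (-x))) (Ioi 0) := by
    intro f hf
    obtain ⟨C, hC⟩ := (isCompact_Icc (a := (0:ℝ)) (b := 1)).exists_bound_of_continuousOn
      hf.continuousOn
    refine Integrable.mono' (g := fun x => C * Real.exp (-x)) (hint0.const_mul C) ?_ ?_
    · exact (((hs_meas l).mul (by fun_prop)).mul
        (hf.measurable.comp (by fun_prop))).aestronglyMeasurable
    · refine (ae_restrict_iff' measurableSet_Ioi).2 (Eventually.of_forall fun x hx => ?_)
      have h1 := hC (Real.exp (-x)) ⟨(Real.exp_pos _).le, Real.exp_le_one_iff.2 (by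
        have : (0:ℝ) < x := hx
        linarith)⟩
      rw [norm_mul, norm_mul, Real.norm_eq_abs (hs l x), hs_abs, one_mul,
        Real.norm_of_nonneg (Real.exp_pos _).le, mul_comm]
      exact mul_le_mul_of_nonneg_right h1 (Real.exp_pos _).le
  have hpoly : ∀ P : Polynomial ℝ, ∫ x in Ioi (0:ℝ), hs l x * Real.exp (-x) *
      P.eval (Real.exp (-x)) = 0 := by
    intro P
    induction P using Polynomial.induction_on' with
    | add p q hp hq =>
      have h1 := hintf (fun u => p.eval u) p.continuous
      have h2 := hintf (fun u => q.eval u) q.continuous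
      have h3 : (fun x => hs l x * Real.exp (-x) * (p + q).eval (Real.exp (-x))) =
          fun x => hs l x * Real.exp (-x) * p.eval (Real.exp (-x)) +
            hs l x * Real.exp (-x) * q.eval (Real.exp (-x)) := by
        funext x; rw [Polynomial.eval_add]; ring
      rw [h3, integral_add h1 h2, hp, hq, add_zero]
    | monomial n a =>
      have h3 : (fun x => hs l x * Real.exp (-x) * (Polynomial.monomial n a).eval (Real.exp (-x))) =
          fun x => a * (hs l x * Real.exp (-x) * Real.exp (-x) ^ n) := by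
        funext x; rw [Polynomial.eval_monomial]; ring
      rw [h3, integral_const_mul, hmon, mul_zero]
  have hcont : ∀ f : ℝ → ℝ, Continuous f → ∫ x in Ioi (0:ℝ), hs l x * Real.exp (-x) *
      f (Real.exp (-x)) = 0 := by
    intro f hf
    by_contra hne
    set I := ∫ x in Ioi (0:ℝ), hs l x * Real.exp (-x) * f (Real.exp (-x)) with hI
    have hIpos : 0 < |I| := abs_pos.2 hne
    obtain ⟨P, hP⟩ := exists_polynomial_near_of_continuousOn 0 1 f hf.continuousOn (|I| / 2)
      (by positivity)
    have h1 := hintf f hf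
    have h2 := hintf (fun u => P.eval u) P.continuous
    have h3 : I = ∫ x in Ioi (0:ℝ), (hs l x * Real.exp (-x) * f (Real.exp (-x)) -
        hs l x * Real.exp (-x) * P.eval (Real.exp (-x))) := by
      rw [integral_sub h1 h2, hpoly, sub_zero]
    have h4 : |I| ≤ |I| / 2 := by
      calc |I| = ‖∫ x in Ioi (0:ℝ), (hs l x * Real.exp (-x) * f (Real.exp (-x)) -
            hs l x * Real.exp (-x) * P.eval (Real.exp (-x)))‖ := by
            rw [← h3, Real.norm_eq_abs]
        _ ≤ ∫ x in Ioi (0:ℝ), ‖hs l x * Real.exp (-x) * f (Real.exp (-x)) -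
            hs l x * Real.exp (-x) * P.eval (Real.exp (-x))‖ :=
            norm_integral_le_integral_norm _
        _ ≤ ∫ x in Ioi (0:ℝ), (|I| / 2) * (1 * Real.exp (-(1 * x))) := by
            apply setIntegral_mono_on (h1.sub h2).norm ((exp_int one_pos 0).const_mul _)
              measurableSet_Ioi
            intro x hx
            have hx0 : (0:ℝ) < x := hx
            have h5 := hP (Real.exp (-x)) ⟨(Real.exp_pos _).le, Real.exp_le_one_iff.2 (by linarith)⟩
            rw [Pi.sub_apply, ← mul_sub, norm_mul, norm_mul, Real.norm_eq_abs (hs l x), hs_abs, one_mul,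
              Real.norm_of_nonneg (Real.exp_pos _).le, one_mul, one_mul, Real.norm_eq_abs,
              abs_sub_comm, mul_comm]
            exact mul_le_mul_of_nonneg_right h5.le (Real.exp_pos _).le
        _ = |I| / 2 := by
            rw [integral_const_mul, exp_val one_pos]
            simp
    linarith
  -- a bump where the sign is constant
  have hb := hcont (fun u => max 0 ((u - Real.exp (-Real.exp l)) * (Real.exp (-1) - u)))
    (by fun_prop)
  have heq : ∀ x ∈ Ioi (0:ℝ), hs l x * Real.exp (-x) *
      max 0 ((Real.exp (-x) - Real.exp (-Real.exp l)) * (Real.exp (-1) - Real.exp (-x))) =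
      Real.exp (-x) *
      max 0 ((Real.exp (-x) - Real.exp (-Real.exp l)) * (Real.exp (-1) - Real.exp (-x))) := by
    intro x hx
    have hx0 : (0:ℝ) < x := hx
    by_cases h1 : 1 < x ∧ x < Real.exp l
    · have h2 : hs l x = 1 := by
        unfold hs lev
        rw [if_pos]
        have h3 : ⌊Real.log x / l⌋ = 0 := by
          rw [Int.floor_eq_zero_iff]
          constructor
          · exact div_nonneg (Real.log_nonneg h1.1.le) hl.le
          · rw [div_lt_one hl, Real.log_lt_iff_lt_exp hx0]
            exact h1.2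
        rw [h3]; exact Even.zero
      rw [h2, one_mul]
    · have h3 : (Real.exp (-x) - Real.exp (-Real.exp l)) * (Real.exp (-1) - Real.exp (-x)) ≤ 0 := by
        have hl1 : 1 < Real.exp l := Real.one_lt_exp_iff.2 hl
        rcases le_or_gt x 1 with h4 | h4
        · apply mul_nonpos_of_nonneg_of_nonpos
          · rw [sub_nonneg]; exact Real.exp_le_exp.2 (by linarith)
          · rw [sub_nonpos]; exact Real.exp_le_exp.2 (by linarith)
        · have h5 : Real.exp l ≤ x := by
            by_contra h6
            exact h1 ⟨h4, not_le.1 h6⟩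
          apply mul_nonpos_of_nonpos_of_nonneg
          · rw [sub_nonpos]; exact Real.exp_le_exp.2 (by linarith)
          · rw [sub_nonneg]; exact Real.exp_le_exp.2 (by linarith)
      rw [max_eq_left h3, mul_zero, mul_zero]
  rw [setIntegral_congr_fun measurableSet_Ioi heq] at hb
  have hi : IntegrableOn (fun x : ℝ => Real.exp (-x) *
      max 0 ((Real.exp (-x) - Real.exp (-Real.exp l)) * (Real.exp (-1) - Real.exp (-x)))) (Ioi 0) := by
    have h1 := hintf (fun u => max 0 ((u - Real.exp (-Real.exp l)) * (Real.exp (-1) - u)))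
      (by fun_prop)
    exact h1.congr_fun heq measurableSet_Ioi
  rw [setIntegral_eq_zero_iff_of_nonneg_ae (Eventually.of_forall fun x => by positivity) hi] at hb
  rw [EventuallyEq, ae_restrict_iff' measurableSet_Ioi] at hb
  have hmeas : volume (Ioo 1 (Real.exp l)) = 0 := by
    refine measure_mono_null ?_ hb
    intro x hx
    simp only [mem_compl_iff, mem_ofPred_eq, Pi.zero_apply]
    intro h1
    have hx0 : (0:ℝ) < x := by linarith [hx.1]
    have h2 := h1 hx0
    have h3 : 0 < (Real.exp (-x) - Real.exp (-Real.exp l)) * (Real.exp (-1) - Real.exp (-x)) := by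
      apply mul_pos
      · rw [sub_pos]; exact Real.exp_lt_exp.2 (by linarith [hx.2])
      · rw [sub_pos]; exact Real.exp_lt_exp.2 (by linarith [hx.1])
    rw [max_eq_right h3.le] at h2
    exact absurd h2 (mul_pos (Real.exp_pos _) h3).ne'
  rw [Real.volume_Ioo, ENNReal.ofReal_eq_zero] at hmeas
  have : 1 < Real.exp l := Real.one_lt_exp_iff.2 hl
  linarith

/-- comparison of one term of the sum with the integral over one unit interval -/
lemma term_bound {l t : ℝ} (hl : 0 < l) (ht : 0 < t) (j : ℕ) :
    |hs l (j + 1) * (t * Real.exp (-(t * (j + 1)))) -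
      ∫ x in Ioc (j:ℝ) (j + 1), hs l x * (t * Real.exp (-(t * x)))| ≤
      t * (2 * ((if j = 0 then 1 else 0) + ((lev l (j + 1) : ℝ) - (if j = 0 then 0 else lev l j))) +
        (Real.exp (-(t * j)) - Real.exp (-(t * (j + 1))))) := by
  have hvol : (volume (Ioc (j:ℝ) (j + 1))) = 1 := by rw [Real.volume_Ioc]; simp
  have hreal : (volume : Measure ℝ).real (Ioc (j:ℝ) (j + 1)) = 1 := by
    rw [Measure.real, hvol]; simp
  have hconst : hs l (j + 1) * (t * Real.exp (-(t * (j + 1)))) =
      ∫ x in Ioc (j:ℝ) (j + 1), hs l (j + 1) * (t * Real.exp (-(t * (j + 1)))) := by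
    rw [setIntegral_const, hreal, one_smul]
  have hint : IntegrableOn (fun x : ℝ => hs l x * (t * Real.exp (-(t * x)))) (Ioc (j:ℝ) (j + 1)) :=
    (hs_int ht (j:ℝ)).mono_set Ioc_subset_Ioi_self
  rw [hconst, ← integral_sub (integrable_const _) hint]
  rw [← Real.norm_eq_abs]
  have hb : ∀ x ∈ Ioc (j:ℝ) (j + 1), ‖hs l (j + 1) * (t * Real.exp (-(t * (j + 1)))) -
      hs l x * (t * Real.exp (-(t * x)))‖ ≤
      t * (2 * ((if j = 0 then 1 else 0) + ((lev l (j + 1) : ℝ) - (if j = 0 then 0 else lev l j))) +
        (Real.exp (-(t * j)) - Real.exp (-(t * (j + 1))))) := by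
    rintro x ⟨hx1, hx2⟩
    have hx0 : 0 < x := lt_of_le_of_lt (Nat.cast_nonneg j) hx1
    have e1 : Real.exp (-(t * (j + 1))) ≤ Real.exp (-(t * x)) := Real.exp_le_exp.2 (by nlinarith)
    have e2 : Real.exp (-(t * x)) ≤ Real.exp (-(t * j)) := Real.exp_le_exp.2 (by nlinarith)
    have e3 : Real.exp (-(t * x)) ≤ 1 := Real.exp_le_one_iff.2 (by nlinarith)
    have e4 : 0 < Real.exp (-(t * x)) := Real.exp_pos _
    -- sign part
    have hsgn : |hs l (j + 1) - hs l x| ≤
        2 * ((if j = 0 then 1 else 0) + ((lev l (j + 1) : ℝ) - (if j = 0 then 0 else lev l j))) := by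
      by_cases hj : j = 0
      · subst hj
        simp only [Nat.cast_zero, zero_add, if_true, sub_zero]
        have h0 : lev l 1 = 0 := by
          unfold lev; simp
        rw [h0]
        rcases hs_cases l (1:ℝ) with h | h <;> rcases hs_cases l x with h' | h' <;>
          rw [h, h'] <;> norm_num
      · simp only [hj, if_false, zero_add]
        have hj0 : (0:ℝ) < j := by exact_mod_cast Nat.pos_of_ne_zero hj
        have m1 : lev l j ≤ lev l x := by
          unfold lev
          apply Int.floor_le_floor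
          apply div_le_div_of_nonneg_right _ hl.le
          exact Real.log_le_log hj0 hx1.le
        have m2 : lev l x ≤ lev l (j + 1) := by
          unfold lev
          apply Int.floor_le_floor
          apply div_le_div_of_nonneg_right _ hl.le
          exact Real.log_le_log hx0 hx2
        rcases eq_or_lt_of_le (m1.trans m2) with h | h
        · have h1 : lev l x = lev l (j + 1) := le_antisymm m2 (h ▸ m1)
          have h2 : hs l x = hs l (j + 1) := by unfold hs; rw [h1]
          rw [h2, sub_self, abs_zero, ← h]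
          simp
        · have h1 : (1:ℝ) ≤ (lev l (j + 1) : ℝ) - lev l j := by
            have : lev l j + 1 ≤ lev l (j + 1) := h
            have : ((lev l j + 1 : ℤ) : ℝ) ≤ lev l (j + 1) := by exact_mod_cast this
            push_cast at this
            linarith
          calc |hs l (j + 1) - hs l x| ≤ |hs l (j + 1)| + |hs l x| := abs_sub _ _
            _ = 2 := by rw [hs_abs, hs_abs]; norm_num
            _ ≤ 2 * ((lev l (j + 1) : ℝ) - lev l j) := by linarith
    have hdec : hs l (j + 1) * (t * Real.exp (-(t * (j + 1)))) - hs l x * (t * Real.exp (-(t * x))) =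
        t * ((hs l (j + 1) - hs l x) * Real.exp (-(t * x)) -
          hs l (j + 1) * (Real.exp (-(t * x)) - Real.exp (-(t * (j + 1))))) := by ring
    rw [hdec, norm_mul, Real.norm_of_nonneg ht.le]
    apply mul_le_mul_of_nonneg_left _ ht.le
    calc ‖(hs l (j + 1) - hs l x) * Real.exp (-(t * x)) -
          hs l (j + 1) * (Real.exp (-(t * x)) - Real.exp (-(t * (j + 1))))‖
        ≤ ‖(hs l (j + 1) - hs l x) * Real.exp (-(t * x))‖ +
          ‖hs l (j + 1) * (Real.exp (-(t * x)) - Real.exp (-(t * (j + 1))))‖ := norm_sub_le _ _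
      _ ≤ _ := by
          rw [norm_mul, norm_mul, Real.norm_eq_abs, Real.norm_eq_abs (hs l (j + 1)), hs_abs,
            one_mul, Real.norm_of_nonneg e4.le, Real.norm_of_nonneg (by linarith)]
          have := abs_nonneg (hs l (j + 1) - hs l x)
          nlinarith
  calc ‖∫ x in Ioc (j:ℝ) (j + 1), (hs l (j + 1) * (t * Real.exp (-(t * (j + 1)))) -
      hs l x * (t * Real.exp (-(t * x))))‖
      ≤ _ * (volume : Measure ℝ).real (Ioc (j:ℝ) (j + 1)) :=
        norm_setIntegral_le_of_norm_le_const (by rw [hvol]; simp) hb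
    _ = _ := by rw [hreal, mul_one]

/-- the discretisation error -/
lemma disc {l t : ℝ} (hl : 0 < l) (ht : 0 < t) (N : ℕ) (hN : 1 ≤ N) :
    |t * ∑ j ∈ Finset.range N, hs l (j + 1) * Real.exp (-(t * (j + 1))) - Phi l t| ≤
      t * (3 + 2 * (Real.log N / l)) + Real.exp (-(t * N)) := by
  have hsplit : Phi l t = (∑ j ∈ Finset.range N,
      ∫ x in Ioc (j:ℝ) (j + 1), hs l x * (t * Real.exp (-(t * x)))) +
      ∫ x in Ioi (N:ℝ), hs l x * (t * Real.exp (-(t * x))) := by
    unfold Phi
    have h1 : ∀ M : ℕ, ∫ x in Ioi (0:ℝ), hs l x * (t * Real.exp (-(t * x))) =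
        (∑ j ∈ Finset.range M, ∫ x in Ioc (j:ℝ) (j + 1), hs l x * (t * Real.exp (-(t * x)))) +
        ∫ x in Ioi (M:ℝ), hs l x * (t * Real.exp (-(t * x))) := by
      intro M
      induction M with
      | zero => simp
      | succ M ih =>
        rw [ih, Finset.sum_range_succ, add_assoc]
        congr 1
        have h2 : Ioi (M:ℝ) = Ioc (M:ℝ) (M + 1) ∪ Ioi ((M:ℝ) + 1) :=
          (Ioc_union_Ioi_eq_Ioi (by linarith)).symm
        rw [h2, setIntegral_union (by
          rw [Set.disjoint_left]
          intro x hx hx'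
          exact absurd hx.2 (not_le.2 hx')) measurableSet_Ioi
          ((hs_int ht (M:ℝ)).mono_set Ioc_subset_Ioi_self) (hs_int ht _)]
        push_cast
        rfl
    exact h1 N
  have htail : |∫ x in Ioi (N:ℝ), hs l x * (t * Real.exp (-(t * x)))| ≤ Real.exp (-(t * N)) := by
    rw [← exp_val ht (N:ℝ), ← Real.norm_eq_abs]
    refine (norm_integral_le_integral_norm _).trans (le_of_eq ?_)
    apply integral_congr_ae
    refine Eventually.of_forall fun x => ?_
    simp only
    rw [norm_mul, Real.norm_eq_abs, hs_abs, one_mul, Real.norm_of_nonneg (by positivity)]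
  have hsum : |∑ j ∈ Finset.range N, (hs l (j + 1) * (t * Real.exp (-(t * (j + 1)))) -
      ∫ x in Ioc (j:ℝ) (j + 1), hs l x * (t * Real.exp (-(t * x))))| ≤
      t * (3 + 2 * (Real.log N / l)) := by
    refine (Finset.abs_sum_le_sum_abs _ _).trans ?_
    refine (Finset.sum_le_sum fun j _ => term_bound hl ht j).trans ?_
    rw [← Finset.mul_sum]
    apply mul_le_mul_of_nonneg_left _ ht.le
    have htel : ∀ M : ℕ, ∑ j ∈ Finset.range (M + 1),
        (2 * ((if j = 0 then 1 else 0) + ((lev l (j + 1) : ℝ) - (if j = 0 then 0 else lev l j))) +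
        (Real.exp (-(t * j)) - Real.exp (-(t * (j + 1))))) =
        2 * (1 + (lev l (M + 1) : ℝ)) + (1 - Real.exp (-(t * (M + 1)))) := by
      intro M
      induction M with
      | zero => simp
      | succ M ih =>
        rw [Finset.sum_range_succ, ih]
        simp only [Nat.add_eq_zero_iff, one_ne_zero, and_false, if_false, zero_add]
        push_cast
        ring
    obtain ⟨M, rfl⟩ : ∃ M, N = M + 1 := ⟨N - 1, by omega⟩
    rw [htel M]
    have h1 : (lev l (M + 1) : ℝ) ≤ Real.log ((M + 1 : ℕ) : ℝ) / l := by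
      unfold lev
      push_cast
      exact Int.floor_le _
    have h2 := Real.exp_pos (-(t * (M + 1)))
    linarith
  rw [hsplit]
  have h3 : t * ∑ j ∈ Finset.range N, hs l (j + 1) * Real.exp (-(t * (j + 1))) -
      ((∑ j ∈ Finset.range N, ∫ x in Ioc (j:ℝ) (j + 1), hs l x * (t * Real.exp (-(t * x)))) +
      ∫ x in Ioi (N:ℝ), hs l x * (t * Real.exp (-(t * x)))) =
      ∑ j ∈ Finset.range N, (hs l (j + 1) * (t * Real.exp (-(t * (j + 1)))) -
      ∫ x in Ioc (j:ℝ) (j + 1), hs l x * (t * Real.exp (-(t * x)))) -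
      ∫ x in Ioi (N:ℝ), hs l x * (t * Real.exp (-(t * x))) := by
    rw [Finset.sum_sub_distrib, Finset.mul_sum]
    have : ∀ j ∈ Finset.range N, t * (hs l (j + 1) * Real.exp (-(t * (j + 1)))) =
        hs l (j + 1) * (t * Real.exp (-(t * (j + 1)))) := fun j _ => by ring
    rw [Finset.sum_congr rfl this]
    ring
  rw [h3]
  exact (abs_sub _ _).trans (add_le_add hsum htail)

end Pool.Agent.H319R3.Littlewood
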