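import Pool.Agent.H319R3.LittlewoodA

set_option autoImplicit false
open MeasureTheory Set Filter Topology Polynomial

namespace Pool.Agent.H319R3.Littlewood

/-- the Littlewood polynomial -/
noncomputable def lp (l : ℝ) (n : ℕ) : ℝ[X] :=
  ∑ j ∈ Finset.range (n + 1), C (hs l (j + 1)) * X ^ j

lemma lp_coeff (l : ℝ) (n j : ℕ) : (lp l n).coeff j = if j ≤ n then hs l (j + 1) else 0 := by
  unfold lp
  rw [finsetSum_coeff]
  simp only [coeff_C_mul, coeff_X_pow, mul_ite, mul_one, mul_zero]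
  rw [Finset.sum_ite_eq]
  simp only [Finset.mem_range, Nat.lt_succ_iff]

lemma lp_natDegree (l : ℝ) (n : ℕ) : (lp l n).natDegree = n := by
  apply natDegree_eq_of_le_of_coeff_ne_zero
  · rw [natDegree_le_iff_coeff_eq_zero]
    intro N hN
    rw [lp_coeff, if_neg (by omega)]
  · rw [lp_coeff, if_pos le_rfl]
    rcases hs_cases l ((n:ℝ) + 1) with h | h <;> rw [h] <;> norm_num

lemma lp_eval (l t : ℝ) (n : ℕ) : Real.exp (-t) * (lp l n).eval (Real.exp (-t)) =
    ∑ j ∈ Finset.range (n + 1), hs l (j + 1) * Real.exp (-(t * (j + 1))) := by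
  unfold lp
  rw [eval_finsetSum, Finset.mul_sum]
  apply Finset.sum_congr rfl
  intro j _
  rw [eval_mul, eval_C, eval_pow, eval_X, ← Real.exp_nat_mul]
  have : Real.exp (-(t * (j + 1))) = Real.exp (-t) * Real.exp (j * -t) := by
    rw [← Real.exp_add]; congr 1; ring
  rw [this]; ring

/-- the error tends to zero -/
lemma err_tendsto (l : ℝ) : Tendsto (fun x : ℝ => x ^ (-(1/4) : ℝ) * (3 + 2 * (Real.log x / l)) +
    Real.exp (-(x ^ (1/4 : ℝ)))) atTop (𝓝 0) := by
  have h1 : Tendsto (fun x : ℝ => x ^ (-(1/4) : ℝ)) atTop (𝓝 0) :=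
    tendsto_rpow_neg_atTop (by norm_num)
  have h2 : Tendsto (fun x : ℝ => Real.log x / x ^ (1/4 : ℝ)) atTop (𝓝 0) :=
    (isLittleO_log_rpow_atTop (by norm_num : (0:ℝ) < 1/4)).tendsto_div_nhds_zero
  have h3 : Tendsto (fun x : ℝ => x ^ (1/4 : ℝ)) atTop atTop := tendsto_rpow_atTop (by norm_num)
  have h4 : Tendsto (fun x : ℝ => Real.exp (-(x ^ (1/4 : ℝ)))) atTop (𝓝 0) :=
    Real.tendsto_exp_neg_atTop_nhds_zero.comp h3
  have h5 : Tendsto (fun x : ℝ => 3 * x ^ (-(1/4) : ℝ) + 2 / l * (Real.log x / x ^ (1/4 : ℝ)) +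
      Real.exp (-(x ^ (1/4 : ℝ)))) atTop (𝓝 (3 * 0 + 2 / l * 0 + 0)) :=
    ((h1.const_mul 3).add (h2.const_mul (2 / l))).add h4
  rw [mul_zero, mul_zero, add_zero, add_zero] at h5
  refine h5.congr' ?_
  filter_upwards [eventually_gt_atTop 0] with x hx
  rw [Real.rpow_neg hx.le]
  ring

/-- key sign statement -/
lemma sign_at {l : ℝ} (hl : 0 < l) {t0 : ℝ} (ht0 : 0 < t0) {n : ℕ}
    (hE : ((n:ℝ) + 1) ^ (-(1/4) : ℝ) * (3 + 2 * (Real.log ((n:ℝ) + 1) / l)) +
      Real.exp (-(((n:ℝ) + 1) ^ (1/4 : ℝ))) < |Phi l t0|) (k : ℕ)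
    (hk1 : ((n:ℝ) + 1) ^ (-(3/4) : ℝ) ≤ t0 * Real.exp (-(l * k)))
    (hk2 : t0 * Real.exp (-(l * k)) ≤ ((n:ℝ) + 1) ^ (-(1/4) : ℝ)) :
    0 < (-1) ^ k * Phi l t0 * (lp l n).eval (Real.exp (-(t0 * Real.exp (-(l * k))))) := by
  set t := t0 * Real.exp (-(l * k)) with ht
  have htpos : 0 < t := by positivity
  have hN : (0:ℝ) < (n:ℝ) + 1 := by positivity
  have hN1 : (1:ℝ) ≤ (n:ℝ) + 1 := by
    have : (0:ℝ) ≤ n := Nat.cast_nonneg n
    linarith
  have hd := disc hl htpos (n + 1) (by omega)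
  push_cast at hd
  have hlog : 0 ≤ Real.log ((n:ℝ) + 1) := Real.log_nonneg hN1
  have hb1 : t * (3 + 2 * (Real.log ((n:ℝ) + 1) / l)) ≤
      ((n:ℝ) + 1) ^ (-(1/4) : ℝ) * (3 + 2 * (Real.log ((n:ℝ) + 1) / l)) := by
    gcongr
  have hb2 : Real.exp (-(t * ((n:ℝ) + 1))) ≤ Real.exp (-(((n:ℝ) + 1) ^ (1/4 : ℝ))) := by
    apply Real.exp_le_exp.2
    apply neg_le_neg
    calc ((n:ℝ) + 1) ^ (1/4 : ℝ) = ((n:ℝ) + 1) ^ (-(3/4) : ℝ) * ((n:ℝ) + 1) := by
          rw [← Real.rpow_add_one hN.ne']; norm_num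
      _ ≤ t * ((n:ℝ) + 1) := by gcongr
  have herr := lt_of_le_of_lt (hd.trans (add_le_add hb1 hb2)) hE
  rw [← lp_eval] at herr
  have hPhi : Phi l t = (-1) ^ k * Phi l t0 := Phi_iter hl t0 k
  have habs : |Phi l t| = |Phi l t0| := by
    rw [hPhi, abs_mul, abs_pow, abs_neg, abs_one, one_pow, one_mul]
  rw [← habs] at herr
  rw [← hPhi]
  -- |y - φ| < |φ| implies y φ > 0
  have key : ∀ y φ : ℝ, |y - φ| < |φ| → 0 < φ * y := by
    intro y φ h
    rcases lt_trichotomy φ 0 with h0 | h0 | h0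
    · rw [abs_of_neg h0, abs_lt] at h
      nlinarith
    · subst h0; simp at h; exact absurd h (not_lt.2 (abs_nonneg y))
    · rw [abs_of_pos h0, abs_lt] at h
      nlinarith
  have h1 := key _ _ herr
  have h2 : 0 < t * Real.exp (-t) := by positivity
  have h3 : 0 < (t * Real.exp (-t)) * (Phi l t * (lp l n).eval (Real.exp (-t))) := by
    calc 0 < Phi l t * (t * (Real.exp (-t) * (lp l n).eval (Real.exp (-t)))) := h1
      _ = _ := by ring
  exact (pos_iff_pos_of_mul_pos h3).1 h2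

/-- many zeros -/
lemma zeros {l : ℝ} (hl : 0 < l) {t0 : ℝ} (ht0 : 0 < t0) {n : ℕ} {k0 M : ℕ}
    (hS : ∀ i ≤ M, 0 < (-1) ^ (k0 + i) * Phi l t0 *
      (lp l n).eval (Real.exp (-(t0 * Real.exp (-(l * ((k0 + i : ℕ) : ℝ))))))) :
    M ≤ ((lp l n).roots.toFinset.filter (fun x => 0 < x ∧ x < 1)).card := by
  set z : ℕ → ℝ := fun i => Real.exp (-(t0 * Real.exp (-(l * ((k0 + i : ℕ) : ℝ))))) with hz
  have hzmono : StrictMono z := by
    intro i j hij
    simp only [hz]
    apply Real.exp_lt_exp.2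
    apply neg_lt_neg
    apply mul_lt_mul_of_pos_left _ ht0
    apply Real.exp_lt_exp.2
    apply neg_lt_neg
    apply mul_lt_mul_of_pos_left _ hl
    exact_mod_cast (by omega : k0 + i < k0 + j)
  have hz01 : ∀ i, 0 < z i ∧ z i < 1 := fun i =>
    ⟨Real.exp_pos _, Real.exp_lt_one_iff.2 (by
      have : 0 < t0 * Real.exp (-(l * ((k0 + i : ℕ) : ℝ))) := by positivity
      linarith)⟩
  have hex : ∀ i < M, ∃ r ∈ Ioo (z i) (z (i + 1)), (lp l n).eval r = 0 := by
    intro i hi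
    have h1 := hS i hi.le
    have h2 := hS (i + 1) hi
    have hcont : ContinuousOn (fun x => (-1) ^ (k0 + i) * Phi l t0 * (lp l n).eval x)
        (Icc (z i) (z (i + 1))) := by fun_prop
    have h3 := intermediate_value_Ioo' (hzmono (Nat.lt_succ_self i)).le hcont
    have h4 : (0:ℝ) ∈ Ioo ((-1) ^ (k0 + i) * Phi l t0 * (lp l n).eval (z (i + 1)))
        ((-1) ^ (k0 + i) * Phi l t0 * (lp l n).eval (z i)) := by
      refine ⟨?_, h1⟩
      have h5 : (-1 : ℝ) ^ (k0 + (i + 1)) = - (-1) ^ (k0 + i) := by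
        rw [← add_assoc, pow_succ]; ring
      rw [h5] at h2
      simp only [hz]
      linarith
    obtain ⟨r, hr, hr0⟩ := h3 h4
    refine ⟨r, hr, ?_⟩
    have h6 : (-1 : ℝ) ^ (k0 + i) * Phi l t0 ≠ 0 := by
      intro h7
      rw [h7, zero_mul] at h1
      exact lt_irrefl _ h1
    exact (mul_eq_zero.1 hr0).resolve_left h6
  choose! r hr hr0 using hex
  have hinj : Set.InjOn r (Finset.range M : Set ℕ) := by
    have hlt : ∀ i j, i < j → j < M → r i < r j := by
      intro i j hij hj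
      have h1 := (hr i (by omega)).2
      have h2 := (hr j hj).1
      have h3 : z (i + 1) ≤ z j := hzmono.monotone hij
      linarith
    intro i hi j hj hij
    rw [Finset.mem_coe, Finset.mem_range] at hi hj
    rcases lt_trichotomy i j with h | h | h
    · exact absurd hij (hlt i j h hj).ne
    · exact h
    · exact absurd hij (hlt j i h hi).ne'
  have hsub : (Finset.range M).image r ⊆
      (lp l n).roots.toFinset.filter (fun x => 0 < x ∧ x < 1) := by
    intro x hx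
    rw [Finset.mem_image] at hx
    obtain ⟨i, hi, rfl⟩ := hx
    rw [Finset.mem_range] at hi
    rw [Finset.mem_filter, Multiset.mem_toFinset, mem_roots']
    have hne : lp l n ≠ 0 := by
      intro h0
      have := lp_coeff l n 0
      rw [h0, coeff_zero, if_pos (Nat.zero_le _)] at this
      rcases hs_cases l (((0:ℕ):ℝ) + 1) with h | h <;> rw [h] at this <;> norm_num at this
    exact ⟨⟨hne, hr0 i hi⟩, by linarith [(hz01 i).1, (hr i hi).1],
      by linarith [(hz01 (i + 1)).2, (hr i hi).2]⟩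
  calc M = ((Finset.range M).image r).card := by
        rw [Finset.card_image_of_injOn hinj, Finset.card_range]
    _ ≤ _ := Finset.card_le_card hsub

theorem main {c : ℝ} (hc : 0 < c) : ∀ᶠ n : ℕ in atTop, ∃ l : ℝ,
    c * Real.log n < (((lp l n).roots.toFinset.filter (fun x => 0 < x ∧ x < 1)).card : ℝ) := by
  set l := 1 / (4 * c) with hldef
  have hl : 0 < l := by positivity
  obtain ⟨t0, ht0, hne⟩ := Phi_ne hl
  have hδ : 0 < |Phi l t0| := abs_pos.2 hne
  have hcast : Tendsto (fun n : ℕ => (n:ℝ) + 1) atTop atTop :=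
    tendsto_atTop_add_const_right _ _ tendsto_natCast_atTop_atTop
  have hlogt : Tendsto (fun n : ℕ => Real.log ((n:ℝ) + 1)) atTop atTop :=
    Real.tendsto_log_atTop.comp hcast
  have e1 := ((err_tendsto l).comp hcast).eventually_lt_const hδ
  have e2 := hlogt.eventually_ge_atTop (4 * |Real.log t0|)
  have e3 := hlogt.eventually_ge_atTop (4 / c)
  have e4 := hlogt.eventually_ge_atTop (4 * l)
  filter_upwards [e1, e2, e3, e4, eventually_ge_atTop 1] with n h1 h2 h3 h4 hn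
  refine ⟨l, ?_⟩
  set L := Real.log ((n:ℝ) + 1) with hL
  have hN : (0:ℝ) < (n:ℝ) + 1 := by positivity
  set A := (Real.log t0 + L / 4) / l with hA
  have hA0 : 0 ≤ A := by
    apply div_nonneg _ hl.le
    have := neg_abs_le (Real.log t0)
    linarith
  set k0 := ⌈A⌉₊ with hk0
  set M := ⌊L / (2 * l) - 1⌋₊ with hM
  have hk0a : A ≤ k0 := Nat.le_ceil A
  have hk0b : (k0:ℝ) < A + 1 := Nat.ceil_lt_add_one hA0
  have hLl : 0 ≤ L / (2 * l) - 1 := by
    rw [sub_nonneg, le_div_iff₀ (by positivity)]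
    linarith
  have hMa : (M:ℝ) ≤ L / (2 * l) - 1 := Nat.floor_le hLl
  have hMb : L / (2 * l) - 1 < (M:ℝ) + 1 := Nat.lt_floor_add_one _
  have hexpL : (n:ℝ) + 1 = Real.exp L := (Real.exp_log hN).symm
  have hS : ∀ i ≤ M, 0 < (-1) ^ (k0 + i) * Phi l t0 *
      (lp l n).eval (Real.exp (-(t0 * Real.exp (-(l * ((k0 + i : ℕ) : ℝ)))))) := by
    intro i hi
    have hi' : (i:ℝ) ≤ M := by exact_mod_cast hi
    have hi0 : (0:ℝ) ≤ i := Nat.cast_nonneg i
    have ht0e : t0 * Real.exp (-(l * ((k0 + i : ℕ) : ℝ))) =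
        Real.exp (Real.log t0 - l * ((k0 + i : ℕ) : ℝ)) := by
      rw [sub_eq_add_neg, Real.exp_add, Real.exp_log ht0]
    have hAl : A * l = Real.log t0 + L / 4 := by
      rw [hA]; field_simp
    have hBl : (L / (2 * l)) * l = L / 2 := by field_simp
    apply sign_at hl ht0 h1
    · rw [ht0e, hexpL, ← Real.exp_mul]
      apply Real.exp_le_exp.2
      push_cast
      nlinarith
    · rw [ht0e, hexpL, ← Real.exp_mul]
      apply Real.exp_le_exp.2
      push_cast
      nlinarith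
  have hz := zeros hl ht0 hS
  have hz' : (M:ℝ) ≤ (((lp l n).roots.toFinset.filter (fun x => 0 < x ∧ x < 1)).card : ℝ) := by
    exact_mod_cast hz
  refine lt_of_lt_of_le ?_ hz'
  have hnle : Real.log n ≤ L := Real.log_le_log (by exact_mod_cast hn) (by linarith)
  have h5 : L / (2 * l) = 2 * c * L := by rw [hldef]; field_simp; ring
  have h6 : 4 ≤ c * L := by
    rw [div_le_iff₀ hc] at h3; linarith
  have h7 : c * Real.log n ≤ c * L := by gcongr
  nlinarith

end Pool.Agent.H319R3.Littlewood
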