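import Mathlib

set_option autoImplicit false

namespace Pool.Agent.H319R3.Maxwell

/-- ambient space `ℝ⁴` -/
abbrev E : Type := EuclideanSpace ℝ (Fin 4)

/-- the charges: the four unit coordinate vectors -/
noncomputable def pt (i : Fin 4) : E := EuclideanSpace.single i (1 : ℝ)

lemma pt_apply (i j : Fin 4) : pt i j = if j = i then 1 else 0 := by
  unfold pt
  simp

lemma pt_injective : Function.Injective pt := by
  intro i j h
  by_contra hij
  have h1 := congrArg (fun x : E => x i) h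
  simp only [pt_apply] at h1
  simp [hij] at h1

/-- `D_i(x) = ‖x - e_i‖^2 = ‖x‖^2 + 1 - 2 x_i` -/
lemma norm_sub_sq_eq (x : E) (i : Fin 4) :
    ‖x - pt i‖ ^ 2 = (1 + ∑ j, x j ^ 2) - 2 * x i := by
  rw [@norm_sub_sq_real, EuclideanSpace.real_norm_sq_eq]
  unfold pt
  simp [EuclideanSpace.inner_single_right]
  ring

/-- the potential -/
noncomputable def V (z : E) : ℝ := ∑ i, (1 : ℝ) / ‖z - pt i‖ ^ 2

lemma hasFDerivAt_V {x : E} (hx : ∀ i, x ≠ pt i) :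
    HasFDerivAt V (∑ i, (-(‖x - pt i‖ ^ 2) ^ 2)⁻¹ • ((2:ℝ) • innerSL ℝ (x - pt i))) x := by
  unfold V
  apply HasFDerivAt.fun_sum
  intro i _
  have h1 : HasFDerivAt (fun z : E => z - pt i) (ContinuousLinearMap.id ℝ E) x :=
    (hasFDerivAt_id x).sub_const _
  have h2 := h1.norm_sq
  have hne : ‖x - pt i‖ ^ 2 ≠ 0 := by
    have := norm_ne_zero_iff.2 (sub_ne_zero.2 (hx i))
    positivity
  have h3 := (hasDerivAt_inv hne).comp_hasFDerivAt x h2
  have h4 : (fun z : E => (1:ℝ) / ‖z - pt i‖ ^ 2) = (fun y : ℝ => y⁻¹) ∘ fun z : E => ‖z - pt i‖ ^ 2 := by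
    funext z; simp
  rw [h4]
  refine h3.congr_fderiv ?_
  ext v
  simp

/-- The critical point equations. -/
lemma crit_iff {x : E} (hx : ∀ i, x ≠ pt i) :
    fderiv ℝ V x = 0 ↔ ∀ j, x j * ∑ i, ((‖x - pt i‖ ^ 2) ^ 2)⁻¹ = ((‖x - pt j‖ ^ 2) ^ 2)⁻¹ := by
  rw [(hasFDerivAt_V hx).fderiv]
  constructor
  · intro h j
    have h1 := congrArg (fun L : E →L[ℝ] ℝ => L (EuclideanSpace.single j (1:ℝ))) h
    simp only [_root_.sum_apply, _root_.smul_apply, innerSL_apply_apply,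
      _root_.zero_apply, smul_eq_mul] at h1
    have h2 : ∀ i, inner ℝ (x - pt i) (EuclideanSpace.single j (1:ℝ)) = x j - (if j = i then 1 else 0) := by
      intro i
      rw [EuclideanSpace.inner_single_right]
      simp [pt_apply]
    simp_rw [h2] at h1
    have h3 : ∑ i, (-(‖x - pt i‖ ^ 2) ^ 2)⁻¹ * (2 * (x j - if j = i then 1 else 0)) =
        -2 * (x j * ∑ i, ((‖x - pt i‖ ^ 2) ^ 2)⁻¹ - ((‖x - pt j‖ ^ 2) ^ 2)⁻¹) := by
      have h4 : ((‖x - pt j‖ ^ 2) ^ 2)⁻¹ = ∑ i, if j = i then ((‖x - pt i‖ ^ 2) ^ 2)⁻¹ else 0 := by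
        simp
      rw [h4, Finset.mul_sum, ← Finset.sum_sub_distrib, Finset.mul_sum]
      apply Finset.sum_congr rfl
      intro i _
      rw [inv_neg]
      split_ifs <;> ring
    rw [h3] at h1
    linarith
  · intro h
    ext v
    simp only [_root_.sum_apply, _root_.smul_apply, innerSL_apply_apply,
      _root_.zero_apply, smul_eq_mul]
    have h2 : ∀ i, inner ℝ (x - pt i) v = ∑ j, (x j - (if j = i then 1 else 0)) * v j := by
      intro i
      rw [PiLp.inner_apply]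
      apply Finset.sum_congr rfl
      intro j _
      simp [pt_apply]
      ring
    simp_rw [h2]
    have h3 : ∑ i, (-(‖x - pt i‖ ^ 2) ^ 2)⁻¹ * (2 * ∑ j, (x j - if j = i then 1 else 0) * v j) =
        ∑ j, (-2 * v j) * (x j * ∑ i, ((‖x - pt i‖ ^ 2) ^ 2)⁻¹ - ((‖x - pt j‖ ^ 2) ^ 2)⁻¹) := by
      have h4 : ∀ j, ((‖x - pt j‖ ^ 2) ^ 2)⁻¹ = ∑ i, if j = i then ((‖x - pt i‖ ^ 2) ^ 2)⁻¹ else 0 := by
        intro j; simp
      calc ∑ i, (-(‖x - pt i‖ ^ 2) ^ 2)⁻¹ * (2 * ∑ j, (x j - if j = i then 1 else 0) * v j)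
          = ∑ i, ∑ j, (-2 * v j) * (x j * ((‖x - pt i‖ ^ 2) ^ 2)⁻¹ -
              if j = i then ((‖x - pt i‖ ^ 2) ^ 2)⁻¹ else 0) := by
            apply Finset.sum_congr rfl
            intro i _
            rw [Finset.mul_sum, Finset.mul_sum]
            apply Finset.sum_congr rfl
            intro j _
            rw [inv_neg]
            split_ifs <;> ring
        _ = ∑ j, ∑ i, (-2 * v j) * (x j * ((‖x - pt i‖ ^ 2) ^ 2)⁻¹ -
              if j = i then ((‖x - pt i‖ ^ 2) ^ 2)⁻¹ else 0) := Finset.sum_comm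
        _ = _ := by
            apply Finset.sum_congr rfl
            intro j _
            rw [← Finset.mul_sum, Finset.sum_sub_distrib, ← Finset.mul_sum, ← h4 j]
    rw [h3]
    apply Finset.sum_eq_zero
    intro j _
    rw [h j, sub_self, mul_zero]

/-- Sufficient condition for criticality. -/
lemma crit_of {x : E} (hx : ∀ i, x ≠ pt i) {l : ℝ} (hl : l ≠ 0) (hsum : ∑ j, x j = 1)
    (h : ∀ j, x j * ((1 + ∑ j, x j ^ 2) - 2 * x j) ^ 2 = l) : fderiv ℝ V x = 0 := by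
  rw [crit_iff hx]
  have h1 : ∀ j, ((‖x - pt j‖ ^ 2) ^ 2)⁻¹ = x j / l := by
    intro j
    have h2 : (‖x - pt j‖ ^ 2) ^ 2 ≠ 0 := by
      have := norm_ne_zero_iff.2 (sub_ne_zero.2 (hx j))
      positivity
    have h3 := h j
    rw [← norm_sub_sq_eq] at h3
    rw [eq_div_iff hl, ← h3]
    rw [mul_comm, mul_assoc, mul_inv_cancel₀ h2, mul_one]
  intro j
  simp_rw [h1]
  rw [← Finset.sum_div, hsum]
  ring

/-- Consequences of criticality. -/
lemma of_crit {x : E} (hx : ∀ i, x ≠ pt i) (h : fderiv ℝ V x = 0) :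
    ∑ j, x j = 1 ∧ ∃ l : ℝ, 0 < l ∧ ∀ j, 0 < x j ∧ 0 < (1 + ∑ j, x j ^ 2) - 2 * x j ∧
      x j * ((1 + ∑ j, x j ^ 2) - 2 * x j) ^ 2 = l := by
  rw [crit_iff hx] at h
  have hpos : ∀ j, 0 < ‖x - pt j‖ ^ 2 := by
    intro j
    have := norm_pos_iff.2 (sub_ne_zero.2 (hx j))
    positivity
  set W := ∑ i, ((‖x - pt i‖ ^ 2) ^ 2)⁻¹ with hW
  have hWpos : 0 < W := by
    apply Finset.sum_pos
    · intro i _
      have := hpos i
      positivity
    · exact Finset.univ_nonempty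
  refine ⟨?_, W⁻¹, by positivity, ?_⟩
  · have h1 : (∑ j, x j) * W = W := by
      rw [Finset.sum_mul]
      calc ∑ j, x j * W = ∑ j, ((‖x - pt j‖ ^ 2) ^ 2)⁻¹ := Finset.sum_congr rfl fun j _ => h j
        _ = W := rfl
    exact mul_right_cancel₀ hWpos.ne' (by rw [h1, one_mul])
  · intro j
    have h1 := hpos j
    have h2 := h j
    rw [← norm_sub_sq_eq]
    refine ⟨?_, h1, ?_⟩
    · have h3 : 0 < x j * W := by rw [h2]; positivity
      exact (pos_iff_pos_of_mul_pos h3).2 hWpos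
    · have h3 : (‖x - pt j‖ ^ 2) ^ 2 ≠ 0 := by positivity
      have h4 : x j * W * (‖x - pt j‖ ^ 2) ^ 2 = 1 := by rw [h2, inv_mul_cancel₀ h3]
      apply eq_inv_of_mul_eq_one_left
      rw [← h4]
      ring

/-- Three coordinates of a critical point cannot be pairwise distinct. -/
lemma no_three {S x y z l : ℝ} (hx : 0 < S - 2 * x) (hy : 0 < S - 2 * y) (hz : 0 < S - 2 * z)
    (ex : x * (S - 2 * x) ^ 2 = l) (ey : y * (S - 2 * y) ^ 2 = l) (ez : z * (S - 2 * z) ^ 2 = l)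
    (hxy : x ≠ y) (hxz : x ≠ z) (hyz : y ≠ z) : False := by
  have h1 : 4 * (x^2 + x*y + y^2) - 4 * S * (x + y) + S^2 = 0 := by
    have : (x - y) * (4 * (x^2 + x*y + y^2) - 4 * S * (x + y) + S^2) = 0 := by
      linear_combination ex - ey
    rcases mul_eq_zero.1 this with h | h
    · exact absurd (sub_eq_zero.1 h) hxy
    · exact h
  have h2 : 4 * (x^2 + x*z + z^2) - 4 * S * (x + z) + S^2 = 0 := by
    have : (x - z) * (4 * (x^2 + x*z + z^2) - 4 * S * (x + z) + S^2) = 0 := by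
      linear_combination ex - ez
    rcases mul_eq_zero.1 this with h | h
    · exact absurd (sub_eq_zero.1 h) hxz
    · exact h
  have h3 : x + y + z = S := by
    have : (y - z) * (x + y + z - S) = 0 := by linear_combination (h1 - h2) / 4
    rcases mul_eq_zero.1 this with h | h
    · exact absurd (sub_eq_zero.1 h) hyz
    · linarith
  subst h3
  have p1 : 0 < y + z - x := by linarith
  have p2 : 0 < x + z - y := by linarith
  have p3 : 0 < x + y - z := by linarith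
  have h4 := mul_pos p1 p2
  have h5 := mul_pos p1 p3
  have h6 := mul_pos p2 p3
  nlinarith

/-- two large and two small coordinates -/
lemma two_two {a b c0 : ℝ} (hc0 : 4 * c0 ^ 2 + 3/4 = Real.sqrt 3 / 2) (hab : 2 * a + 2 * b = 1)
    (h : a * ((1 + (2 * a^2 + 2 * b^2)) - 2 * a) ^ 2 = b * ((1 + (2 * a^2 + 2 * b^2)) - 2 * b) ^ 2)
    (hne : a ≠ b) : (a = 1/4 + c0 ∨ a = 1/4 - c0) ∧ (b = 1/4 + c0 ∨ b = 1/4 - c0) := by
  have hb : b = 1/2 - a := by linarith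
  subst hb
  set c := a - 1/4 with hc
  have ha : a = 1/4 + c := by rw [hc]; ring
  rw [ha] at h
  have hc' : c ≠ 0 := by
    intro h0
    apply hne
    rw [ha, h0]; norm_num
  have h1 : c * ((3/4 + 4 * c^2) ^ 2 - 3/4) = 0 := by linear_combination h / 2
  rcases mul_eq_zero.1 h1 with h2 | h2
  · exact absurd h2 hc'
  · have h3 : (3/4 + 4 * c^2) = Real.sqrt 3 / 2 := by
      have h4 : (Real.sqrt 3 / 2) ^ 2 = 3/4 := by
        rw [div_pow, Real.sq_sqrt (by norm_num)]; norm_num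
      have h5 : (3/4 + 4 * c^2) ^ 2 = (Real.sqrt 3 / 2) ^ 2 := by linarith
      exact (sq_eq_sq₀ (by positivity) (by positivity)).1 h5
    have h6 : c ^ 2 = c0 ^ 2 := by linarith
    rcases sq_eq_sq_iff_eq_or_eq_neg.1 h6 with h7 | h7
    · exact ⟨Or.inl (by linarith), Or.inr (by linarith)⟩
    · exact ⟨Or.inr (by linarith), Or.inl (by linarith)⟩

/-- three equal coordinates -/
lemma three_one {a b t0 : ℝ} (ht0 : 36 * t0 ^ 3 - 12 * t0 ^ 2 + 4 * t0 - 1 = 0)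
    (hab : 3 * a + b = 1)
    (h : a * ((1 + (3 * a^2 + b^2)) - 2 * a) ^ 2 = b * ((1 + (3 * a^2 + b^2)) - 2 * b) ^ 2)
    (ha0 : 0 < a) (hne : a ≠ b) : a = t0 ∧ b = 1 - 3 * t0 := by
  have hb : b = 1 - 3 * a := by linarith
  subst hb
  have h1 : a * (4 * a - 1) * (36 * a^3 - 12 * a^2 + 4 * a - 1) = 0 := by
    linear_combination h / 4
  have h2 : 36 * a^3 - 12 * a^2 + 4 * a - 1 = 0 := by
    rcases mul_eq_zero.1 h1 with h2 | h2
    · rcases mul_eq_zero.1 h2 with h3 | h3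
      · exact absurd h3 ha0.ne'
      · exact absurd (by linarith) hne
    · exact h2
  have h3 : (a - t0) * (36 * (a^2 + a * t0 + t0^2) - 12 * (a + t0) + 4) = 0 := by
    linear_combination h2 - ht0
  have h4 : 0 < 36 * (a^2 + a * t0 + t0^2) - 12 * (a + t0) + 4 := by
    nlinarith [sq_nonneg (a + t0 - 2/9), sq_nonneg (a - t0), sq_nonneg (a + t0)]
  rcases mul_eq_zero.1 h3 with h5 | h5
  · have : a = t0 := by linarith
    exact ⟨this, by rw [this]⟩
  · exact absurd h5 h4.ne'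

/-- the five possible values of a coordinate of a critical point -/
def T (c0 t0 : ℝ) : Set ℝ := {1/4, 1/4 + c0, 1/4 - c0, t0, 1 - 3 * t0}

lemma T_finite (c0 t0 : ℝ) : (T c0 t0).Finite := by
  unfold T
  exact Set.toFinite _

lemma classify {x0 x1 x2 x3 l c0 t0 : ℝ} (hc0 : 4 * c0 ^ 2 + 3/4 = Real.sqrt 3 / 2)
    (ht0 : 36 * t0 ^ 3 - 12 * t0 ^ 2 + 4 * t0 - 1 = 0) (hsum : x0 + x1 + x2 + x3 = 1)
    {S : ℝ} (hS : S = 1 + (x0^2 + x1^2 + x2^2 + x3^2))
    (p0 : 0 < x0) (p1 : 0 < x1)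
    (d0 : 0 < S - 2 * x0) (d1 : 0 < S - 2 * x1) (d2 : 0 < S - 2 * x2) (d3 : 0 < S - 2 * x3)
    (e0 : x0 * (S - 2 * x0) ^ 2 = l) (e1 : x1 * (S - 2 * x1) ^ 2 = l)
    (e2 : x2 * (S - 2 * x2) ^ 2 = l) (e3 : x3 * (S - 2 * x3) ^ 2 = l) :
    x0 ∈ T c0 t0 ∧ x1 ∈ T c0 t0 ∧ x2 ∈ T c0 t0 ∧ x3 ∈ T c0 t0 := by
  have m0 : (1/4 : ℝ) ∈ T c0 t0 := by simp [T]
  have mc : ∀ a, (a = 1/4 + c0 ∨ a = 1/4 - c0) → a ∈ T c0 t0 := by
    rintro a (h | h) <;> simp [T, h]
  have mt : t0 ∈ T c0 t0 := by simp [T]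
  have mt' : 1 - 3 * t0 ∈ T c0 t0 := by simp [T]
  rcases eq_or_ne x0 x1 with h01 | h01 <;> rcases eq_or_ne x0 x2 with h02 | h02 <;>
    rcases eq_or_ne x0 x3 with h03 | h03
  · subst h01 h02 h03
    have : x0 = 1/4 := by linarith
    rw [this]; exact ⟨m0, m0, m0, m0⟩
  · subst h01 h02
    obtain ⟨h1, h2⟩ := three_one (a := x0) (b := x3) ht0 (by linarith)
      (by rw [show 1 + (3 * x0 ^ 2 + x3 ^ 2) = S by rw [hS]; ring]; rw [e0, e3]) p0 h03
    rw [h1, h2]; exact ⟨mt, mt, mt, mt'⟩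
  · subst h01 h03
    obtain ⟨h1, h2⟩ := three_one (a := x0) (b := x2) ht0 (by linarith)
      (by rw [show 1 + (3 * x0 ^ 2 + x2 ^ 2) = S by rw [hS]; ring]; rw [e0, e2]) p0 h02
    rw [h1, h2]; exact ⟨mt, mt, mt', mt⟩
  · have h23 : x2 = x3 := by
      by_contra h23
      exact no_three d0 d2 d3 e0 e2 e3 h02 h03 h23
    subst h01 h23
    obtain ⟨h1, h2⟩ := two_two (a := x0) (b := x2) hc0 (by linarith)
      (by rw [show 1 + (2 * x0 ^ 2 + 2 * x2 ^ 2) = S by rw [hS]; ring]; rw [e0, e2]) h02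
    exact ⟨mc _ h1, mc _ h1, mc _ h2, mc _ h2⟩
  · subst h02 h03
    obtain ⟨h1, h2⟩ := three_one (a := x0) (b := x1) ht0 (by linarith)
      (by rw [show 1 + (3 * x0 ^ 2 + x1 ^ 2) = S by rw [hS]; ring]; rw [e0, e1]) p0 h01
    rw [h1, h2]; exact ⟨mt, mt', mt, mt⟩
  · have h13 : x1 = x3 := by
      by_contra h13
      exact no_three d0 d1 d3 e0 e1 e3 h01 h03 h13
    subst h02 h13
    obtain ⟨h1, h2⟩ := two_two (a := x0) (b := x1) hc0 (by linarith)
      (by rw [show 1 + (2 * x0 ^ 2 + 2 * x1 ^ 2) = S by rw [hS]; ring]; rw [e0, e1]) h01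
    exact ⟨mc _ h1, mc _ h2, mc _ h1, mc _ h2⟩
  · have h12 : x1 = x2 := by
      by_contra h12
      exact no_three d0 d1 d2 e0 e1 e2 h01 h02 h12
    subst h03 h12
    obtain ⟨h1, h2⟩ := two_two (a := x0) (b := x1) hc0 (by linarith)
      (by rw [show 1 + (2 * x0 ^ 2 + 2 * x1 ^ 2) = S by rw [hS]; ring]; rw [e0, e1]) h01
    exact ⟨mc _ h1, mc _ h2, mc _ h2, mc _ h1⟩
  · have h12 : x1 = x2 := by
      by_contra h12
      exact no_three d0 d1 d2 e0 e1 e2 h01 h02 h12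
    have h13 : x1 = x3 := by
      by_contra h13
      exact no_three d0 d1 d3 e0 e1 e3 h01 h03 h13
    subst h12 h13
    obtain ⟨h1, h2⟩ := three_one (a := x1) (b := x0) ht0 (by linarith)
      (by rw [show 1 + (3 * x1 ^ 2 + x0 ^ 2) = S by rw [hS]; ring]; rw [e0, e1]) p1 (Ne.symm h01)
    rw [h1, h2]; exact ⟨mt', mt, mt, mt⟩

/-- All critical points have coordinates in an explicit set of five numbers. -/
lemma coords {x : E} {c0 t0 : ℝ} (hc0 : 4 * c0 ^ 2 + 3/4 = Real.sqrt 3 / 2)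
    (ht0 : 36 * t0 ^ 3 - 12 * t0 ^ 2 + 4 * t0 - 1 = 0) (hx : ∀ i, x ≠ pt i)
    (h : fderiv ℝ V x = 0) (j : Fin 4) : x j ∈ T c0 t0 := by
  obtain ⟨hsum, l, hl, hall⟩ := of_crit hx h
  have a0 := hall 0
  have a1 := hall 1
  have a2 := hall 2
  have a3 := hall 3
  simp only [Fin.sum_univ_four] at hsum a0 a1 a2 a3
  have key := classify hc0 ht0 hsum rfl a0.1 a1.1 a0.2.1 a1.2.1 a2.2.1 a3.2.1 a0.2.2 a1.2.2
    a2.2.2 a3.2.2
  fin_cases j
  · exact key.1
  · exact key.2.1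
  · exact key.2.2.1
  · exact key.2.2.2

/-- The critical set is finite. -/
lemma crit_finite {c0 t0 : ℝ} (hc0 : 4 * c0 ^ 2 + 3/4 = Real.sqrt 3 / 2)
    (ht0 : 36 * t0 ^ 3 - 12 * t0 ^ 2 + 4 * t0 - 1 = 0) :
    {x : E | (∀ i, x ≠ pt i) ∧ fderiv ℝ V x = 0}.Finite := by
  have h1 : (Set.pi Set.univ (fun _ : Fin 4 => T c0 t0)).Finite :=
    Set.Finite.pi fun _ => T_finite c0 t0
  have h2 : {x : E | (∀ i, x ≠ pt i) ∧ fderiv ℝ V x = 0} ⊆
      (fun x : E => (WithLp.ofLp x : Fin 4 → ℝ)) ⁻¹' (Set.pi Set.univ (fun _ : Fin 4 => T c0 t0)) := by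
    rintro x ⟨hx, h⟩ j _
    exact coords hc0 ht0 hx h j
  refine (h1.preimage ?_).subset h2
  exact (WithLp.ofLp_injective 2).injOn

/-- the critical points attached to subsets of `{0,1,2,3}` of size 2 and 3 -/
noncomputable def P (c0 t0 : ℝ) (J : Finset (Fin 4)) : E :=
  WithLp.toLp 2 fun j => if J.card = 2 then (if j ∈ J then 1/4 + c0 else 1/4 - c0)
    else (if j ∈ J then t0 else 1 - 3 * t0)

lemma sum_two_valued (J : Finset (Fin 4)) (u v : ℝ) :
    ∑ j, (if j ∈ J then u else v) = J.card * u + (4 - J.card) * v := by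
  rw [← Finset.sum_add_sum_compl J]
  have h1 : ∑ i ∈ J, (if i ∈ J then u else v) = J.card * u := by
    rw [Finset.sum_congr rfl (fun i hi => if_pos hi), Finset.sum_const, nsmul_eq_mul]
  have h2 : ∑ i ∈ Jᶜ, (if i ∈ J then u else v) = (4 - J.card) * v := by
    rw [Finset.sum_congr rfl (fun i hi => if_neg (by simpa using hi)), Finset.sum_const,
      nsmul_eq_mul, Finset.card_compl]
    have : J.card ≤ 4 := by simpa using J.card_le_univ
    rw [Fintype.card_fin, Nat.cast_sub this]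
    norm_num
  rw [h1, h2]

lemma crit_two_valued (J : Finset (Fin 4)) {u v : ℝ}
    (hsum : J.card * u + (4 - J.card) * v = 1) (hu1 : u < 1) (hv1 : v < 1)
    (hu : u * ((1 + (J.card * u^2 + (4 - J.card) * v^2)) - 2 * u) ^ 2 ≠ 0)
    (huv : u * ((1 + (J.card * u^2 + (4 - J.card) * v^2)) - 2 * u) ^ 2 =
      v * ((1 + (J.card * u^2 + (4 - J.card) * v^2)) - 2 * v) ^ 2) {x : E}
    (hx : ∀ j, x j = if j ∈ J then u else v) :
    (∀ i, x ≠ pt i) ∧ fderiv ℝ V x = 0 := by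
  have h0 : ∀ i, x ≠ pt i := by
    intro i hi
    have h1 : x i = 1 := by rw [hi, pt_apply, if_pos rfl]
    rw [hx i] at h1
    split_ifs at h1 <;> linarith
  refine ⟨h0, ?_⟩
  have hsq : ∑ j, x j ^ 2 = J.card * u^2 + (4 - J.card) * v^2 := by
    rw [← sum_two_valued]
    apply Finset.sum_congr rfl
    intro j _
    rw [hx j]
    split_ifs <;> rfl
  apply crit_of h0 hu
  · simp_rw [hx]
    rw [sum_two_valued, hsum]
  · intro j
    rw [hsq, hx j]
    split_ifs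
    · rfl
    · exact huv.symm

lemma P_apply (c0 t0 : ℝ) (J : Finset (Fin 4)) (j : Fin 4) : P c0 t0 J j =
    if J.card = 2 then (if j ∈ J then 1/4 + c0 else 1/4 - c0)
    else (if j ∈ J then t0 else 1 - 3 * t0) := rfl

lemma P_crit {c0 t0 : ℝ} (hc0 : 4 * c0 ^ 2 + 3/4 = Real.sqrt 3 / 2) (hcpos : 0 < c0)
    (ht0 : 36 * t0 ^ 3 - 12 * t0 ^ 2 + 4 * t0 - 1 = 0) (ht1 : 1/4 < t0) (ht2 : t0 < 1/3)
    {J : Finset (Fin 4)} (hJ : J.card = 2 ∨ J.card = 3) :
    (∀ i, P c0 t0 J ≠ pt i) ∧ fderiv ℝ V (P c0 t0 J) = 0 := by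
  rcases hJ with hJ | hJ
  · have hA : (Real.sqrt 3 / 2) ^ 2 = 3/4 := by
      rw [div_pow, Real.sq_sqrt (by norm_num)]; norm_num
    have hs : Real.sqrt 3 / 2 < 1 := by nlinarith [Real.sqrt_nonneg 3]
    have hc1 : c0 < 1/4 := by nlinarith
    have hcA : (4 * c0 ^ 2 + 3/4) ^ 2 = 3/4 := by rw [hc0, hA]
    apply crit_two_valued J (u := 1/4 + c0) (v := 1/4 - c0)
    · rw [hJ]; push_cast; ring
    · linarith
    · linarith
    · rw [hJ]
      have h1 : 0 < 1/4 + c0 := by linarith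
      have h2 : 0 < (1 + (((2:ℕ):ℝ) * (1/4 + c0)^2 + (4 - ((2:ℕ):ℝ)) * (1/4 - c0)^2)) -
          2 * (1/4 + c0) := by
        push_cast
        nlinarith [sq_nonneg (1/2 - 2 * c0)]
      positivity
    · rw [hJ]
      push_cast
      linear_combination 2 * c0 * hcA
    · intro j
      rw [P_apply, if_pos hJ]
  · apply crit_two_valued J (u := t0) (v := 1 - 3 * t0)
    · rw [hJ]; push_cast; ring
    · linarith
    · linarith
    · rw [hJ]
      have h1 : 0 < t0 := by linarith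
      have h2 : 0 < (1 + (((3:ℕ):ℝ) * t0^2 + (4 - ((3:ℕ):ℝ)) * (1 - 3 * t0)^2)) - 2 * t0 := by
        push_cast
        nlinarith [sq_nonneg (t0 - 1/3)]
      positivity
    · rw [hJ]
      push_cast
      linear_combination 4 * t0 * (4 * t0 - 1) * ht0
    · intro j
      rw [P_apply, if_neg (by omega)]

lemma P_gt {c0 t0 : ℝ} (hcpos : 0 < c0) (ht1 : 1/4 < t0) (J : Finset (Fin 4)) (j : Fin 4) :
    1/4 < P c0 t0 J j ↔ j ∈ J := by
  rw [P_apply]
  split_ifs with h1 h2 h3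
  · simp only [h2, iff_true]; linarith
  · simp only [h2, iff_false, not_lt]; linarith
  · simp only [h3, iff_true]; exact ht1
  · simp only [h3, iff_false, not_lt]; linarith

lemma P_inj {c0 t0 : ℝ} (hcpos : 0 < c0) (ht1 : 1/4 < t0) : Function.Injective (P c0 t0) := by
  intro J J' h
  ext j
  rw [← P_gt hcpos ht1 J j, ← P_gt hcpos ht1 J' j, h]

/-- Ten isolated critical points. -/
theorem main : ∃ S : Finset E, S.card = 10 ∧ ∀ x ∈ S, (∀ i, x ≠ pt i) ∧ fderiv ℝ V x = 0 ∧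
    ∃ ε > (0 : ℝ), ∀ y : E, dist y x < ε → y ≠ x → (∀ i, y ≠ pt i) → fderiv ℝ V y ≠ 0 := by
  have hs3 : (3/2 : ℝ) < Real.sqrt 3 := by
    rw [Real.lt_sqrt (by norm_num)]; norm_num
  obtain ⟨c0, hcpos, hc0⟩ : ∃ c0 : ℝ, 0 < c0 ∧ 4 * c0 ^ 2 + 3/4 = Real.sqrt 3 / 2 := by
    refine ⟨Real.sqrt ((Real.sqrt 3 / 2 - 3/4) / 4), Real.sqrt_pos.2 (by linarith), ?_⟩
    rw [Real.sq_sqrt (by linarith)]
    ring
  obtain ⟨t0, ⟨ht1, ht2⟩, ht0⟩ : ∃ t0 ∈ Set.Icc (2/7 - 1/100 : ℝ) (3/10),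
      36 * t0 ^ 3 - 12 * t0 ^ 2 + 4 * t0 - 1 = 0 := by
    have hcont : ContinuousOn (fun t : ℝ => 36 * t ^ 3 - 12 * t ^ 2 + 4 * t - 1)
        (Set.Icc (2/7 - 1/100) (3/10)) := by fun_prop
    have := intermediate_value_Icc (by norm_num) hcont
    have h0 : (0:ℝ) ∈ Set.Icc ((fun t : ℝ => 36 * t ^ 3 - 12 * t ^ 2 + 4 * t - 1) (2/7 - 1/100))
      ((fun t : ℝ => 36 * t ^ 3 - 12 * t ^ 2 + 4 * t - 1) (3/10)) := by
      constructor <;> norm_num
    obtain ⟨t, ht, h⟩ := this h0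
    exact ⟨t, ht, h⟩
  have ht1' : 1/4 < t0 := by linarith [show (1/4 : ℝ) < 2/7 - 1/100 by norm_num]
  have ht2' : t0 < 1/3 := by linarith [show (3/10 : ℝ) < 1/3 by norm_num]
  have hfin := crit_finite hc0 ht0
  refine ⟨((Finset.univ : Finset (Finset (Fin 4))).filter
    (fun J => J.card = 2 ∨ J.card = 3)).map ⟨P c0 t0, P_inj hcpos ht1'⟩, ?_, ?_⟩
  · rw [Finset.card_map]
    decide
  · intro x hx
    rw [Finset.mem_map] at hx
    obtain ⟨J, hJ, rfl⟩ := hx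
    rw [Finset.mem_filter] at hJ
    obtain ⟨h1, h2⟩ := P_crit hc0 hcpos ht0 ht1' ht2' hJ.2
    simp only [Function.Embedding.coeFn_mk]
    refine ⟨h1, h2, ?_⟩
    have hfin2 := hfin.subset (Set.sdiff_subset (t := {P c0 t0 J}))
    have hopen : IsOpen ({x : E | (∀ i, x ≠ pt i) ∧ fderiv ℝ V x = 0} \ {P c0 t0 J})ᶜ :=
      hfin2.isClosed.isOpen_compl
    obtain ⟨ε, hε, hball⟩ := Metric.isOpen_iff.1 hopen (P c0 t0 J) (by simp)
    refine ⟨ε, hε, fun y hy hne hyi hcr => ?_⟩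
    exact hball (Metric.mem_ball.2 hy) ⟨⟨hyi, hcr⟩, by simpa using hne⟩

end Pool.Agent.H319R3.Maxwell
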