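import Mathlib

set_option autoImplicit false
open MeasureTheory
open scoped Pointwise ENNReal

namespace Pool.Agent.H319R3.RieszBM

/-- The uniform probability measure on `[7/8, 1]`. -/
noncomputable def lam : Measure ℝ := (8 : ℝ≥0∞) • (volume.restrict (Set.Icc (7/8 : ℝ) 1))

lemma lam_univ : lam Set.univ = 1 := by
  unfold lam
  simp only [Measure.smul_apply, Measure.restrict_apply MeasurableSet.univ, Set.univ_inter,
    Real.volume_Icc, smul_eq_mul]
  rw [show (1 - 7/8 : ℝ) = 1/8 by norm_num, show (8 : ℝ≥0∞) = ENNReal.ofReal 8 by norm_num,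
    ← ENNReal.ofReal_mul (by norm_num)]
  norm_num

instance : IsProbabilityMeasure lam := ⟨lam_univ⟩

variable {N : ℕ}

/-- ray measure -/
noncomputable def ray (i : Fin N) : Measure (EuclideanSpace ℝ (Fin N)) :=
  Measure.map (fun r : ℝ => r • EuclideanSpace.single i (1 : ℝ)) lam

lemma ray_meas (i : Fin N) :
    Measurable (fun r : ℝ => r • (EuclideanSpace.single i (1 : ℝ) : EuclideanSpace ℝ (Fin N))) := by
  fun_prop

instance (i : Fin N) : IsProbabilityMeasure (ray i) :=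
  Measure.isProbabilityMeasure_map (ray_meas i).aemeasurable

/-- the averaged measure -/
noncomputable def muI (I : Finset (Fin N)) : Measure (EuclideanSpace ℝ (Fin N)) :=
  (I.card : ℝ≥0∞)⁻¹ • ∑ i ∈ I, ray i

lemma muI_prob (I : Finset (Fin N)) (hI : I.card ≠ 0) : IsProbabilityMeasure (muI I) := by
  constructor
  unfold muI
  simp only [Measure.smul_apply, Measure.coe_finsetSum, Finset.sum_apply, measure_univ,
    Finset.sum_const, nsmul_eq_mul, mul_one, smul_eq_mul]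
  exact ENNReal.inv_mul_cancel (by exact_mod_cast hI) (by simp)

lemma lintegral_muI (I : Finset (Fin N)) (f : EuclideanSpace ℝ (Fin N) → ℝ≥0∞) :
    ∫⁻ x, f x ∂(muI I) = (I.card : ℝ≥0∞)⁻¹ * ∑ i ∈ I, ∫⁻ x, f x ∂(ray i) := by
  unfold muI
  rw [lintegral_smul_measure, lintegral_finsetSum_measure]
  rfl

lemma edist_off {i j : Fin N} (hij : i ≠ j) {r r' : ℝ} (hr : 7/8 ≤ r) (hr' : 7/8 ≤ r') :
    (edist (r • (EuclideanSpace.single i (1 : ℝ) : EuclideanSpace ℝ (Fin N)))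
      (r' • (EuclideanSpace.single j (1 : ℝ) : EuclideanSpace ℝ (Fin N)))) ^ (-(1/2) : ℝ)
      ≤ ENNReal.ofReal (10/11) := by
  have h1 : dist (r • (EuclideanSpace.single i (1 : ℝ) : EuclideanSpace ℝ (Fin N)))
      (r' • (EuclideanSpace.single j (1 : ℝ) : EuclideanSpace ℝ (Fin N))) ^ 2 = r^2 + r'^2 := by
    rw [dist_eq_norm, @norm_sub_sq_real, norm_smul, norm_smul, inner_smul_left, inner_smul_right]
    simp [EuclideanSpace.inner_single_left, hij]
  have h2 : (121/100 : ℝ) ≤ dist (r • (EuclideanSpace.single i (1 : ℝ) : EuclideanSpace ℝ (Fin N)))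
      (r' • (EuclideanSpace.single j (1 : ℝ) : EuclideanSpace ℝ (Fin N))) := by
    apply le_of_sq_le_sq _ dist_nonneg
    rw [h1]
    nlinarith
  rw [edist_dist, ENNReal.ofReal_rpow_of_pos (by linarith)]
  apply ENNReal.ofReal_le_ofReal
  rw [Real.rpow_neg dist_nonneg, ← Real.sqrt_eq_rpow]
  rw [show (10/11 : ℝ) = (11/10)⁻¹ by norm_num]
  apply inv_anti₀ (by norm_num)
  apply Real.le_sqrt_of_sq_le
  linarith


lemma int_pos : ∫⁻ u in Set.Ioc (0:ℝ) (1/8), (ENNReal.ofReal |u|) ^ (-(1/2) : ℝ)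
    ≤ ENNReal.ofReal (3/4) := by
  have h1 : ∫⁻ u in Set.Ioc (0:ℝ) (1/8), (ENNReal.ofReal |u|) ^ (-(1/2) : ℝ)
      = ∫⁻ u in Set.Ioc (0:ℝ) (1/8), ENNReal.ofReal (u ^ (-(1/2) : ℝ)) := by
    apply setLIntegral_congr_fun measurableSet_Ioc
    intro u hu
    simp only
    rw [abs_of_pos hu.1, ENNReal.ofReal_rpow_of_pos hu.1]
  rw [h1, ← ofReal_integral_eq_lintegral_ofReal]
  · apply ENNReal.ofReal_le_ofReal
    rw [← intervalIntegral.integral_of_le (by norm_num), integral_rpow (Or.inl (by norm_num))]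
    rw [show (-(1/2) + 1 : ℝ) = 1/2 by norm_num, ← Real.sqrt_eq_rpow, ← Real.sqrt_eq_rpow,
      Real.sqrt_zero]
    have : Real.sqrt (1/8) ≤ 3/8 := by
      rw [Real.sqrt_le_left (by norm_num)]; norm_num
    linarith
  · have := (intervalIntegral.intervalIntegrable_rpow' (a := 0) (b := 1/8) (r := -(1/2))
      (by norm_num))
    rwa [intervalIntegrable_iff_integrableOn_Ioc_of_le (by norm_num)] at this
  · refine (ae_restrict_iff' measurableSet_Ioc).2 (Filter.Eventually.of_forall fun u hu => ?_)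
    exact Real.rpow_nonneg hu.1.le _

lemma int_abs : ∫⁻ u in Set.Icc (-(1/8):ℝ) (1/8), (ENNReal.ofReal |u|) ^ (-(1/2) : ℝ)
    ≤ ENNReal.ofReal (3/2) := by
  have hsub : Set.Icc (-(1/8):ℝ) (1/8) ⊆ Set.Icc (-(1/8)) 0 ∪ Set.Icc 0 (1/8) := by
    intro u hu
    rcases le_total u 0 with h | h
    · exact Or.inl ⟨hu.1, h⟩
    · exact Or.inr ⟨h, hu.2⟩
  have hneg : ∫⁻ u in Set.Icc (-(1/8):ℝ) 0, (ENNReal.ofReal |u|) ^ (-(1/2) : ℝ)
      = ∫⁻ u in Set.Icc (0:ℝ) (1/8), (ENNReal.ofReal |u|) ^ (-(1/2) : ℝ) := by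
    have hmp : MeasurePreserving (fun x : ℝ => -x) volume volume := Measure.measurePreserving_neg _
    have h2 := hmp.setLIntegral_comp_preimage (s := Set.Icc (-(1/8):ℝ) 0) measurableSet_Icc
      (f := fun u => (ENNReal.ofReal |u|) ^ (-(1/2) : ℝ)) (by fun_prop)
    rw [← h2]
    have h3 : (fun x : ℝ => -x) ⁻¹' Set.Icc (-(1/8):ℝ) 0 = Set.Icc 0 (1/8) := by
      ext x; simp only [Set.mem_preimage, Set.mem_Icc]
      constructor <;> rintro ⟨h1, h2⟩ <;> constructor <;> linarith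
    rw [h3]
    simp only [abs_neg]
  have hpos : ∫⁻ u in Set.Icc (0:ℝ) (1/8), (ENNReal.ofReal |u|) ^ (-(1/2) : ℝ)
      ≤ ENNReal.ofReal (3/4) := by
    rw [← restrict_Ioc_eq_restrict_Icc]
    exact int_pos
  calc ∫⁻ u in Set.Icc (-(1/8):ℝ) (1/8), (ENNReal.ofReal |u|) ^ (-(1/2) : ℝ)
      ≤ ∫⁻ u in Set.Icc (-(1/8)) 0 ∪ Set.Icc 0 (1/8), (ENNReal.ofReal |u|) ^ (-(1/2) : ℝ) :=
        lintegral_mono_set hsub
    _ ≤ _ + _ := lintegral_union_le _ _ _
    _ ≤ ENNReal.ofReal (3/4) + ENNReal.ofReal (3/4) := by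
        rw [hneg]; exact add_le_add hpos hpos
    _ = ENNReal.ofReal (3/2) := by
        rw [← ENNReal.ofReal_add (by norm_num) (by norm_num)]; norm_num

lemma self_energy (i : Fin N) {r : ℝ} (hr : r ∈ Set.Icc (7/8:ℝ) 1) :
    ∫⁻ y, (edist (r • (EuclideanSpace.single i (1 : ℝ) : EuclideanSpace ℝ (Fin N))) y)
      ^ (-(1/2) : ℝ) ∂(ray i) ≤ ENNReal.ofReal 12 := by
  unfold ray
  rw [lintegral_map (by fun_prop) (ray_meas i)]
  have h1 : ∀ r' : ℝ, (edist (r • (EuclideanSpace.single i (1 : ℝ) : EuclideanSpace ℝ (Fin N)))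
      (r' • EuclideanSpace.single i (1 : ℝ))) = ENNReal.ofReal |r' - r| := by
    intro r'
    rw [edist_dist, dist_eq_norm, ← sub_smul, norm_smul]
    simp [abs_sub_comm]
  simp_rw [h1]
  unfold lam
  rw [lintegral_smul_measure, smul_eq_mul]
  have h2 : ∫⁻ r' in Set.Icc (7/8:ℝ) 1, (ENNReal.ofReal |r' - r|) ^ (-(1/2) : ℝ)
      ≤ ENNReal.ofReal (3/2) := by
    have hmp : MeasurePreserving (fun x : ℝ => x - r) volume volume :=
      measurePreserving_sub_right volume r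
    have h3 := hmp.setLIntegral_comp_preimage (s := Set.Icc (-(1/8):ℝ) (1/8)) measurableSet_Icc
      (f := fun u => (ENNReal.ofReal |u|) ^ (-(1/2) : ℝ)) (by fun_prop)
    refine le_trans (lintegral_mono_set ?_) (h3.le.trans int_abs)
    intro x hx
    simp only [Set.mem_preimage, Set.mem_Icc] at hx hr ⊢
    constructor <;> linarith
  calc (8:ℝ≥0∞) * ∫⁻ r' in Set.Icc (7/8:ℝ) 1, (ENNReal.ofReal |r' - r|) ^ (-(1/2) : ℝ)
      ≤ 8 * ENNReal.ofReal (3/2) := by gcongr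
    _ = ENNReal.ofReal 12 := by
      rw [show (8 : ℝ≥0∞) = ENNReal.ofReal 8 by norm_num, ← ENNReal.ofReal_mul (by norm_num)]
      norm_num

/-- Potential bound at the points of the support. -/
lemma potential_le (I : Finset (Fin N)) (hI : 1000 ≤ I.card) {i : Fin N} (hi : i ∈ I) {r : ℝ}
    (hr : r ∈ Set.Icc (7/8:ℝ) 1) :
    ∫⁻ y, (edist (r • (EuclideanSpace.single i (1 : ℝ) : EuclideanSpace ℝ (Fin N))) y)
      ^ (-(1/2) : ℝ) ∂(muI I) ≤ ENNReal.ofReal (47/50) := by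
  rw [lintegral_muI]
  have hterm : ∀ j ∈ I, ∫⁻ y, (edist (r • (EuclideanSpace.single i (1 : ℝ) :
      EuclideanSpace ℝ (Fin N))) y) ^ (-(1/2) : ℝ) ∂(ray j)
      ≤ ENNReal.ofReal (10/11) + (if j = i then ENNReal.ofReal 12 else 0) := by
    intro j hj
    by_cases hji : j = i
    · subst hji
      rw [if_pos rfl]
      exact (self_energy j hr).trans le_add_self
    · rw [if_neg hji, add_zero]
      unfold ray
      rw [lintegral_map (by fun_prop) (ray_meas j)]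
      calc ∫⁻ r', (edist (r • (EuclideanSpace.single i (1 : ℝ) : EuclideanSpace ℝ (Fin N)))
            (r' • EuclideanSpace.single j (1 : ℝ))) ^ (-(1/2) : ℝ) ∂lam
          ≤ ∫⁻ r', ENNReal.ofReal (10/11) ∂lam := by
            apply lintegral_mono_ae
            have : ∀ᵐ r' ∂lam, r' ∈ Set.Icc (7/8:ℝ) 1 := by
              unfold lam
              exact Measure.ae_smul_measure (ae_restrict_mem measurableSet_Icc) _
            filter_upwards [this] with r' hr'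
            exact edist_off (Ne.symm hji) hr.1 hr'.1
        _ = ENNReal.ofReal (10/11) := by simp
  calc (I.card : ℝ≥0∞)⁻¹ * ∑ j ∈ I, ∫⁻ y, (edist (r • (EuclideanSpace.single i (1 : ℝ) :
      EuclideanSpace ℝ (Fin N))) y) ^ (-(1/2) : ℝ) ∂(ray j)
      ≤ (I.card : ℝ≥0∞)⁻¹ * ∑ j ∈ I, (ENNReal.ofReal (10/11) +
          (if j = i then ENNReal.ofReal 12 else 0)) := by
        gcongr with j hj
        exact hterm j hj
    _ = (I.card : ℝ≥0∞)⁻¹ * (I.card * ENNReal.ofReal (10/11) + ENNReal.ofReal 12) := by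
        rw [Finset.sum_add_distrib, Finset.sum_const, nsmul_eq_mul, Finset.sum_ite_eq' , if_pos hi]
    _ = ENNReal.ofReal (10/11) + (I.card : ℝ≥0∞)⁻¹ * ENNReal.ofReal 12 := by
        have hc : (I.card : ℝ≥0∞) ≠ 0 := by
          have : I.card ≠ 0 := by omega
          exact_mod_cast this
        rw [mul_add, ← mul_assoc, ENNReal.inv_mul_cancel hc (by simp), one_mul]
    _ ≤ ENNReal.ofReal (10/11) + (1000 : ℝ≥0∞)⁻¹ * ENNReal.ofReal 12 := by
        gcongr
        exact_mod_cast hI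
    _ ≤ ENNReal.ofReal (47/50) := by
        have : (1000 : ℝ≥0∞)⁻¹ = ENNReal.ofReal (1/1000) := by
          rw [one_div, ENNReal.ofReal_inv_of_pos (by norm_num)]
          norm_num
        rw [this, ← ENNReal.ofReal_mul (by norm_num), ← ENNReal.ofReal_add (by norm_num)
          (by norm_num)]
        apply ENNReal.ofReal_le_ofReal
        norm_num

lemma energy_le (I : Finset (Fin N)) (hI : 1000 ≤ I.card) :
    ∫⁻ x, ∫⁻ y, (edist x y) ^ (-(1/2) : ℝ) ∂(muI I) ∂(muI I) ≤ ENNReal.ofReal (47/50) := by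
  rw [lintegral_muI]
  have hmeas : Measurable (fun x : EuclideanSpace ℝ (Fin N) =>
      ∫⁻ y, (edist x y) ^ (-(1/2) : ℝ) ∂(muI I)) := by
    have := muI_prob I (by omega)
    apply Measurable.lintegral_prod_right' (f := fun p : EuclideanSpace ℝ (Fin N) ×
      EuclideanSpace ℝ (Fin N) => (edist p.1 p.2) ^ (-(1/2) : ℝ))
    fun_prop
  calc (I.card : ℝ≥0∞)⁻¹ * ∑ i ∈ I, ∫⁻ x, ∫⁻ y, (edist x y) ^ (-(1/2) : ℝ) ∂(muI I) ∂(ray i)
      ≤ (I.card : ℝ≥0∞)⁻¹ * ∑ i ∈ I, ENNReal.ofReal (47/50) := by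
        gcongr with i hi
        unfold ray
        rw [lintegral_map hmeas (ray_meas i)]
        calc ∫⁻ r, ∫⁻ y, (edist (r • (EuclideanSpace.single i (1 : ℝ) :
              EuclideanSpace ℝ (Fin N))) y) ^ (-(1/2) : ℝ) ∂(muI I) ∂lam
            ≤ ∫⁻ r, ENNReal.ofReal (47/50) ∂lam := by
              apply lintegral_mono_ae
              have : ∀ᵐ r' ∂lam, r' ∈ Set.Icc (7/8:ℝ) 1 := by
                unfold lam
                exact Measure.ae_smul_measure (ae_restrict_mem measurableSet_Icc) _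
              filter_upwards [this] with r hr
              exact potential_le I hI hi hr
          _ = ENNReal.ofReal (47/50) := by simp
    _ = ENNReal.ofReal (47/50) := by
        have hc : (I.card : ℝ≥0∞) ≠ 0 := by
          have : I.card ≠ 0 := by omega
          exact_mod_cast this
        rw [Finset.sum_const, nsmul_eq_mul, ← mul_assoc, ENNReal.inv_mul_cancel hc (by simp),
          one_mul]

/-- Second moment bound: for a probability measure on a ball of radius `R`,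
`∬ |x - y|^2 ≤ 2 R^2`. -/
lemma second_moment {R : ℝ} (hR : 0 ≤ R) (μ : Measure (EuclideanSpace ℝ (Fin N)))
    [IsProbabilityMeasure μ] (hμ : ∀ᵐ x ∂μ, ‖x‖ ^ 2 ≤ R ^ 2) :
    ∫⁻ x, ∫⁻ y, ENNReal.ofReal (‖x - y‖ ^ 2) ∂μ ∂μ ≤ ENNReal.ofReal (2 * R ^ 2) := by
  have hb : ∀ᵐ x ∂μ, ‖x‖ ≤ R := by
    filter_upwards [hμ] with x hx
    exact le_of_sq_le_sq hx hR
  have hid : Integrable (fun x : EuclideanSpace ℝ (Fin N) => x) μ :=
    Integrable.of_bound (by fun_prop) R hb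
  have hsq : Integrable (fun x : EuclideanSpace ℝ (Fin N) => ‖x‖ ^ 2) μ := by
    refine Integrable.of_bound (by fun_prop) (R ^ 2) ?_
    filter_upwards [hμ] with x hx
    rw [Real.norm_of_nonneg (by positivity)]; exact hx
  have hsqle : ∫ x, ‖x‖ ^ 2 ∂μ ≤ R ^ 2 := by
    calc ∫ x, ‖x‖ ^ 2 ∂μ ≤ ∫ x, R ^ 2 ∂μ := integral_mono_ae hsq (integrable_const _) hμ
      _ = R ^ 2 := by simp
  have hin : ∀ x : EuclideanSpace ℝ (Fin N), Integrable (fun y => ‖x - y‖ ^ 2) μ := by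
    intro x
    have h1 : (fun y : EuclideanSpace ℝ (Fin N) => ‖x - y‖ ^ 2) =
        fun y => ‖x‖ ^ 2 - 2 * inner ℝ x y + ‖y‖ ^ 2 := by
      funext y; rw [@norm_sub_sq_real]
    rw [h1]
    exact ((integrable_const _).sub ((hid.const_inner x).const_mul 2)).add hsq
  have hval : ∀ x : EuclideanSpace ℝ (Fin N), ∫ y, ‖x - y‖ ^ 2 ∂μ =
      ‖x‖ ^ 2 - 2 * inner ℝ x (∫ y, y ∂μ) + ∫ y, ‖y‖ ^ 2 ∂μ := by
    intro x
    have h1 : (fun y : EuclideanSpace ℝ (Fin N) => ‖x - y‖ ^ 2) =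
        fun y => ‖x‖ ^ 2 - 2 * inner ℝ x y + ‖y‖ ^ 2 := by
      funext y; rw [@norm_sub_sq_real]
    have hi1 : Integrable (fun y : EuclideanSpace ℝ (Fin N) => 2 * inner ℝ x y) μ :=
      (hid.const_inner x).const_mul 2
    have hi2 : Integrable (fun y : EuclideanSpace ℝ (Fin N) => ‖x‖ ^ 2 - 2 * inner ℝ x y) μ :=
      (integrable_const _).sub hi1
    rw [h1, integral_add hi2 hsq,
      integral_sub (integrable_const _) hi1,
      integral_const_mul, integral_inner hid]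
    simp
  have h2 : ∀ x : EuclideanSpace ℝ (Fin N), ∫⁻ y, ENNReal.ofReal (‖x - y‖ ^ 2) ∂μ =
      ENNReal.ofReal (∫ y, ‖x - y‖ ^ 2 ∂μ) := by
    intro x
    rw [ofReal_integral_eq_lintegral_ofReal (hin x)
      (Filter.Eventually.of_forall fun y => by positivity)]
  simp_rw [h2]
  rw [← ofReal_integral_eq_lintegral_ofReal]
  · apply ENNReal.ofReal_le_ofReal
    simp_rw [hval]
    rw [integral_add, integral_sub hsq, integral_const_mul]
    · have h3 : ∫ x, inner ℝ x (∫ y, y ∂μ) ∂μ = ‖∫ y, y ∂μ‖ ^ 2 := by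
        have h5 : ∀ x : EuclideanSpace ℝ (Fin N), inner ℝ x (∫ y, y ∂μ) =
            inner ℝ (∫ y, y ∂μ) x := fun x => real_inner_comm _ _
        rw [integral_congr_ae (Filter.Eventually.of_forall h5), integral_inner hid,
          real_inner_self_eq_norm_sq]
      rw [h3]
      simp only [integral_const, probReal_univ, smul_eq_mul, one_mul]
      nlinarith [sq_nonneg ‖∫ y, y ∂μ‖]
    · exact (hid.inner_const _).const_mul 2
    · exact hsq.sub ((hid.inner_const _).const_mul 2)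
    · exact integrable_const _
  · simp_rw [hval]
    exact (hsq.sub ((hid.inner_const _).const_mul 2)).add (integrable_const _)
  · exact Filter.Eventually.of_forall fun x => integral_nonneg fun y => by positivity

/-- tangent line inequality for the kernel `r^(-1/2)` as a function of `r^2` at
`r^2 = (26/25)^4`. -/
lemma tangent {r : ℝ} (hr : 0 < r) :
    (25/26 : ℝ) * (5/4) ≤ r ^ (-(1/2) : ℝ) + (25/26) / (4 * (26/25)^4) * r ^ 2 := by
  -- with `u = sqrt r`, `1/u ≥ (25/26) (5/4 - u^4 / (4 (26/25)^4))`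
  set u := Real.sqrt r with hu
  have hupos : 0 < u := Real.sqrt_pos.2 hr
  have h1 : r ^ (-(1/2) : ℝ) = u⁻¹ := by
    rw [Real.rpow_neg hr.le, ← Real.sqrt_eq_rpow]
  have h2 : r = u ^ 2 := (Real.sq_sqrt hr.le).symm
  rw [h1, h2]
  set w := u * (25/26) with hw
  have hwpos : 0 < w := by positivity
  have h3 : u = w * (26/25) := by rw [hw]; ring
  rw [h3]
  have h4 : (w * (26 / 25))⁻¹ = (25/26) * w⁻¹ := by
    rw [mul_inv]; ring
  rw [h4]
  have h5 : (25/26) / (4 * (26/25)^4) * ((w * (26 / 25)) ^ 2) ^ 2 = (25/26) * (w ^ 4 / 4) := by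
    ring
  rw [h5]
  -- need 5/4 ≤ 1/w + w^4/4
  have h6 : (5/4 : ℝ) ≤ w⁻¹ + w ^ 4 / 4 := by
    rw [← sub_nonneg]
    have : w⁻¹ + w ^ 4 / 4 - 5/4 = ((w - 1) ^ 2 * (w ^ 3 + 2 * w ^ 2 + 3 * w + 4)) / (4 * w) := by
      field_simp
      ring
    rw [this]
    positivity
  nlinarith

lemma energy_ge {R : ℝ} (hR : 0 ≤ R) (hR2 : 2 * R ^ 2 ≤ (26/25 : ℝ) ^ 4)
    (μ : Measure (EuclideanSpace ℝ (Fin N)))
    [IsProbabilityMeasure μ] (hμ : ∀ᵐ x ∂μ, ‖x‖ ^ 2 ≤ R ^ 2) :
    ENNReal.ofReal (25/26) ≤ ∫⁻ x, ∫⁻ y, (edist x y) ^ (-(1/2) : ℝ) ∂μ ∂μ := by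
  have hpt : ∀ x y : EuclideanSpace ℝ (Fin N), ENNReal.ofReal ((25/26) * (5/4)) ≤
      (edist x y) ^ (-(1/2) : ℝ) + ENNReal.ofReal ((25/26) / (4 * (26/25)^4)) *
        ENNReal.ofReal (‖x - y‖ ^ 2) := by
    intro x y
    by_cases hxy : x = y
    · subst hxy
      rw [edist_self, ENNReal.zero_rpow_of_neg (by norm_num)]
      simp
    · have hpos : 0 < dist x y := dist_pos.2 hxy
      rw [edist_dist, ENNReal.ofReal_rpow_of_pos hpos, ← ENNReal.ofReal_mul (by positivity),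
        ← ENNReal.ofReal_add (by positivity) (by positivity)]
      apply ENNReal.ofReal_le_ofReal
      rw [← dist_eq_norm]
      exact tangent hpos
  have h1 : ENNReal.ofReal ((25/26) * (5/4)) ≤
      (∫⁻ x, ∫⁻ y, (edist x y) ^ (-(1/2) : ℝ) ∂μ ∂μ) +
        ENNReal.ofReal ((25/26) / (4 * (26/25)^4)) *
        ∫⁻ x, ∫⁻ y, ENNReal.ofReal (‖x - y‖ ^ 2) ∂μ ∂μ := by
    calc ENNReal.ofReal ((25/26) * (5/4)) = ∫⁻ x, ∫⁻ y, ENNReal.ofReal ((25/26) * (5/4)) ∂μ ∂μ := by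
          simp
      _ ≤ ∫⁻ x, ∫⁻ y, ((edist x y) ^ (-(1/2) : ℝ) + ENNReal.ofReal ((25/26) / (4 * (26/25)^4)) *
          ENNReal.ofReal (‖x - y‖ ^ 2)) ∂μ ∂μ := by
          gcongr with x y
          exact hpt x y
      _ = _ := by
          have hm : Measurable (fun x : EuclideanSpace ℝ (Fin N) =>
              ∫⁻ y, (edist x y) ^ (-(1/2) : ℝ) ∂μ) :=
            Measurable.lintegral_prod_right' (f := fun p : EuclideanSpace ℝ (Fin N) ×
              EuclideanSpace ℝ (Fin N) => (edist p.1 p.2) ^ (-(1/2) : ℝ)) (by fun_prop)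
          have hm2 : Measurable (fun x : EuclideanSpace ℝ (Fin N) =>
              ∫⁻ y, ENNReal.ofReal (‖x - y‖ ^ 2) ∂μ) :=
            Measurable.lintegral_prod_right' (f := fun p : EuclideanSpace ℝ (Fin N) ×
              EuclideanSpace ℝ (Fin N) => ENNReal.ofReal (‖p.1 - p.2‖ ^ 2)) (by fun_prop)
          rw [← lintegral_const_mul _ hm2, ← lintegral_add_left hm]
          congr 1
          funext x
          rw [← lintegral_const_mul _ (by fun_prop), ← lintegral_add_left (by fun_prop)]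
  have h2 : ENNReal.ofReal ((25/26) / (4 * (26/25)^4)) *
        ∫⁻ x, ∫⁻ y, ENNReal.ofReal (‖x - y‖ ^ 2) ∂μ ∂μ ≤ ENNReal.ofReal ((25/26) * (1/4)) := by
    calc ENNReal.ofReal ((25/26) / (4 * (26/25)^4)) *
        ∫⁻ x, ∫⁻ y, ENNReal.ofReal (‖x - y‖ ^ 2) ∂μ ∂μ
        ≤ ENNReal.ofReal ((25/26) / (4 * (26/25)^4)) * ENNReal.ofReal ((26/25 : ℝ) ^ 4) := by
          gcongr
          exact (second_moment hR μ hμ).trans (ENNReal.ofReal_le_ofReal hR2)
      _ = ENNReal.ofReal ((25/26) * (1/4)) := by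
          rw [← ENNReal.ofReal_mul (by positivity)]
          congr 1
          norm_num
  have h3 : ENNReal.ofReal ((25/26) * (5/4)) = ENNReal.ofReal (25/26) +
      ENNReal.ofReal ((25/26) * (1/4)) := by
    rw [← ENNReal.ofReal_add (by norm_num) (by norm_num)]; norm_num
  rw [h3] at h1
  have h4 := h1.trans (add_le_add le_rfl h2)
  exact (ENNReal.add_le_add_iff_right ENNReal.ofReal_ne_top).1 h4

/-- The convex body attached to a set `I` of coordinates: unit ball in these coordinates times a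
ball of radius `2/25` in the other coordinates. -/
def body (I : Finset (Fin N)) : Set (EuclideanSpace ℝ (Fin N)) :=
  {x | ∑ i ∈ I, x i ^ 2 ≤ 1 ∧ ∑ i ∈ Iᶜ, x i ^ 2 ≤ (2/25) ^ 2}

lemma norm_sq_eq_sum (I : Finset (Fin N)) (x : EuclideanSpace ℝ (Fin N)) :
    ‖x‖ ^ 2 = ∑ i ∈ I, x i ^ 2 + ∑ i ∈ Iᶜ, x i ^ 2 := by
  rw [EuclideanSpace.real_norm_sq_eq, Finset.sum_add_sum_compl]

lemma body_closed (I : Finset (Fin N)) : IsClosed (body I) := by
  have h : ∀ (J : Finset (Fin N)) (c : ℝ),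
      IsClosed {x : EuclideanSpace ℝ (Fin N) | ∑ i ∈ J, x i ^ 2 ≤ c} := by
    intro J c
    apply isClosed_le _ continuous_const
    fun_prop
  exact (h I 1).inter (h Iᶜ ((2/25)^2))

lemma body_compact (I : Finset (Fin N)) : IsCompact (body I) := by
  apply Metric.isCompact_of_isClosed_isBounded (body_closed I)
  apply (Metric.isBounded_closedBall (x := (0 : EuclideanSpace ℝ (Fin N))) (r := 2)).subset
  intro x hx
  rw [mem_closedBall_zero_iff]
  apply le_of_sq_le_sq _ (by norm_num)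
  rw [norm_sq_eq_sum I]
  obtain ⟨h1, h2⟩ := hx
  linarith

lemma convexOn_sum (I : Finset (Fin N)) : ConvexOn ℝ Set.univ
    (fun x : EuclideanSpace ℝ (Fin N) => ∑ i ∈ I, x i ^ 2) := by
  refine ⟨convex_univ, ?_⟩
  intro x _ y _ a b ha hb hab
  simp only [smul_eq_mul, Finset.mul_sum, ← Finset.sum_add_distrib]
  apply Finset.sum_le_sum
  intro i _
  simp only [PiLp.add_apply, PiLp.smul_apply, smul_eq_mul]
  have : b = 1 - a := by linarith
  subst this
  nlinarith [mul_nonneg (mul_nonneg ha hb) (sq_nonneg (x i - y i))]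

lemma body_convex (I : Finset (Fin N)) : Convex ℝ (body I) := by
  have h : ∀ (J : Finset (Fin N)) (c : ℝ),
      Convex ℝ {x : EuclideanSpace ℝ (Fin N) | ∑ i ∈ J, x i ^ 2 ≤ c} := by
    intro J c
    simpa using (convexOn_sum J).convex_le c
  exact (h I 1).inter (h Iᶜ ((2/25)^2))

lemma body_interior (I : Finset (Fin N)) : (interior (body I)).Nonempty := by
  refine ⟨0, ?_⟩
  rw [mem_interior_iff_mem_nhds]
  apply Filter.mem_of_superset (Metric.ball_mem_nhds (0 : EuclideanSpace ℝ (Fin N))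
    (show (0:ℝ) < 2/25 by norm_num))
  intro x hx
  rw [mem_ball_zero_iff] at hx
  have h1 : ‖x‖ ^ 2 ≤ (2/25) ^ 2 := by
    apply pow_le_pow_left₀ (norm_nonneg _) hx.le
  rw [norm_sq_eq_sum I] at h1
  have h2 : 0 ≤ ∑ i ∈ I, x i ^ 2 := Finset.sum_nonneg fun i _ => sq_nonneg _
  have h3 : 0 ≤ ∑ i ∈ Iᶜ, x i ^ 2 := Finset.sum_nonneg fun i _ => sq_nonneg _
  exact ⟨by linarith, by linarith⟩

lemma mem_body {I : Finset (Fin N)} {i : Fin N} (hi : i ∈ I) {r : ℝ}
    (hr : r ∈ Set.Icc (7/8:ℝ) 1) :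
    r • (EuclideanSpace.single i (1 : ℝ) : EuclideanSpace ℝ (Fin N)) ∈ body I := by
  have h0 : ∀ j, (r • (EuclideanSpace.single i (1 : ℝ) : EuclideanSpace ℝ (Fin N))) j ^ 2 =
      if j = i then r ^ 2 else 0 := by
    intro j
    by_cases h : j = i
    · subst h; simp
    · simp [h]
  constructor
  · simp_rw [h0]
    rw [Finset.sum_ite_eq', if_pos hi]
    have := hr.1
    have := hr.2
    nlinarith
  · simp_rw [h0]
    rw [Finset.sum_ite_eq', if_neg (by simpa using hi)]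
    norm_num

lemma muI_body (I : Finset (Fin N)) : muI I (body I)ᶜ = 0 := by
  unfold muI
  simp only [Measure.smul_apply, Measure.coe_finsetSum, Finset.sum_apply, smul_eq_mul]
  rw [Finset.sum_eq_zero, mul_zero]
  intro i hi
  unfold ray
  rw [Measure.map_apply (ray_meas i) (body_closed I).measurableSet.compl]
  unfold lam
  rw [Measure.smul_apply, smul_eq_mul]
  have h1 : (volume.restrict (Set.Icc (7/8:ℝ) 1))
      ((fun r : ℝ => r • (EuclideanSpace.single i (1 : ℝ) : EuclideanSpace ℝ (Fin N))) ⁻¹'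
        (body I)ᶜ) = 0 := by
    have h2 : ∀ᵐ r ∂(volume.restrict (Set.Icc (7/8:ℝ) 1)),
        r • (EuclideanSpace.single i (1 : ℝ) : EuclideanSpace ℝ (Fin N)) ∈ body I := by
      filter_upwards [ae_restrict_mem measurableSet_Icc] with r hr
      exact mem_body hi hr
    exact h2
  rw [h1, mul_zero]

/-- the half-sum of the two bodies lies in a ball with `2 R^2 = (27/25)^2`. -/
lemma halfsum_bound (I : Finset (Fin N)) {x : EuclideanSpace ℝ (Fin N)}
    (hx : x ∈ ((1/2 : ℝ) • body Iᶜ + (1 - 1/2 : ℝ) • body I)) :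
    ‖x‖ ^ 2 ≤ (27/25)^2 / 2 := by
  obtain ⟨u, hu, v, hv, rfl⟩ := hx
  obtain ⟨a, ha, rfl⟩ := hu
  obtain ⟨b, hb, rfl⟩ := hv
  have key : ∀ (J : Finset (Fin N)) (p q : EuclideanSpace ℝ (Fin N)),
      ∑ i ∈ J, p i ^ 2 ≤ 1 → ∑ i ∈ J, q i ^ 2 ≤ (2/25)^2 →
      ∑ i ∈ J, ((1/2 : ℝ) * p i + (1/2) * q i) ^ 2 ≤ (27/25)^2 / 4 := by
    intro J p q hp hq
    have h1 : ∀ i ∈ J, ((1/2 : ℝ) * p i + (1/2) * q i) ^ 2 ≤
        (27/100) * p i ^ 2 + (27/8) * q i ^ 2 := by
      intro i _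
      nlinarith [sq_nonneg (2 * p i - 25 * q i)]
    calc ∑ i ∈ J, ((1/2 : ℝ) * p i + (1/2) * q i) ^ 2
        ≤ ∑ i ∈ J, ((27/100) * p i ^ 2 + (27/8) * q i ^ 2) := Finset.sum_le_sum h1
      _ = (27/100) * ∑ i ∈ J, p i ^ 2 + (27/8) * ∑ i ∈ J, q i ^ 2 := by
          rw [Finset.sum_add_distrib, Finset.mul_sum, Finset.mul_sum]
      _ ≤ (27/100) * 1 + (27/8) * (2/25)^2 := by gcongr
      _ ≤ (27/25)^2 / 4 := by norm_num
  rw [norm_sq_eq_sum I]
  have h1 := key I b a hb.1 (by simpa using ha.2)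
  have h2 := key Iᶜ a b ha.1 hb.2
  have h3 : ∀ i, ((1/2 : ℝ) • a + (1 - 1/2 : ℝ) • b) i = (1/2 : ℝ) * a i + (1/2) * b i := by
    intro i
    simp only [PiLp.add_apply, PiLp.smul_apply, smul_eq_mul]
    norm_num
  have h4 : ∀ i, ((1/2 : ℝ) * a i + (1/2) * b i) = ((1/2 : ℝ) * b i + (1/2) * a i) := by
    intro i; ring
  simp only at h1 h2 ⊢
  simp_rw [h3]
  simp_rw [h4]
  simp_rw [h4] at h2
  linarith

end Pool.Agent.H319R3.RieszBM
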