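import Mathlib

set_option autoImplicit false
open MeasureTheory Set Filter Topology
open scoped ENNReal

namespace Pool.Agent.H319R3.Widom

/-- the logarithmic kernel -/
noncomputable def ker (D x y : ℝ) : ℝ≥0∞ :=
  if x = y then (⊤ : ℝ≥0∞) else ENNReal.ofReal (Real.log (D / |x - y|))

lemma ker_meas (D : ℝ) : Measurable (fun p : ℝ × ℝ => ker D p.1 p.2) := by
  unfold ker
  refine Measurable.ite (measurableSet_eq_fun measurable_fst measurable_snd) measurable_const ?_
  fun_prop

lemma ker_symm (D x y : ℝ) : ker D x y = ker D y x := by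
  unfold ker
  by_cases h : x = y
  · subst h; rfl
  · rw [if_neg h, if_neg (Ne.symm h), abs_sub_comm]

/-- mutual energy -/
noncomputable def B (D : ℝ) (ρ σ : Measure ℝ) : ℝ≥0∞ := ∫⁻ x, ∫⁻ y, ker D x y ∂σ ∂ρ

lemma pot_meas (D : ℝ) (σ : Measure ℝ) [SFinite σ] : Measurable (fun x => ∫⁻ y, ker D x y ∂σ) :=
  Measurable.lintegral_prod_right' (ker_meas D)

lemma B_symm (D : ℝ) (ρ σ : Measure ℝ) [SFinite ρ] [SFinite σ] : B D ρ σ = B D σ ρ := by
  unfold B
  rw [lintegral_lintegral_swap (ker_meas D).aemeasurable]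
  simp_rw [ker_symm D]

lemma B_smul_left (D : ℝ) (c : ℝ≥0∞) (ρ σ : Measure ℝ) : B D (c • ρ) σ = c * B D ρ σ := by
  unfold B
  rw [lintegral_smul_measure, smul_eq_mul]

lemma B_add_left (D : ℝ) (ρ ρ' σ : Measure ℝ) : B D (ρ + ρ') σ = B D ρ σ + B D ρ' σ := by
  unfold B
  rw [lintegral_add_measure]

lemma B_expand (D : ℝ) (μ τ : Measure ℝ) [IsFiniteMeasure μ] [IsFiniteMeasure τ] (a b : ℝ≥0∞)
    (ha : a ≠ ⊤) (hb : b ≠ ⊤) :
    B D (a • μ + b • τ) (a • μ + b • τ) =
      a * a * B D μ μ + 2 * (a * b) * B D τ μ + b * b * B D τ τ := by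
  have i1 : IsFiniteMeasure (a • μ) := Measure.smul_finite μ ha
  have i2 : IsFiniteMeasure (b • τ) := Measure.smul_finite τ hb
  rw [B_add_left, B_smul_left, B_smul_left, B_symm D μ, B_symm D τ (a • μ + b • τ), B_add_left,
    B_smul_left, B_smul_left, B_add_left, B_smul_left, B_smul_left, B_symm D μ τ]
  ring

/-- no atoms -/
lemma no_atom {D : ℝ} {μ : Measure ℝ} (hfin : B D μ μ < ⊤) (a : ℝ) : μ {a} = 0 := by
  by_contra h
  have h1 : ⊤ * μ {a} * μ {a} ≤ B D μ μ := by
    unfold B
    calc ⊤ * μ {a} * μ {a} = ∫⁻ x in {a}, ∫⁻ y in {a}, ker D a a ∂μ ∂μ := by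
          simp only [lintegral_const, Measure.restrict_apply MeasurableSet.univ, univ_inter]
          unfold ker
          rw [if_pos rfl]
      _ = ∫⁻ x in {a}, ∫⁻ y in {a}, ker D x y ∂μ ∂μ := by
          apply setLIntegral_congr_fun (measurableSet_singleton a)
          intro x hx
          rw [mem_singleton_iff] at hx
          subst hx
          apply setLIntegral_congr_fun (measurableSet_singleton x)
          intro y hy
          rw [mem_singleton_iff] at hy
          subst hy
          rfl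
      _ ≤ ∫⁻ x in {a}, ∫⁻ y, ker D x y ∂μ ∂μ := by
          gcongr with x
          exact Measure.restrict_le_self
      _ ≤ ∫⁻ x, ∫⁻ y, ker D x y ∂μ ∂μ := setLIntegral_le_lintegral _ _
  rw [ENNReal.top_mul h, ENNReal.top_mul h, top_le_iff] at h1
  exact hfin.ne h1

/-- The variational inequality in integrated form. -/
lemma variation {D : ℝ} {K : Set ℝ} {μ : Measure ℝ} [IsProbabilityMeasure μ] (hμK : μ Kᶜ = 0)
    (hfin : B D μ μ < ⊤)
    (hmin : ∀ ν : Measure ℝ, IsProbabilityMeasure ν → ν Kᶜ = 0 → B D μ μ ≤ B D ν ν)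
    {E : Set ℝ} (_hE : MeasurableSet E) :
    B D μ μ * μ E ≤ ∫⁻ x in E, ∫⁻ y, ker D x y ∂μ ∂μ := by
  rcases eq_or_ne (μ E) 0 with h0 | h0
  · rw [h0, mul_zero]; exact zero_le
  have hEtop : μ E ≠ ⊤ := measure_ne_top _ _
  set V := B D μ μ with hV
  have hres1 : B D (μ.restrict E) μ ≤ V := by
    unfold B at hV ⊢
    rw [hV]
    exact setLIntegral_le_lintegral _ _
  have hres2 : B D (μ.restrict E) (μ.restrict E) ≤ V := by
    refine le_trans ?_ hres1
    unfold B
    gcongr with x
    exact Measure.restrict_le_self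
  set τ := (μ E)⁻¹ • μ.restrict E with hτ
  have hτp : IsProbabilityMeasure τ := by
    constructor
    rw [hτ, Measure.smul_apply, Measure.restrict_apply MeasurableSet.univ, univ_inter, smul_eq_mul]
    exact ENNReal.inv_mul_cancel h0 hEtop
  set A := B D (μ.restrict E) μ with hA
  set C := B D (μ.restrict E) (μ.restrict E) with hC
  have hAtop : A ≠ ⊤ := (hres1.trans_lt hfin).ne
  have hCtop : C ≠ ⊤ := (hres2.trans_lt hfin).ne
  have hVtop : V ≠ ⊤ := hfin.ne
  set m := (μ E).toReal with hm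
  have hmpos : 0 < m := ENNReal.toReal_pos h0 hEtop
  have hBτμ : B D τ μ = (μ E)⁻¹ * A := by rw [hτ, B_smul_left]
  have hBττ : B D τ τ = (μ E)⁻¹ * ((μ E)⁻¹ * C) := by
    have : IsFiniteMeasure τ := inferInstance
    rw [hτ, B_smul_left, B_symm, B_smul_left]
  -- real inequality for every t
  have key : ∀ t : ℝ, 0 < t → t < 1 →
      V.toReal ≤ (1 - t) * (1 - t) * V.toReal + 2 * ((1 - t) * t) * (m⁻¹ * A.toReal) +
        t * t * (m⁻¹ * (m⁻¹ * C.toReal)) := by
    intro t ht0 ht1
    have hν : IsProbabilityMeasure (ENNReal.ofReal (1 - t) • μ + ENNReal.ofReal t • τ) := by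
      constructor
      rw [Measure.add_apply, Measure.smul_apply, Measure.smul_apply, measure_univ, measure_univ,
        smul_eq_mul, smul_eq_mul, mul_one, mul_one, ← ENNReal.ofReal_add (by linarith) ht0.le]
      norm_num
    have hνK : (ENNReal.ofReal (1 - t) • μ + ENNReal.ofReal t • τ) Kᶜ = 0 := by
      rw [Measure.add_apply, Measure.smul_apply, Measure.smul_apply, hμK, hτ, Measure.smul_apply]
      have : (μ.restrict E) Kᶜ = 0 := le_antisymm ((Measure.restrict_apply_le _ _).trans hμK.le)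
        zero_le
      rw [this]
      simp
    have h1 := hmin _ hν hνK
    rw [B_expand D μ τ _ _ ENNReal.ofReal_ne_top ENNReal.ofReal_ne_top, hBτμ, hBττ] at h1
    have h2 := ENNReal.toReal_mono (by
      have hinv : (μ E)⁻¹ ≠ ⊤ := ENNReal.inv_ne_top.2 h0
      finiteness) h1
    have hinv : (μ E)⁻¹ ≠ ⊤ := ENNReal.inv_ne_top.2 h0
    rw [ENNReal.toReal_add (by finiteness) (by finiteness),
      ENNReal.toReal_add (by finiteness) (by finiteness)] at h2
    simp only [ENNReal.toReal_mul, ENNReal.toReal_inv, ENNReal.toReal_ofNat] at h2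
    rw [ENNReal.toReal_ofReal (by linarith), ENNReal.toReal_ofReal ht0.le] at h2
    exact h2
  have h3 : V.toReal ≤ m⁻¹ * A.toReal := by
    by_contra hcon
    push Not at hcon
    set v := V.toReal
    set a := m⁻¹ * A.toReal
    set c := m⁻¹ * (m⁻¹ * C.toReal)
    have hc0 : 0 ≤ c := by positivity
    have ha0 : 0 ≤ a := by positivity
    -- choose t small
    have hd : 0 < v - a := by linarith
    set t := min (1/2) ((v - a) / (v + c + 1)) with ht
    have hv0 : 0 < v := by linarith
    have ht0 : 0 < t := by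
      rw [ht]; apply lt_min (by norm_num); positivity
    have ht1 : t < 1 := lt_of_le_of_lt (min_le_left _ _) (by norm_num)
    have ht2 : t * (v + c + 1) ≤ v - a := by
      have : t ≤ (v - a) / (v + c + 1) := min_le_right _ _
      rwa [le_div_iff₀ (by positivity)] at this
    have h4 := key t ht0 ht1
    nlinarith [mul_pos ht0 ht0, mul_nonneg ht0.le ha0, mul_nonneg (mul_nonneg ht0.le ht0.le) ha0]
  have h5 : V.toReal * m ≤ A.toReal := by
    rw [inv_mul_eq_div, le_div_iff₀ hmpos] at h3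
    exact h3
  change V * μ E ≤ A
  rw [← ENNReal.ofReal_toReal hVtop, ← ENNReal.ofReal_toReal hEtop, ← ENNReal.ofReal_toReal hAtop,
    ← ENNReal.ofReal_mul ENNReal.toReal_nonneg]
  exact ENNReal.ofReal_le_ofReal h5

/-- Frostman: the potential equals the energy almost everywhere. -/
lemma pot_ae {D : ℝ} {K : Set ℝ} {μ : Measure ℝ} [IsProbabilityMeasure μ] (hμK : μ Kᶜ = 0)
    (hfin : B D μ μ < ⊤)
    (hmin : ∀ ν : Measure ℝ, IsProbabilityMeasure ν → ν Kᶜ = 0 → B D μ μ ≤ B D ν ν) :
    ∀ᵐ x ∂μ, ∫⁻ y, ker D x y ∂μ = B D μ μ := by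
  have h1 : (fun _ => B D μ μ) ≤ᵐ[μ] fun x => ∫⁻ y, ker D x y ∂μ := by
    apply ae_le_of_forall_setLIntegral_le_of_sigmaFinite₀ measurable_const.aemeasurable
    intro s hs _
    rw [lintegral_const, Measure.restrict_apply MeasurableSet.univ, univ_inter]
    exact variation hμK hfin hmin hs
  have h2 := ae_eq_of_ae_le_of_lintegral_le h1 (by simp [hfin.ne]) (pot_meas D μ).aemeasurable
    (by rw [lintegral_const, measure_univ, mul_one]; exact le_rfl)
  filter_upwards [h2] with x hx
  exact hx.symm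

/-- Lower semicontinuity: the potential is at most the energy on the support. -/
lemma pot_support {D : ℝ} (hD : 0 < D) {K : Set ℝ} {μ : Measure ℝ} [IsProbabilityMeasure μ]
    (hμK : μ Kᶜ = 0) (hfin : B D μ μ < ⊤)
    (hmin : ∀ ν : Measure ℝ, IsProbabilityMeasure ν → ν Kᶜ = 0 → B D μ μ ≤ B D ν ν)
    {a : ℝ} (ha : a ∈ μ.support) : ∫⁻ y, ker D a y ∂μ ≤ B D μ μ := by
  have hae := pot_ae hμK hfin hmin
  have hex : ∀ n : ℕ, ∃ x, dist x a < 1 / ((n:ℝ) + 1) ∧ ∫⁻ y, ker D x y ∂μ = B D μ μ := by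
    intro n
    have h1 : 0 < μ (Metric.ball a (1 / ((n:ℝ) + 1))) :=
      (Measure.mem_support_iff_forall a).1 ha _ (Metric.ball_mem_nhds a (by positivity))
    by_contra hcon
    push Not at hcon
    have h2 : μ (Metric.ball a (1 / ((n:ℝ) + 1))) ≤ 0 := by
      have h3 : Metric.ball a (1 / ((n:ℝ) + 1)) ⊆ {x | ∫⁻ y, ker D x y ∂μ = B D μ μ}ᶜ := by
        intro x hx
        exact hcon x hx
      exact (measure_mono h3).trans (le_of_eq hae)
    exact absurd h1 (not_lt.2 h2)
  choose x hx1 hx2 using hex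
  have hlim : Tendsto x atTop (𝓝 a) := by
    rw [tendsto_iff_dist_tendsto_zero]
    exact squeeze_zero (fun _ => dist_nonneg) (fun n => (hx1 n).le)
      tendsto_one_div_add_atTop_nhds_zero_nat
  calc ∫⁻ y, ker D a y ∂μ ≤ ∫⁻ y, liminf (fun n => ker D (x n) y) atTop ∂μ := by
        apply lintegral_mono_ae
        have h0 : ∀ᵐ y ∂μ, y ∉ ({a} : Set ℝ) := measure_eq_zero_iff_ae_notMem.1 (no_atom hfin a)
        filter_upwards [h0] with y hy
        have hya : a ≠ y := fun h => hy (by simp [h])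
        have ht : Tendsto (fun n => ker D (x n) y) atTop (𝓝 (ker D a y)) := by
          have h1 : ker D a y = ENNReal.ofReal (Real.log (D / |a - y|)) := by
            unfold ker; rw [if_neg hya]
          rw [h1]
          have h2 : Tendsto (fun n => ENNReal.ofReal (Real.log (D / |x n - y|))) atTop
              (𝓝 (ENNReal.ofReal (Real.log (D / |a - y|)))) := by
            apply (ENNReal.continuous_ofReal.tendsto _).comp
            have hne : |a - y| ≠ 0 := abs_ne_zero.2 (sub_ne_zero.2 hya)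
            have h3 : Tendsto (fun n => D / |x n - y|) atTop (𝓝 (D / |a - y|)) :=
              tendsto_const_nhds.div ((hlim.sub_const y).abs) hne
            exact h3.log (by positivity)
          refine h2.congr' ?_
          have h4 : ∀ᶠ n in atTop, x n ≠ y := hlim.eventually_ne hya
          filter_upwards [h4] with n hn
          unfold ker
          rw [if_neg hn]
        rw [ht.liminf_eq]
    _ ≤ liminf (fun n => ∫⁻ y, ker D (x n) y ∂μ) atTop := by
        apply lintegral_liminf_le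
        intro n
        exact (ker_meas D).comp (measurable_const.prodMk measurable_id)
    _ = B D μ μ := by
        simp_rw [hx2]
        simp

/-- For points of the support: `log |a - y|` is integrable with integral at least
`log D - V`. -/
lemma log_support {D : ℝ} {K : Set ℝ} (hK : IsCompact K) (hD : Metric.diam K < D)
    {μ : Measure ℝ} [IsProbabilityMeasure μ]
    (hμK : μ Kᶜ = 0) (hfin : B D μ μ < ⊤)
    (hmin : ∀ ν : Measure ℝ, IsProbabilityMeasure ν → ν Kᶜ = 0 → B D μ μ ≤ B D ν ν)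
    {a : ℝ} (ha : a ∈ μ.support) : Integrable (fun y => Real.log |a - y|) μ ∧
      Real.log D - (B D μ μ).toReal ≤ ∫ y, Real.log |a - y| ∂μ := by
  have hDpos : 0 < D := lt_of_le_of_lt Metric.diam_nonneg hD
  have haK : a ∈ K := by
    have : μ.support ⊆ K := by
      apply Measure.support_subset_of_isClosed hK.isClosed
      exact hμK
    exact this ha
  have hp := pot_support hDpos hμK hfin hmin ha
  have hmem : ∀ᵐ y ∂μ, y ∈ K ∧ y ≠ a := by
    have h1 : ∀ᵐ y ∂μ, y ∈ K := hμK
    have h0 : ∀ᵐ y ∂μ, y ∉ ({a} : Set ℝ) := measure_eq_zero_iff_ae_notMem.1 (no_atom hfin a)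
    filter_upwards [h1, h0] with y hy1 hy2
    exact ⟨hy1, fun h => hy2 (by simp [h])⟩
  have hnn : 0 ≤ᵐ[μ] fun y => Real.log (D / |a - y|) := by
    filter_upwards [hmem] with y hy
    apply Real.log_nonneg
    have h1 : 0 < |a - y| := abs_pos.2 (sub_ne_zero.2 (Ne.symm hy.2))
    rw [le_div_iff₀ h1, one_mul]
    have h2 := Metric.dist_le_diam_of_mem hK.isBounded haK hy.1
    rw [Real.dist_eq] at h2
    linarith
  have hmeas : AEStronglyMeasurable (fun y => Real.log (D / |a - y|)) μ :=
    (by fun_prop : Measurable (fun y => Real.log (D / |a - y|))).aestronglyMeasurable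
  have hlin : ∫⁻ y, ENNReal.ofReal (Real.log (D / |a - y|)) ∂μ ≤ B D μ μ := by
    refine le_trans (le_of_eq ?_) hp
    apply lintegral_congr_ae
    filter_upwards [hmem] with y hy
    unfold ker
    rw [if_neg (Ne.symm hy.2)]
  have hint : Integrable (fun y => Real.log (D / |a - y|)) μ := by
    refine ⟨hmeas, ?_⟩
    rw [hasFiniteIntegral_iff_ofReal hnn]
    exact hlin.trans_lt hfin
  have hle : ∫ y, Real.log (D / |a - y|) ∂μ ≤ (B D μ μ).toReal := by
    rw [integral_eq_lintegral_of_nonneg_ae hnn hmeas]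
    exact ENNReal.toReal_mono hfin.ne hlin
  have heq : (fun y => Real.log |a - y|) =ᵐ[μ] fun y => Real.log D - Real.log (D / |a - y|) := by
    filter_upwards [hmem] with y hy
    have h1 : |a - y| ≠ 0 := abs_ne_zero.2 (sub_ne_zero.2 (Ne.symm hy.2))
    rw [Real.log_div hDpos.ne' h1]
    ring
  refine ⟨((integrable_const _).sub hint).congr heq.symm, ?_⟩
  rw [integral_congr_ae heq, integral_sub (integrable_const _) hint, integral_const]
  simp only [probReal_univ, smul_eq_mul, one_mul]
  linarith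

/-- The one-dimensional maximum principle in pointwise form. -/
lemma exists_ab {S : Set ℝ} (hS : IsCompact S) (hne : S.Nonempty) (z : ℝ) :
    ∃ a ∈ S, ∃ b ∈ S, ∃ t : ℝ, 0 ≤ t ∧ t ≤ 1 ∧ ∀ y ∈ S, y ≠ a → y ≠ b → z ≠ y ∧
      (1 - t) * Real.log |a - y| + t * Real.log |b - y| ≤ Real.log |z - y| := by
  by_cases hz : z ∈ S
  · refine ⟨z, hz, z, hz, 0, le_rfl, zero_le_one, fun y _ hya _ => ⟨Ne.symm hya, ?_⟩⟩
    simp
  have hzy : ∀ y ∈ S, z ≠ y := fun y hy h => hz (h ▸ hy)
  by_cases h1 : ∀ y ∈ S, y < z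
  · have ha := hS.sSup_mem hne
    refine ⟨sSup S, ha, sSup S, ha, 0, le_rfl, zero_le_one, fun y hy hya _ => ⟨hzy y hy, ?_⟩⟩
    have h2 : y ≤ sSup S := le_csSup hS.bddAbove hy
    have h3 : y < sSup S := lt_of_le_of_ne h2 hya
    have h4 := h1 _ ha
    rw [abs_of_pos (by linarith), abs_of_pos (by linarith)]
    have := Real.log_le_log (by linarith : 0 < sSup S - y) (by linarith : sSup S - y ≤ z - y)
    linarith
  by_cases h1' : ∀ y ∈ S, z < y
  · have ha := hS.sInf_mem hne
    refine ⟨sInf S, ha, sInf S, ha, 0, le_rfl, zero_le_one, fun y hy hya _ => ⟨hzy y hy, ?_⟩⟩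
    have h2 : sInf S ≤ y := csInf_le hS.bddBelow hy
    have h3 : sInf S < y := lt_of_le_of_ne h2 (Ne.symm hya)
    have h4 := h1' _ ha
    rw [abs_of_neg (by linarith), abs_of_neg (by linarith)]
    have := Real.log_le_log (by linarith : 0 < -(sInf S - y)) (by linarith : -(sInf S - y) ≤ -(z - y))
    linarith
  push Not at h1 h1'
  obtain ⟨y2, hy2, hzy2⟩ := h1
  obtain ⟨y1, hy1, hzy1⟩ := h1'
  have c1 : IsCompact (S ∩ Iic z) := hS.inter_right isClosed_Iic
  have c2 : IsCompact (S ∩ Ici z) := hS.inter_right isClosed_Ici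
  have ha := c1.sSup_mem ⟨y1, hy1, hzy1⟩
  have hb := c2.sInf_mem ⟨y2, hy2, hzy2⟩
  set a := sSup (S ∩ Iic z) with hadef
  set b := sInf (S ∩ Ici z) with hbdef
  have haz : a < z := lt_of_le_of_ne ha.2 (Ne.symm (hzy a ha.1))
  have hzb : z < b := lt_of_le_of_ne hb.2 (hzy b hb.1)
  have hba : 0 < b - a := by linarith
  refine ⟨a, ha.1, b, hb.1, (z - a) / (b - a), div_nonneg (by linarith) hba.le, ?_, ?_⟩
  · rw [div_le_one hba]; linarith
  · intro y hy hya hyb
    refine ⟨hzy y hy, ?_⟩
    set t := (z - a) / (b - a) with ht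
    have ht0 : 0 ≤ t := div_nonneg (by linarith) hba.le
    have ht1 : t ≤ 1 := by rw [ht, div_le_one hba]; linarith
    have htz : z = (1 - t) * a + t * b := by
      have : t * (b - a) = z - a := by rw [ht]; field_simp
      linarith
    rcases lt_or_gt_of_ne (hzy y hy) with hlt | hgt
    · -- z < y, so b < y
      have h2 : b ≤ y := csInf_le c2.bddBelow ⟨hy, hlt.le⟩
      have h3 : b < y := lt_of_le_of_ne h2 (Ne.symm hyb)
      rw [abs_of_neg (by linarith), abs_of_neg (by linarith), abs_of_neg (by linarith)]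
      have h4 := strictConcaveOn_log_Ioi.concaveOn.2 (x := -(a - y)) (y := -(b - y))
        (mem_Ioi.2 (by linarith)) (mem_Ioi.2 (by linarith)) (sub_nonneg.2 ht1) ht0 (by ring)
      simp only [smul_eq_mul] at h4
      refine h4.trans (le_of_eq ?_)
      congr 1
      linarith
    · have h2 : y ≤ a := le_csSup c1.bddAbove ⟨hy, hgt.le⟩
      have h3 : y < a := lt_of_le_of_ne h2 hya
      rw [abs_of_pos (by linarith), abs_of_pos (by linarith), abs_of_pos (by linarith)]
      have h4 := strictConcaveOn_log_Ioi.concaveOn.2 (x := a - y) (y := b - y)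
        (mem_Ioi.2 (by linarith)) (mem_Ioi.2 (by linarith)) (sub_nonneg.2 ht1) ht0 (by ring)
      simp only [smul_eq_mul] at h4
      refine h4.trans (le_of_eq ?_)
      congr 1
      linarith

/-- Frostman's theorem on the whole line. -/
theorem log_real {D : ℝ} {K : Set ℝ} (hK : IsCompact K) (hD : Metric.diam K < D)
    {μ : Measure ℝ} [IsProbabilityMeasure μ]
    (hμK : μ Kᶜ = 0) (hfin : B D μ μ < ⊤)
    (hmin : ∀ ν : Measure ℝ, IsProbabilityMeasure ν → ν Kᶜ = 0 → B D μ μ ≤ B D ν ν)
    (z : ℝ) : Integrable (fun y => Real.log |z - y|) μ ∧ (∀ᵐ y ∂μ, z ≠ y) ∧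
      Real.log D - (B D μ μ).toReal ≤ ∫ y, Real.log |z - y| ∂μ := by
  have hSK : μ.support ⊆ K := Measure.support_subset_of_isClosed hK.isClosed hμK
  have hSc : IsCompact μ.support := hK.of_isClosed_subset Measure.isClosed_support hSK
  have hSne : μ.support.Nonempty := Measure.nonempty_support (IsProbabilityMeasure.ne_zero μ)
  obtain ⟨a, ha, b, hb, t, ht0, ht1, hab⟩ := exists_ab hSc hSne z
  obtain ⟨ia, la⟩ := log_support hK hD hμK hfin hmin ha
  obtain ⟨ib, lb⟩ := log_support hK hD hμK hfin hmin hb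
  have hmem : ∀ᵐ y ∂μ, y ∈ μ.support ∧ y ≠ a ∧ y ≠ b := by
    have h1 : ∀ᵐ y ∂μ, y ∈ μ.support := Measure.support_mem_ae
    have h0 : ∀ᵐ y ∂μ, y ∉ ({a} : Set ℝ) := measure_eq_zero_iff_ae_notMem.1 (no_atom hfin a)
    have h2 : ∀ᵐ y ∂μ, y ∉ ({b} : Set ℝ) := measure_eq_zero_iff_ae_notMem.1 (no_atom hfin b)
    filter_upwards [h1, h0, h2] with y hy1 hy2 hy3
    exact ⟨hy1, fun h => hy2 (by simp [h]), fun h => hy3 (by simp [h])⟩
  obtain ⟨R, hR⟩ := hSc.isBounded.subset_closedBall z
  have hmeas : AEStronglyMeasurable (fun y => Real.log |z - y|) μ :=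
    (by fun_prop : Measurable (fun y => Real.log |z - y|)).aestronglyMeasurable
  have hlow : ∀ᵐ y ∂μ, (1 - t) * Real.log |a - y| + t * Real.log |b - y| ≤ Real.log |z - y| := by
    filter_upwards [hmem] with y hy
    exact (hab y hy.1 hy.2.1 hy.2.2).2
  have hup : ∀ᵐ y ∂μ, Real.log |z - y| ≤ |R| := by
    filter_upwards [hmem] with y hy
    have h1 : z ≠ y := (hab y hy.1 hy.2.1 hy.2.2).1
    have h2 : |z - y| ≤ R := by
      have := hR hy.1
      rwa [Metric.mem_closedBall, dist_comm, Real.dist_eq] at this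
    have h3 : 0 < |z - y| := abs_pos.2 (sub_ne_zero.2 h1)
    calc Real.log |z - y| ≤ |z - y| := (Real.log_le_sub_one_of_pos h3).trans (by linarith)
      _ ≤ R := h2
      _ ≤ |R| := le_abs_self R
  have ilow : Integrable (fun y => (1 - t) * Real.log |a - y| + t * Real.log |b - y|) μ :=
    (ia.const_mul _).add (ib.const_mul _)
  have iz : Integrable (fun y => Real.log |z - y|) μ := by
    refine Integrable.mono' (g := fun y => abs ((1 - t) * Real.log |a - y| + t * Real.log |b - y|) + abs R)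
      (ilow.abs.add (integrable_const _)) hmeas ?_
    filter_upwards [hlow, hup] with y h1 h2
    rw [Real.norm_eq_abs, abs_le]
    constructor
    · have := neg_abs_le ((1 - t) * Real.log |a - y| + t * Real.log |b - y|)
      have := abs_nonneg R
      linarith
    · have := abs_nonneg ((1 - t) * Real.log |a - y| + t * Real.log |b - y|)
      linarith
  refine ⟨iz, ?_, ?_⟩
  · filter_upwards [hmem] with y hy
    exact (hab y hy.1 hy.2.1 hy.2.2).1
  · calc Real.log D - (B D μ μ).toReal
        = (1 - t) * (Real.log D - (B D μ μ).toReal) + t * (Real.log D - (B D μ μ).toReal) := by ring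
      _ ≤ (1 - t) * ∫ y, Real.log |a - y| ∂μ + t * ∫ y, Real.log |b - y| ∂μ := by
          have h1 : 0 ≤ 1 - t := by linarith
          gcongr
      _ = ∫ y, ((1 - t) * Real.log |a - y| + t * Real.log |b - y|) ∂μ := by
          rw [integral_add (ia.const_mul _) (ib.const_mul _), integral_const_mul,
            integral_const_mul]
      _ ≤ ∫ y, Real.log |z - y| ∂μ := integral_mono_ae ilow iz hlow

end Pool.Agent.H319R3.Widom
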