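import Mathlib

set_option autoImplicit false
open MeasureTheory Set Filter Topology
open scoped ENNReal

namespace Pool.Agent.H319R3.Widom

/-- hypotheses on a probability measure: bounded support and logarithmic potential bounded below
by `l` on the line. -/
structure Good (μ : Measure ℝ) (l : ℝ) : Prop where
  bdd : ∃ R : ℝ, ∀ᵐ x ∂μ, |x| ≤ R
  log : ∀ z : ℝ, Integrable (fun y => Real.log |z - y|) μ ∧ (∀ᵐ y ∂μ, z ≠ y) ∧
      l ≤ ∫ y, Real.log |z - y| ∂μ

lemma Good.complex {μ : Measure ℝ} [IsProbabilityMeasure μ] {l : ℝ} (h : Good μ l) (z : ℂ) :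
    Integrable (fun x : ℝ => Real.log ‖(x : ℂ) - z‖) μ ∧ (∀ᵐ x : ℝ ∂μ, (x : ℂ) - z ≠ 0) ∧
      l ≤ ∫ x : ℝ, Real.log ‖(x : ℂ) - z‖ ∂μ := by
  obtain ⟨R, hR⟩ := h.bdd
  obtain ⟨i1, hne, hl⟩ := h.log z.re
  have hmeas : AEStronglyMeasurable (fun x : ℝ => Real.log ‖(x : ℂ) - z‖) μ :=
    (by fun_prop : Measurable (fun x : ℝ => Real.log ‖(x : ℂ) - z‖)).aestronglyMeasurable
  have hle : ∀ x : ℝ, |z.re - x| ≤ ‖(x : ℂ) - z‖ := by
    intro x
    have := Complex.abs_re_le_norm ((x : ℂ) - z)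
    rw [Complex.sub_re, Complex.ofReal_re, abs_sub_comm] at this
    exact this
  have hlow : ∀ᵐ x ∂μ, Real.log |z.re - x| ≤ Real.log ‖(x : ℂ) - z‖ := by
    filter_upwards [hne] with x hx
    exact Real.log_le_log (abs_pos.2 (sub_ne_zero.2 hx)) (hle x)
  have hne' : ∀ᵐ x : ℝ ∂μ, (x : ℂ) - z ≠ 0 := by
    filter_upwards [hne] with x hx h0
    have := hle x
    rw [h0, norm_zero] at this
    exact absurd this (not_le.2 (abs_pos.2 (sub_ne_zero.2 hx)))
  have hup : ∀ᵐ x : ℝ ∂μ, Real.log ‖(x : ℂ) - z‖ ≤ |R| + ‖z‖ := by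
    filter_upwards [hR, hne'] with x hx hx0
    have h1 : ‖(x : ℂ) - z‖ ≤ |R| + ‖z‖ := by
      calc ‖(x : ℂ) - z‖ ≤ ‖(x : ℂ)‖ + ‖z‖ := norm_sub_le _ _
        _ ≤ |R| + ‖z‖ := by
          rw [Complex.norm_real, Real.norm_eq_abs]
          have := hx.trans (le_abs_self R)
          linarith
    exact ((Real.log_le_sub_one_of_pos (norm_pos_iff.2 hx0)).trans (by linarith)).trans h1
  have iz : Integrable (fun x : ℝ => Real.log ‖(x : ℂ) - z‖) μ := by
    refine Integrable.mono' (g := fun x => abs (Real.log |z.re - x|) + (abs R + ‖z‖))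
      (i1.abs.add (integrable_const _)) hmeas ?_
    filter_upwards [hlow, hup] with y h1 h2
    rw [Real.norm_eq_abs, abs_le]
    constructor
    · have := neg_abs_le (Real.log |z.re - y|)
      have := abs_nonneg R
      have := norm_nonneg z
      linarith
    · have := abs_nonneg (Real.log |z.re - y|)
      linarith
  exact ⟨iz, hne', hl.trans (integral_mono_ae i1 iz hlow)⟩

lemma Good.multiset {μ : Measure ℝ} [IsProbabilityMeasure μ] {l : ℝ} (h : Good μ l)
    (s : Multiset ℂ) :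
    Integrable (fun x : ℝ => Real.log ‖(s.map fun z => (x : ℂ) - z).prod‖) μ ∧
      (∀ᵐ x : ℝ ∂μ, (s.map fun z => (x : ℂ) - z).prod ≠ 0) ∧
      (s.card : ℝ) * l ≤ ∫ x : ℝ, Real.log ‖(s.map fun z => (x : ℂ) - z).prod‖ ∂μ := by
  induction s using Multiset.induction with
  | empty => simp
  | cons z s ih =>
    obtain ⟨i1, n1, l1⟩ := ih
    obtain ⟨i2, n2, l2⟩ := h.complex z
    have heq : (fun x : ℝ => Real.log ‖(((z ::ₘ s).map fun z => (x : ℂ) - z).prod)‖) =ᵐ[μ]
        fun x : ℝ => Real.log ‖(x : ℂ) - z‖ + Real.log ‖(s.map fun z => (x : ℂ) - z).prod‖ := by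
      filter_upwards [n1, n2] with x h1 h2
      rw [Multiset.map_cons, Multiset.prod_cons, norm_mul,
        Real.log_mul (norm_ne_zero_iff.2 h2) (norm_ne_zero_iff.2 h1)]
    refine ⟨(i2.add i1).congr heq.symm, ?_, ?_⟩
    · filter_upwards [n1, n2] with x h1 h2
      rw [Multiset.map_cons, Multiset.prod_cons]
      exact mul_ne_zero h2 h1
    · rw [integral_congr_ae heq, integral_add i2 i1, Multiset.card_cons]
      push_cast
      linarith

/-- The potential of a polynomial image. -/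
theorem Good.poly {μ : Measure ℝ} [IsProbabilityMeasure μ] {l : ℝ} (h : Good μ l)
    {P : Polynomial ℝ} (hP : P.Monic) (hn : 1 ≤ P.natDegree) (w : ℝ) :
    Integrable (fun x : ℝ => Real.log |P.eval x - w|) μ ∧
      (P.natDegree : ℝ) * l ≤ ∫ x : ℝ, Real.log |P.eval x - w| ∂μ := by
  have hmon : (P - Polynomial.C w).Monic := by
    apply hP.sub_of_left
    refine lt_of_le_of_lt Polynomial.degree_C_le ?_
    rw [Polynomial.degree_eq_natDegree hP.ne_zero]
    exact_mod_cast hn
  have hdeg : (P - Polynomial.C w).natDegree = P.natDegree := Polynomial.natDegree_sub_C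
  set Q := (P - Polynomial.C w).map (algebraMap ℝ ℂ) with hQ
  have hQmon : Q.Monic := hmon.map _
  have hQdeg : Q.natDegree = P.natDegree := by
    rw [hQ, Polynomial.natDegree_map, hdeg]
  have hsplit : Q.Splits := IsAlgClosed.splits Q
  have hcard : Q.roots.card = P.natDegree := by
    rw [← hQdeg]
    exact hsplit.natDegree_eq_card_roots.symm
  have heval : ∀ x : ℝ, |P.eval x - w| = ‖(Q.roots.map fun z => (x : ℂ) - z).prod‖ := by
    intro x
    have h1 : Q.eval (x : ℂ) = (Q.roots.map fun z => (x : ℂ) - z).prod := by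
      conv_lhs => rw [hsplit.eq_prod_roots, hQmon.leadingCoeff, Polynomial.C_1, one_mul]
      rw [Polynomial.eval_multiset_prod, Multiset.map_map]
      simp
    rw [← h1, hQ, Polynomial.eval_map_algebraMap]
    have h2 : (Polynomial.aeval (x : ℂ)) (P - Polynomial.C w) =
        (((P - Polynomial.C w).eval x : ℝ) : ℂ) := by
      rw [show (x : ℂ) = algebraMap ℝ ℂ x from rfl, Polynomial.aeval_algebraMap_apply]
      simp
    rw [h2, Complex.norm_real, Real.norm_eq_abs]
    simp
  obtain ⟨i1, -, l1⟩ := h.multiset Q.roots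
  simp_rw [heval]
  rw [hcard] at l1
  exact ⟨i1, l1⟩

end Pool.Agent.H319R3.Widom
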