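import Mathlib

set_option autoImplicit false
open MeasureTheory Set Filter Topology
open scoped ENNReal Real

namespace Pool.Agent.H319R3.Widom

/-- normalised Lebesgue measure on the circle of angles -/
noncomputable def Theta : Measure ℝ :=
  ENNReal.ofReal (2 * π)⁻¹ • volume.restrict (Ioc 0 (2 * π))

instance : IsProbabilityMeasure Theta := by
  constructor
  unfold Theta
  rw [Measure.smul_apply, Measure.restrict_apply MeasurableSet.univ, univ_inter, Real.volume_Ioc,
    smul_eq_mul, sub_zero, ← ENNReal.ofReal_mul (by positivity)]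
  rw [inv_mul_cancel₀ (by positivity)]
  simp

lemma integral_Theta (f : ℝ → ℝ) : ∫ θ, f θ ∂Theta = (2 * π)⁻¹ * ∫ θ in (0:ℝ)..(2 * π), f θ := by
  unfold Theta
  rw [integral_smul_measure, intervalIntegral.integral_of_le (by positivity),
    ENNReal.toReal_ofReal (by positivity), smul_eq_mul]

lemma integrable_Theta {f : ℝ → ℝ} (hf : IntervalIntegrable f volume 0 (2 * π)) :
    Integrable f Theta := by
  unfold Theta
  rw [intervalIntegrable_iff_integrableOn_Ioc_of_le (by positivity)] at hf
  exact hf.smul_measure ENNReal.ofReal_ne_top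

/-- `arcosh`-type function -/
noncomputable def h (t : ℝ) : ℝ := Real.posLog (|t| + Real.sqrt (t ^ 2 - 1))

lemma h_nonneg (t : ℝ) : 0 ≤ h t := Real.posLog_nonneg

lemma h_even (t : ℝ) : h |t| = h t := by
  unfold h; rw [abs_abs, sq_abs]

lemma h_of_le {t : ℝ} (ht : |t| ≤ 1) : h t = 0 := by
  unfold h
  have h1 : t ^ 2 - 1 ≤ 0 := by
    have := abs_le.1 ht
    nlinarith
  rw [Real.sqrt_eq_zero_of_nonpos h1, add_zero, Real.posLog_eq_zero_iff, abs_abs]
  exact ht

lemma h_cont : Continuous h := by
  unfold h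
  have : Continuous Real.posLog := Real.continuous_posLog
  exact this.comp (by fun_prop)

/-- circle integral of `log |e^{iθ} - a|` -/
lemma circ_int (a : ℂ) : Integrable (fun θ : ℝ => Real.log ‖circleMap 0 1 θ - a‖) Theta ∧
    ∫ θ, Real.log ‖circleMap 0 1 θ - a‖ ∂Theta = Real.posLog ‖a‖ := by
  have h1 : CircleIntegrable (fun z => Real.log ‖z - a‖) 0 1 := circleIntegrable_log_norm_sub_const 1
  have h2 := circleAverage_log_norm_sub_const_eq_posLog (a := a)
  refine ⟨integrable_Theta h1, ?_⟩
  rw [integral_Theta, ← h2, Real.circleAverage_def, smul_eq_mul]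

lemma circ_ne (a : ℂ) : ∀ᵐ θ ∂Theta, circleMap 0 1 θ - a ≠ 0 := by
  unfold Theta
  apply Measure.ae_smul_measure
  rw [ae_restrict_iff' measurableSet_Ioc]
  have hsub : {θ : ℝ | θ ∈ Ioc 0 (2 * π) ∧ circleMap 0 1 θ = a}.Subsingleton := by
    rintro x ⟨hx, hxa⟩ y ⟨hy, hya⟩
    have hinj := injOn_circleMap_of_abs_sub_le (c := 0) (R := 1) (a := 0) (b := 2 * π) one_ne_zero
      (by rw [zero_sub, abs_neg, abs_of_pos (by positivity)])
    rw [uIoc_of_le (by positivity)] at hinj
    exact hinj hx hy (hxa.trans hya.symm)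
  have hz := hsub.measure_zero (volume : Measure ℝ)
  have := measure_eq_zero_iff_ae_notMem.1 hz
  filter_upwards [this] with θ hθ hmem h0
  exact hθ ⟨hmem, sub_eq_zero.1 h0⟩

/-- the two roots of `w^2 - 2 t w + 1` -/
lemma exists_roots (t : ℝ) : ∃ a b : ℂ, a + b = ((2 * t : ℝ) : ℂ) ∧ a * b = 1 ∧
    Real.posLog ‖a‖ + Real.posLog ‖b‖ = h t := by
  rcases le_or_gt |t| 1 with ht | ht
  · have h1 : 0 ≤ 1 - t ^ 2 := by
      have := abs_le.1 ht
      nlinarith
    have hs := Real.mul_self_sqrt h1
    refine ⟨⟨t, Real.sqrt (1 - t^2)⟩, ⟨t, -Real.sqrt (1 - t^2)⟩, ?_, ?_, ?_⟩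
    · apply Complex.ext <;> simp; ring
    · apply Complex.ext
      · simp; nlinarith
      · simp; ring
    · have n1 : ‖(⟨t, Real.sqrt (1 - t^2)⟩ : ℂ)‖ = 1 := by
        rw [Complex.norm_def, Complex.normSq_mk, hs, show t * t + (1 - t^2) = 1 by ring]; simp
      have n2 : ‖(⟨t, -Real.sqrt (1 - t^2)⟩ : ℂ)‖ = 1 := by
        rw [Complex.norm_def, Complex.normSq_mk, neg_mul_neg, hs, show t * t + (1 - t^2) = 1 by ring]; simp
      rw [n1, n2, h_of_le ht]
      simp
  · have h1 : 0 ≤ t ^ 2 - 1 := by
      rw [← sq_abs]; nlinarith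
    have hs := Real.mul_self_sqrt h1
    have hs0 := Real.sqrt_nonneg (t ^ 2 - 1)
    -- use the sign of t
    have key : ∀ u : ℝ, 1 < u → Real.posLog (u + Real.sqrt (u^2 - 1)) +
        Real.posLog (u - Real.sqrt (u^2-1)) = Real.posLog (u + Real.sqrt (u^2 - 1)) ∧
        0 < u - Real.sqrt (u^2-1) := by
      intro u hu
      have g1 : 0 ≤ u ^ 2 - 1 := by nlinarith
      have g2 : Real.sqrt (u^2-1) < u := by
        rw [Real.sqrt_lt' (by linarith)]; linarith
      have g3 : u - Real.sqrt (u^2-1) ≤ 1 := by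
        have : u - 1 ≤ Real.sqrt (u^2-1) := by
          apply Real.le_sqrt_of_sq_le; nlinarith
        linarith
      refine ⟨?_, by linarith⟩
      have g4 : Real.posLog (u - Real.sqrt (u^2-1)) = 0 :=
        (Real.posLog_eq_zero_iff _).2 (by rw [abs_of_pos (by linarith)]; exact g3)
      rw [g4, add_zero]
    rcases lt_or_ge 0 t with hpos | hneg
    · rw [abs_of_pos hpos] at ht
      refine ⟨((t + Real.sqrt (t^2-1) : ℝ) : ℂ), ((t - Real.sqrt (t^2-1) : ℝ) : ℂ), ?_, ?_, ?_⟩
      · rw [← Complex.ofReal_add]; congr 1; ring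
      · rw [← Complex.ofReal_mul, ← Complex.ofReal_one]; congr 1; nlinarith
      · rw [Complex.norm_real, Complex.norm_real, Real.norm_eq_abs, Real.norm_eq_abs,
          abs_of_pos (by linarith : 0 < t + Real.sqrt (t^2-1)), abs_of_pos (key t ht).2,
          (key t ht).1]
        unfold h; rw [abs_of_pos hpos]
    · rw [abs_of_nonpos hneg] at ht
      have k := key (-t) ht
      rw [neg_sq] at k
      refine ⟨((t - Real.sqrt (t^2-1) : ℝ) : ℂ), ((t + Real.sqrt (t^2-1) : ℝ) : ℂ), ?_, ?_, ?_⟩
      · rw [← Complex.ofReal_add]; congr 1; ring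
      · rw [← Complex.ofReal_mul, ← Complex.ofReal_one]; congr 1; nlinarith
      · rw [Complex.norm_real, Complex.norm_real, Real.norm_eq_abs, Real.norm_eq_abs,
          show |t - Real.sqrt (t^2-1)| = -t + Real.sqrt (t^2-1) by
            rw [abs_of_neg (by linarith)]; ring,
          show |t + Real.sqrt (t^2-1)| = -t - Real.sqrt (t^2-1) by
            rw [abs_of_neg (by linarith [k.2])]; ring, k.1]
        unfold h; rw [abs_of_nonpos hneg]

/-- Logarithmic potential of the arcsine law on `[-s, s]`. -/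
lemma arcsine (s u : ℝ) (hs : 0 < s) :
    Integrable (fun θ : ℝ => Real.log |u - s * Real.cos θ|) Theta ∧
    ∫ θ, Real.log |u - s * Real.cos θ| ∂Theta = Real.log (s / 2) + h (u / s) := by
  obtain ⟨a, b, hab, hab1, hsum⟩ := exists_roots (u / s)
  obtain ⟨ia, ea⟩ := circ_int a
  obtain ⟨ib, eb⟩ := circ_int b
  have hpt : ∀ θ : ℝ, |u - s * Real.cos θ| =
      (s / 2) * (‖circleMap 0 1 θ - a‖ * ‖circleMap 0 1 θ - b‖) := by
    intro θ
    rw [← norm_mul]
    have h1 : (circleMap 0 1 θ - a) * (circleMap 0 1 θ - b) =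
        circleMap 0 1 θ * (((2 * Real.cos θ - 2 * (u / s) : ℝ)) : ℂ) := by
      have h2 : circleMap 0 1 θ = Complex.exp (θ * Complex.I) := by simp [circleMap]
      have h3 : circleMap 0 1 θ * Complex.exp (-(θ * Complex.I)) = 1 := by
        rw [h2, ← Complex.exp_add]; simp
      have h4 : ((2 * Real.cos θ : ℝ) : ℂ) = circleMap 0 1 θ + Complex.exp (-(θ * Complex.I)) := by
        rw [h2]
        push_cast
        rw [Complex.cos]
        ring_nf
      rw [Complex.ofReal_sub, h4, ← hab]
      linear_combination hab1 - h3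
    rw [h1, norm_mul]
    have h5 : ‖circleMap 0 1 θ‖ = 1 := by simp [circleMap]
    rw [h5, one_mul, Complex.norm_real, Real.norm_eq_abs]
    rw [show (s / 2) * |2 * Real.cos θ - 2 * (u / s)| =
      |s / 2| * |2 * Real.cos θ - 2 * (u / s)| by rw [abs_of_pos (by positivity : 0 < s / 2)],
      ← abs_mul, abs_sub_comm]
    congr 1
    field_simp
  have heq : (fun θ : ℝ => Real.log |u - s * Real.cos θ|) =ᵐ[Theta]
      fun θ => Real.log (s / 2) + (Real.log ‖circleMap 0 1 θ - a‖ +
        Real.log ‖circleMap 0 1 θ - b‖) := by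
    filter_upwards [circ_ne a, circ_ne b] with θ h1 h2
    rw [hpt θ, Real.log_mul (by positivity)
      (mul_ne_zero (norm_ne_zero_iff.2 h1) (norm_ne_zero_iff.2 h2)),
      Real.log_mul (norm_ne_zero_iff.2 h1) (norm_ne_zero_iff.2 h2)]
  have iab : Integrable (fun θ : ℝ => Real.log ‖circleMap 0 1 θ - a‖ +
      Real.log ‖circleMap 0 1 θ - b‖) Theta := ia.add ib
  refine ⟨((integrable_const _).add iab).congr heq.symm, ?_⟩
  rw [integral_congr_ae heq, integral_add (integrable_const _) iab, integral_add ia ib,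
    ea, eb, hsum]
  simp

/-- Fubini: averaging the potentials of a measurable image of `μ` over the arcsine law. -/
lemma fubini {μ : Measure ℝ} [IsProbabilityMeasure μ] {g : ℝ → ℝ} (hg : Measurable g)
    {R : ℝ} (hR : ∀ᵐ x ∂μ, |g x| ≤ R) {s : ℝ} (hs : 0 < s) :
    Integrable (fun θ => ∫ x, Real.log |g x - s * Real.cos θ| ∂μ) Theta ∧
    Real.log (s / 2) + ∫ x, h (g x / s) ∂μ =
      ∫ θ, ∫ x, Real.log |g x - s * Real.cos θ| ∂μ ∂Theta := by
  have hmeas : Measurable (fun p : ℝ × ℝ => Real.log |g p.1 - s * Real.cos p.2|) := by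
    fun_prop
  have hbd : ∀ᵐ x ∂μ, ∀ θ : ℝ, Real.log |g x - s * Real.cos θ| ≤ |R| + s := by
    filter_upwards [hR] with x hx θ
    have h1 : |g x - s * Real.cos θ| ≤ |R| + s := by
      calc |g x - s * Real.cos θ| ≤ |g x| + |s * Real.cos θ| := abs_sub _ _
        _ ≤ |R| + s := by
          have h2 : |s * Real.cos θ| ≤ s := by
            rw [abs_mul, abs_of_pos hs]
            have := Real.abs_cos_le_one θ
            nlinarith
          have := hx.trans (le_abs_self R)
          linarith
    rcases eq_or_ne |g x - s * Real.cos θ| 0 with h0 | h0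
    · rw [h0, Real.log_zero]
      positivity
    · have h3 : 0 < |g x - s * Real.cos θ| := lt_of_le_of_ne (abs_nonneg _) (Ne.symm h0)
      exact ((Real.log_le_sub_one_of_pos h3).trans (by linarith)).trans h1
  have hval : ∀ x, ∫ θ, Real.log |g x - s * Real.cos θ| ∂Theta = Real.log (s / 2) + h (g x / s) :=
    fun x => (arcsine s (g x) hs).2
  have hint : Integrable (fun p : ℝ × ℝ => Real.log |g p.1 - s * Real.cos p.2|) (μ.prod Theta) := by
    rw [integrable_prod_iff hmeas.aestronglyMeasurable]
    refine ⟨Eventually.of_forall fun x => (arcsine s (g x) hs).1, ?_⟩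
    refine Integrable.mono' (g := fun _ => 2 * (|R| + s) - Real.log (s / 2)) (integrable_const _)
      ?_ ?_
    · exact (hmeas.norm.stronglyMeasurable.integral_prod_right).aestronglyMeasurable
    · filter_upwards [hbd] with x hx
      have i1 := (arcsine s (g x) hs).1
      rw [Real.norm_of_nonneg (integral_nonneg fun θ => norm_nonneg _)]
      calc ∫ θ, ‖Real.log |g x - s * Real.cos θ|‖ ∂Theta
          ≤ ∫ θ, (2 * (|R| + s) - Real.log |g x - s * Real.cos θ|) ∂Theta := by
            apply integral_mono i1.norm ((integrable_const _).sub i1)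
            intro θ
            have h1 := hx θ
            simp only [Real.norm_eq_abs, Pi.sub_apply]
            have h2 : 0 ≤ |R| + s := by positivity
            rw [abs_le]
            constructor <;> linarith
        _ = 2 * (|R| + s) - (Real.log (s / 2) + h (g x / s)) := by
            rw [integral_sub (integrable_const _) i1, hval]
            simp
        _ ≤ 2 * (|R| + s) - Real.log (s / 2) := by
            have := h_nonneg (g x / s)
            linarith
  refine ⟨hint.integral_prod_right, ?_⟩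
  rw [← integral_integral_swap hint]
  simp_rw [hval]
  have ih : Integrable (fun x => h (g x / s)) μ := by
    have h1 := hint.integral_prod_left
    simp only [hval] at h1
    have h2 := h1.sub (integrable_const (Real.log (s / 2)))
    refine h2.congr (Eventually.of_forall fun x => ?_)
    simp
  rw [integral_add (integrable_const _) ih]
  simp

lemma h_integrable {μ : Measure ℝ} [IsProbabilityMeasure μ] {g : ℝ → ℝ} (hg : Measurable g)
    {R : ℝ} (hR : ∀ᵐ x ∂μ, |g x| ≤ R) {s : ℝ} (hs : 0 < s) :
    Integrable (fun x => h (g x / s)) μ := by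
  obtain ⟨C, hC⟩ := (isCompact_Icc (a := -(|R| / s)) (b := |R| / s)).exists_bound_of_continuousOn
    h_cont.continuousOn
  refine Integrable.of_bound (h_cont.measurable.comp (hg.div_const s)).aestronglyMeasurable C ?_
  filter_upwards [hR] with x hx
  apply hC
  have h1 : |g x / s| ≤ |R| / s := by
    rw [abs_div, abs_of_pos hs]
    exact div_le_div_of_nonneg_right (hx.trans (le_abs_self R)) hs.le
  exact abs_le.1 h1

end Pool.Agent.H319R3.Widom
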