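import Pool.Agent.H319R3.WidomB
import Pool.Agent.H319R3.WidomC

set_option autoImplicit false
open MeasureTheory Set Filter Topology
open scoped ENNReal Real

namespace Pool.Agent.H319R3.Widom

/-- the normalising constant of the mixture -/
noncomputable def kap (p : ℝ) : ℝ≥0∞ := ∫⁻ σ in Ioi (0:ℝ), ENNReal.ofReal (σ ^ (p - 1) * h (1 / σ))

lemma h_le {t : ℝ} (ht : 1 ≤ t) : h t ≤ Real.log (2 * t) := by
  unfold h
  have h1 : Real.sqrt (t ^ 2 - 1) ≤ t := by
    rw [Real.sqrt_le_left (by linarith)]; linarith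
  have h2 : 0 ≤ Real.sqrt (t ^ 2 - 1) := Real.sqrt_nonneg _
  rw [abs_of_pos (by linarith), Real.posLog_eq_log (by rw [abs_of_pos (by linarith)]; linarith)]
  exact Real.log_le_log (by linarith) (by linarith)

lemma h_pos {t : ℝ} (ht : 1 < t) : 0 < h t := by
  unfold h
  have h2 : 0 ≤ Real.sqrt (t ^ 2 - 1) := Real.sqrt_nonneg _
  rw [abs_of_pos (by linarith), Real.posLog_eq_log (by rw [abs_of_pos (by linarith)]; linarith)]
  exact Real.log_pos (by linarith)

lemma kap_fin {p : ℝ} (hp : 1 ≤ p) : kap p < ⊤ := by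
  unfold kap
  have hle : ∫⁻ σ in Ioi (0:ℝ), ENNReal.ofReal (σ ^ (p - 1) * h (1 / σ)) ≤
      ∫⁻ σ in Ioc (0:ℝ) 1, ENNReal.ofReal (4 * σ ^ (-(1/2) : ℝ)) := by
    rw [← lintegral_indicator measurableSet_Ioi, ← lintegral_indicator measurableSet_Ioc]
    apply lintegral_mono
    intro σ
    by_cases h0 : 0 < σ
    · rw [indicator_of_mem (mem_Ioi.2 h0)]
      by_cases h1 : σ ≤ 1
      · rw [indicator_of_mem (mem_Ioc.2 ⟨h0, h1⟩)]
        apply ENNReal.ofReal_le_ofReal
        have a1 : σ ^ (p - 1) ≤ 1 := Real.rpow_le_one h0.le h1 (by linarith)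
        have a2 : h (1 / σ) ≤ 4 * σ ^ (-(1/2) : ℝ) := by
          have b1 : 1 ≤ 1 / σ := by rw [le_div_iff₀ h0]; linarith
          refine (h_le b1).trans ?_
          have b2 := Real.log_le_rpow_div (x := 2 * (1 / σ)) (by positivity)
            (show (0:ℝ) < 1/2 by norm_num)
          refine b2.trans ?_
          rw [Real.mul_rpow (by norm_num) (by positivity), one_div σ, Real.inv_rpow h0.le,
            ← Real.rpow_neg h0.le]
          have b3 : (2:ℝ) ^ (1/2 : ℝ) ≤ 2 := by
            calc (2:ℝ) ^ (1/2 : ℝ) ≤ (2:ℝ) ^ (1 : ℝ) :=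
                  Real.rpow_le_rpow_of_exponent_le (by norm_num) (by norm_num)
              _ = 2 := by simp
          have b4 : 0 < σ ^ (-(1/2) : ℝ) := Real.rpow_pos_of_pos h0 _
          rw [div_le_iff₀ (by norm_num)]
          nlinarith
        have a3 : 0 ≤ h (1 / σ) := h_nonneg _
        have a4 : 0 ≤ σ ^ (p - 1) := Real.rpow_nonneg h0.le _
        nlinarith
      · have : h (1 / σ) = 0 := by
          apply h_of_le
          rw [abs_of_pos (by positivity), div_le_one h0]
          linarith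
        rw [this]
        simp
    · rw [indicator_of_notMem (by simpa using h0)]
      exact zero_le
  refine hle.trans_lt ?_
  have hi : IntegrableOn (fun σ : ℝ => 4 * σ ^ (-(1/2) : ℝ)) (Ioc 0 1) := by
    have := (intervalIntegral.intervalIntegrable_rpow' (a := 0) (b := 1) (r := -(1/2))
      (by norm_num))
    rw [intervalIntegrable_iff_integrableOn_Ioc_of_le (by norm_num)] at this
    exact this.const_mul 4
  have := hi.2
  rw [hasFiniteIntegral_iff_ofReal] at this
  · exact this
  · refine (ae_restrict_iff' measurableSet_Ioc).2 (Eventually.of_forall fun u hu => ?_)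
    have : 0 ≤ u ^ (-(1/2) : ℝ) := Real.rpow_nonneg hu.1.le _
    simp only [Pi.zero_apply]
    positivity

lemma kap_pos (p : ℝ) : 0 < kap p := by
  unfold kap
  have hm : Measurable (fun σ : ℝ => ENNReal.ofReal (σ ^ (p - 1) * h (1 / σ))) := by
    have := h_cont.measurable
    fun_prop
  rw [lintegral_pos_iff_support hm]
  have hsub : Ioo (1/4 : ℝ) (1/2) ⊆
      Function.support (fun σ : ℝ => ENNReal.ofReal (σ ^ (p - 1) * h (1 / σ))) := by
    intro σ hσ
    rw [Function.mem_support]
    have h0 : 0 < σ := by linarith [hσ.1]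
    have h1 : 0 < σ ^ (p - 1) := Real.rpow_pos_of_pos h0 _
    have h2 : 0 < h (1 / σ) := by
      apply h_pos
      rw [lt_div_iff₀ h0]; linarith [hσ.2]
    exact (ENNReal.ofReal_pos.2 (by positivity)).ne'
  refine lt_of_lt_of_le ?_ (measure_mono hsub)
  rw [Measure.restrict_apply measurableSet_Ioo, inter_eq_left.2 (fun x hx => by
    simp only [mem_Ioi]; linarith [hx.1]), Real.volume_Ioo]
  simp; norm_num

lemma kap_scale {p : ℝ} (hp : 1 ≤ p) (u : ℝ) :
    ∫⁻ s in Ioi (0:ℝ), ENNReal.ofReal (s ^ (p - 1) * h (u / s)) =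
      ENNReal.ofReal (|u| ^ p) * kap p := by
  rcases eq_or_ne u 0 with h0 | h0
  · subst h0
    have : h 0 = 0 := h_of_le (by simp)
    simp only [zero_div, this, mul_zero, ENNReal.ofReal_zero, lintegral_zero, abs_zero]
    rw [Real.zero_rpow (by linarith)]
    simp
  · have hu : 0 < |u| := abs_pos.2 h0
    have himg : (fun σ => |u| * σ) '' Ioi (0:ℝ) = Ioi 0 := by
      rw [image_mul_left_Ioi hu, mul_zero]
    rw [← himg, lintegral_image_eq_lintegral_abs_deriv_mul measurableSet_Ioi
      (f' := fun _ => |u|) (fun x _ => by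
        have := (hasDerivAt_id x).const_mul |u|
        simpa using this.hasDerivWithinAt)
      (fun a _ b _ hab => mul_left_cancel₀ hu.ne' hab)]
    unfold kap
    rw [← lintegral_const_mul' _ _ ENNReal.ofReal_ne_top]
    apply setLIntegral_congr_fun measurableSet_Ioi
    intro σ hσ
    have hσ0 : 0 < σ := hσ
    simp only
    rw [abs_abs, ← ENNReal.ofReal_mul hu.le, ← ENNReal.ofReal_mul (by positivity)]
    congr 1
    have e1 : h (u / (|u| * σ)) = h (1 / σ) := by
      rw [← h_even (u / (|u| * σ)), abs_div, abs_mul, abs_abs, abs_of_pos hσ0]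
      congr 1
      field_simp
    rw [e1, Real.mul_rpow hu.le hσ0.le]
    have e2 : |u| * |u| ^ (p - 1) = |u| ^ p := by
      rw [← Real.rpow_one_add' hu.le (by linarith)]
      congr 1; ring
    rw [← e2]
    ring

/-- the mixture formula -/
lemma mix {p : ℝ} (hp : 1 ≤ p) {μ : Measure ℝ} [IsProbabilityMeasure μ] {g : ℝ → ℝ}
    (hg : Measurable g) {R : ℝ} (hR : ∀ᵐ x ∂μ, |g x| ≤ R) :
    (∫⁻ x, ENNReal.ofReal (|g x| ^ p) ∂μ) * kap p =
      ∫⁻ s in Ioi (0:ℝ), ENNReal.ofReal (s ^ (p - 1)) * ENNReal.ofReal (∫ x, h (g x / s) ∂μ) := by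
  have hm : Measurable (fun q : ℝ × ℝ => ENNReal.ofReal (q.2 ^ (p - 1) * h (g q.1 / q.2))) := by
    have := h_cont.measurable
    fun_prop
  rw [← lintegral_mul_const _ (by fun_prop)]
  simp_rw [← kap_scale hp]
  rw [lintegral_lintegral_swap hm.aemeasurable]
  apply setLIntegral_congr_fun measurableSet_Ioi
  intro s hs
  have hs0 : 0 < s := hs
  simp only
  rw [ofReal_integral_eq_lintegral_ofReal (h_integrable hg hR hs0)
    (Eventually.of_forall fun x => h_nonneg _), ← lintegral_const_mul' _ _ ENNReal.ofReal_ne_top]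
  apply lintegral_congr
  intro x
  rw [ENNReal.ofReal_mul (Real.rpow_nonneg hs0.le _)]

/-- the arcsine law is extremal for every level -/
lemma level_arcsine {R : ℝ} (hR : 0 < R) {s : ℝ} (hs : 0 < s) :
    ∫ θ, h (R * Real.cos θ / s) ∂Theta = Real.posLog (R / s) := by
  have hb : ∀ θ, |R * Real.cos θ| ≤ R := by
    intro θ
    rw [abs_mul, abs_of_pos hR]
    have := Real.abs_cos_le_one θ
    nlinarith
  rcases le_or_gt s R with hsR | hsR
  · have h1 := (fubini (μ := Theta) (g := fun θ => R * Real.cos θ) (by fun_prop)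
      (Eventually.of_forall hb) hs).2
    have h2 : ∀ θ : ℝ, ∫ x, Real.log |R * Real.cos x - s * Real.cos θ| ∂Theta =
        Real.log (R / 2) := by
      intro θ
      have h3 := (arcsine R (s * Real.cos θ) hR).2
      have h4 : h (s * Real.cos θ / R) = 0 := by
        apply h_of_le
        rw [abs_div, abs_of_pos hR, div_le_one hR, abs_mul, abs_of_pos hs]
        have := Real.abs_cos_le_one θ
        nlinarith
      rw [h4, add_zero] at h3
      rw [← h3]
      apply integral_congr_ae
      refine Eventually.of_forall fun x => ?_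
      simp only
      rw [abs_sub_comm]
    simp_rw [h2] at h1
    rw [integral_const, probReal_univ, one_smul] at h1
    have h5 : Real.posLog (R / s) = Real.log (R / s) := by
      apply Real.posLog_eq_log
      rw [abs_of_pos (by positivity), le_div_iff₀ hs]; linarith
    rw [h5, Real.log_div hR.ne' hs.ne']
    rw [Real.log_div hs.ne' (by norm_num), Real.log_div hR.ne' (by norm_num)] at h1
    linarith
  · have h1 : ∀ θ, h (R * Real.cos θ / s) = 0 := by
      intro θ
      apply h_of_le
      rw [abs_div, abs_of_pos hs, div_le_one hs]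
      linarith [hb θ]
    simp_rw [h1]
    rw [integral_zero, eq_comm, Real.posLog_eq_zero_iff, abs_of_pos (by positivity),
      div_le_one hs]
    exact hsR.le

/-- level inequality for polynomial images -/
lemma level_poly {μ : Measure ℝ} [IsProbabilityMeasure μ] {l : ℝ} (hG : Good μ l)
    {P : Polynomial ℝ} (hP : P.Monic) (hn : 1 ≤ P.natDegree) {R : ℝ}
    (hR : ∀ᵐ x ∂μ, |P.eval x| ≤ R) {s : ℝ} (hs : 0 < s) :
    Real.posLog (2 * Real.exp (P.natDegree * l) / s) ≤ ∫ x, h (P.eval x / s) ∂μ := by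
  obtain ⟨hi, heq⟩ := fubini (g := fun x => P.eval x) (by fun_prop) hR hs
  have h1 : (P.natDegree : ℝ) * l ≤ ∫ θ, ∫ x, Real.log |P.eval x - s * Real.cos θ| ∂μ ∂Theta := by
    calc (P.natDegree : ℝ) * l = ∫ _θ, (P.natDegree : ℝ) * l ∂Theta := by simp
      _ ≤ _ := by
        apply integral_mono (integrable_const _) hi
        intro θ
        exact (hG.poly hP hn _).2
  rw [← heq] at h1
  have h2 : 0 ≤ ∫ x, h (P.eval x / s) ∂μ := integral_nonneg fun x => h_nonneg _
  unfold Real.posLog
  apply max_le h2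
  rw [Real.log_div (by positivity) hs.ne', Real.log_mul (by norm_num) (Real.exp_pos _).ne',
    Real.log_exp]
  rw [Real.log_div hs.ne' (by norm_num)] at h1
  linarith

/-- comparison of moments with the arcsine law -/
theorem moment {μ : Measure ℝ} [IsProbabilityMeasure μ] {l : ℝ} (hG : Good μ l)
    {P : Polynomial ℝ} (hP : P.Monic) (hn : 1 ≤ P.natDegree) {R : ℝ}
    (hR : ∀ᵐ x ∂μ, |P.eval x| ≤ R) {p : ℝ} (hp : 1 ≤ p) :
    (2 * Real.exp (P.natDegree * l)) ^ p * ∫ θ, |Real.cos θ| ^ p ∂Theta ≤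
      ∫ x, |P.eval x| ^ p ∂μ := by
  set ρ := 2 * Real.exp (P.natDegree * l) with hρ
  have hρ0 : 0 < ρ := by positivity
  have hb : ∀ θ, |ρ * Real.cos θ| ≤ ρ := by
    intro θ
    rw [abs_mul, abs_of_pos hρ0]
    have := Real.abs_cos_le_one θ
    nlinarith
  have m1 := mix hp (μ := Theta) (g := fun θ => ρ * Real.cos θ) (by fun_prop)
    (Eventually.of_forall hb)
  have m2 := mix hp (μ := μ) (g := fun x => P.eval x) (by fun_prop) hR
  have hle : (∫⁻ θ, ENNReal.ofReal (|ρ * Real.cos θ| ^ p) ∂Theta) * kap p ≤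
      (∫⁻ x, ENNReal.ofReal (|P.eval x| ^ p) ∂μ) * kap p := by
    rw [m1, m2]
    apply setLIntegral_mono_ae' measurableSet_Ioi
    refine Eventually.of_forall fun s hs => ?_
    gcongr
    rw [level_arcsine hρ0 hs]
    exact level_poly hG hP hn hR hs
  have hle2 : (∫⁻ θ, ENNReal.ofReal (|ρ * Real.cos θ| ^ p) ∂Theta) ≤
      (∫⁻ x, ENNReal.ofReal (|P.eval x| ^ p) ∂μ) :=
    (ENNReal.mul_le_mul_iff_left (kap_pos p).ne' (kap_fin hp).ne).1 hle
  have hip : Integrable (fun x => |P.eval x| ^ p) μ := by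
    refine Integrable.of_bound (by fun_prop (disch := linarith)) (|R| ^ p) ?_
    filter_upwards [hR] with x hx
    rw [Real.norm_of_nonneg (by positivity)]
    exact Real.rpow_le_rpow (abs_nonneg _) (hx.trans (le_abs_self R)) (by linarith)
  have hic : Integrable (fun θ => |ρ * Real.cos θ| ^ p) Theta := by
    refine Integrable.of_bound (by fun_prop (disch := linarith)) (ρ ^ p) ?_
    refine Eventually.of_forall fun x => ?_
    rw [Real.norm_of_nonneg (by positivity)]
    exact Real.rpow_le_rpow (abs_nonneg _) (hb x) (by linarith)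
  rw [← ofReal_integral_eq_lintegral_ofReal hip (Eventually.of_forall fun x => by positivity),
    ← ofReal_integral_eq_lintegral_ofReal hic (Eventually.of_forall fun x => by positivity),
    ENNReal.ofReal_le_ofReal_iff (integral_nonneg fun x => by positivity)] at hle2
  refine le_trans (le_of_eq ?_) hle2
  rw [← integral_const_mul]
  congr 1
  funext θ
  rw [abs_mul, abs_of_pos hρ0, Real.mul_rpow hρ0.le (abs_nonneg _)]

end Pool.Agent.H319R3.Widom
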