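import Pool.Agent.H319R3.WidomC

set_option autoImplicit false
open MeasureTheory Set Filter Topology
open scoped ENNReal Real

namespace Pool.Agent.H319R3.Widom

lemma quarter_lint {p : ℝ} (hp : 1 ≤ p) :
    ∫⁻ θ in Ioo (0:ℝ) (π / 2), ENNReal.ofReal (Real.cos θ ^ p) =
      ENNReal.ofReal (ProbabilityTheory.beta ((p + 1) / 2) (1 / 2) / 2) := by
  set β := ProbabilityTheory.beta ((p + 1) / 2) (1 / 2) with hβ
  have hβpos : 0 < β := ProbabilityTheory.beta_pos (by linarith) (by norm_num)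
  have h1 : ∫⁻ x in Ioo (0:ℝ) 1, ENNReal.ofReal (1 / β * x ^ ((p + 1) / 2 - 1) *
      (1 - x) ^ ((1 / 2 : ℝ) - 1)) = 1 := by
    rw [hβ, ← ProbabilityTheory.lintegral_betaPDF]
    exact ProbabilityTheory.lintegral_betaPDF_eq_one (by linarith) (by norm_num)
  have himg : (fun θ : ℝ => Real.cos θ ^ 2) '' Ioo 0 (π / 2) = Ioo 0 1 := by
    ext y
    simp only [mem_image, mem_Ioo]
    constructor
    · rintro ⟨θ, ⟨h0, h2⟩, rfl⟩
      have hc : 0 < Real.cos θ := Real.cos_pos_of_mem_Ioo ⟨by linarith, h2⟩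
      have hs : 0 < Real.sin θ := Real.sin_pos_of_pos_of_lt_pi h0 (by linarith [Real.pi_pos])
      have := Real.sin_sq_add_cos_sq θ
      constructor
      · positivity
      · nlinarith
    · rintro ⟨h0, h2⟩
      have hs0 : 0 < Real.sqrt y := Real.sqrt_pos.2 h0
      have hs1 : Real.sqrt y < 1 := by rw [Real.sqrt_lt' one_pos]; simpa using h2
      refine ⟨Real.arccos (Real.sqrt y), ⟨Real.arccos_pos.2 hs1, Real.arccos_lt_pi_div_two.2 hs0⟩, ?_⟩
      rw [Real.cos_arccos (by linarith) hs1.le, Real.sq_sqrt h0.le]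
  have hinj : InjOn (fun θ : ℝ => Real.cos θ ^ 2) (Ioo 0 (π / 2)) := by
    intro a ha b hb hab
    have hca : 0 < Real.cos a := Real.cos_pos_of_mem_Ioo ⟨by linarith [ha.1, Real.pi_pos], ha.2⟩
    have hcb : 0 < Real.cos b := Real.cos_pos_of_mem_Ioo ⟨by linarith [hb.1, Real.pi_pos], hb.2⟩
    have h3 : Real.cos a = Real.cos b := (sq_eq_sq₀ hca.le hcb.le).1 hab
    exact Real.injOn_cos ⟨ha.1.le, by linarith [ha.2, Real.pi_pos]⟩
      ⟨hb.1.le, by linarith [hb.2, Real.pi_pos]⟩ h3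
  rw [← himg, lintegral_image_eq_lintegral_abs_deriv_mul measurableSet_Ioo
    (f' := fun θ => 2 * Real.cos θ * (-Real.sin θ)) (fun x _ => by
      have := (Real.hasDerivAt_cos x).fun_pow 2
      simpa using this.hasDerivWithinAt) hinj] at h1
  have h2 : ∫⁻ θ in Ioo (0:ℝ) (π / 2), ENNReal.ofReal |2 * Real.cos θ * (-Real.sin θ)| *
      ENNReal.ofReal (1 / β * (Real.cos θ ^ 2) ^ ((p + 1) / 2 - 1) *
      (1 - Real.cos θ ^ 2) ^ ((1 / 2 : ℝ) - 1)) =
      ENNReal.ofReal (2 / β) * ∫⁻ θ in Ioo (0:ℝ) (π / 2), ENNReal.ofReal (Real.cos θ ^ p) := by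
    rw [← lintegral_const_mul' _ _ ENNReal.ofReal_ne_top]
    apply setLIntegral_congr_fun measurableSet_Ioo
    intro θ hθ
    have hc : 0 < Real.cos θ := Real.cos_pos_of_mem_Ioo ⟨by linarith [hθ.1, Real.pi_pos], hθ.2⟩
    have hs : 0 < Real.sin θ :=
      Real.sin_pos_of_pos_of_lt_pi hθ.1 (by linarith [Real.pi_pos, hθ.2])
    simp only
    rw [← ENNReal.ofReal_mul (abs_nonneg _), ← ENNReal.ofReal_mul (by positivity)]
    congr 1
    have e1 : |2 * Real.cos θ * (-Real.sin θ)| = 2 * Real.cos θ * Real.sin θ := by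
      rw [mul_neg, abs_neg, abs_of_pos (by positivity)]
    have e2 : 1 - Real.cos θ ^ 2 = Real.sin θ ^ 2 := by
      have := Real.sin_sq_add_cos_sq θ
      linarith
    rw [e1, e2]
    have e3 : (Real.cos θ ^ 2) ^ ((p + 1) / 2 - 1) = Real.cos θ ^ (p - 1) := by
      rw [← Real.rpow_natCast, ← Real.rpow_mul hc.le]
      congr 1; push_cast; ring
    have e4 : (Real.sin θ ^ 2) ^ ((1 / 2 : ℝ) - 1) = (Real.sin θ)⁻¹ := by
      rw [← Real.rpow_natCast, ← Real.rpow_mul hs.le, ← Real.rpow_neg_one]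
      congr 1; push_cast; ring
    have e5 : Real.cos θ ^ p = Real.cos θ * Real.cos θ ^ (p - 1) := by
      rw [← Real.rpow_one_add' hc.le (by linarith)]
      congr 1; ring
    rw [e3, e4, e5]
    field_simp
  rw [h2] at h1
  have h3 : ENNReal.ofReal (β / 2) * (ENNReal.ofReal (2 / β) *
      ∫⁻ θ in Ioo (0:ℝ) (π / 2), ENNReal.ofReal (Real.cos θ ^ p)) = ENNReal.ofReal (β / 2) := by
    rw [h1, mul_one]
  rw [← mul_assoc, ← ENNReal.ofReal_mul (by positivity)] at h3
  rw [show β / 2 * (2 / β) = 1 by field_simp, ENNReal.ofReal_one, one_mul] at h3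
  exact h3

lemma quarter {p : ℝ} (hp : 1 ≤ p) :
    ∫ θ in (0:ℝ)..(π / 2), |Real.cos θ| ^ p =
      ProbabilityTheory.beta ((p + 1) / 2) (1 / 2) / 2 := by
  have hβpos : 0 < ProbabilityTheory.beta ((p + 1) / 2) (1 / 2) :=
    ProbabilityTheory.beta_pos (by linarith) (by norm_num)
  rw [intervalIntegral.integral_of_le (by positivity), integral_Ioc_eq_integral_Ioo]
  have h1 : ∫ θ in Ioo (0:ℝ) (π / 2), |Real.cos θ| ^ p = ∫ θ in Ioo (0:ℝ) (π / 2), Real.cos θ ^ p := by
    apply setIntegral_congr_fun measurableSet_Ioo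
    intro θ hθ
    have hc : 0 < Real.cos θ := Real.cos_pos_of_mem_Ioo ⟨by linarith [hθ.1, Real.pi_pos], hθ.2⟩
    simp only
    rw [abs_of_pos hc]
  rw [h1, integral_eq_lintegral_of_nonneg_ae, quarter_lint hp, ENNReal.toReal_ofReal (by positivity)]
  · refine (ae_restrict_iff' measurableSet_Ioo).2 (Eventually.of_forall fun θ hθ => ?_)
    have hc : 0 < Real.cos θ := Real.cos_pos_of_mem_Ioo ⟨by linarith [hθ.1, Real.pi_pos], hθ.2⟩
    simp only [Pi.zero_apply]
    positivity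
  · exact (by fun_prop : Measurable fun θ : ℝ => Real.cos θ ^ p).aestronglyMeasurable

lemma full {p : ℝ} (hp : 1 ≤ p) :
    ∫ θ in (0:ℝ)..(2 * π), |Real.cos θ| ^ p =
      2 * ProbabilityTheory.beta ((p + 1) / 2) (1 / 2) := by
  have hcont : Continuous fun θ : ℝ => |Real.cos θ| ^ p := by
    fun_prop (disch := linarith)
  have hi : ∀ a b : ℝ, IntervalIntegrable (fun θ : ℝ => |Real.cos θ| ^ p) volume a b :=
    fun a b => hcont.intervalIntegrable a b
  have h1 : ∫ θ in (π/2)..π, |Real.cos θ| ^ p = ∫ θ in (0:ℝ)..(π / 2), |Real.cos θ| ^ p := by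
    have := intervalIntegral.integral_comp_sub_left (a := π / 2) (b := π)
      (fun θ : ℝ => |Real.cos θ| ^ p) π
    rw [sub_self, show π - π / 2 = π / 2 by ring] at this
    rw [← this]
    apply intervalIntegral.integral_congr
    intro θ _
    simp only
    rw [Real.cos_pi_sub, abs_neg]
  have h2 : ∫ θ in π..(2 * π), |Real.cos θ| ^ p = ∫ θ in (0:ℝ)..π, |Real.cos θ| ^ p := by
    have := intervalIntegral.integral_comp_add_right (a := 0) (b := π)
      (fun θ : ℝ => |Real.cos θ| ^ p) π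
    rw [zero_add, show π + π = 2 * π by ring] at this
    rw [← this]
    apply intervalIntegral.integral_congr
    intro θ _
    simp only
    rw [Real.cos_add_pi, abs_neg]
  rw [← intervalIntegral.integral_add_adjacent_intervals (hi 0 π) (hi π (2 * π)), h2,
    ← intervalIntegral.integral_add_adjacent_intervals (hi 0 (π / 2)) (hi (π/2) π), h1, quarter hp]
  ring

theorem cos_moment {p : ℝ} (hp : 1 ≤ p) :
    ∫ θ, |Real.cos θ| ^ p ∂Theta =
      1 / Real.sqrt π * Real.Gamma ((p + 1) / 2) / Real.Gamma (p / 2 + 1) := by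
  rw [integral_Theta, full hp, ProbabilityTheory.beta, Real.Gamma_one_half_eq,
    show (p + 1) / 2 + 1 / 2 = p / 2 + 1 by ring]
  have hπ : Real.sqrt π * Real.sqrt π = π := Real.mul_self_sqrt Real.pi_pos.le
  have h0 : 0 < Real.sqrt π := Real.sqrt_pos.2 Real.pi_pos
  have hG : Real.Gamma (p / 2 + 1) ≠ 0 := (Real.Gamma_pos_of_pos (by linarith)).ne'
  nth_rewrite 1 [← hπ]
  field_simp

end Pool.Agent.H319R3.Widom
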